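import Pool.Agent.MP_5aa9a8_gt.H44.Poset

/-! Copying conditions into side conditions, and the basic extensions. -/

namespace Pool.Agent.MP_5aa9a8_gt.H44

open Set

variable {Λ : Type} [LinearOrder Λ] {L : Lab Λ}

lemma fin_coded (L : Lab Λ) {t : Set Λ} (ht : t.Finite) :
    {A : Set Λ | A.Countable ∧ L.c A ∈ t}.Finite :=
  Finite.of_finite_image (f := L.c) (ht.subset fun _ ⟨_, h, e⟩ => e ▸ h.2)
    fun A hA B hB e => L.inj A B hA.1 hB.1 e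

/-- `Q` reflects the property `Φ` -/
def Refl (Φ : Λ → ℕ → Cond L → Set Λ → Prop) (Q : Set Λ) : Prop :=
  ∀ q : Cond L, Q ∈ q.nd → ∀ η ∈ Q, ∀ n B, Φ η n q B →
    ∃ q' B' r, Φ η n q' B' ∧ B' ⊆ Q ∧ r ≤ q ∧ r ≤ q'

theorem exists_refl [WellFoundedLT Λ] (Φ : Λ → ℕ → Cond L → Set Λ → Prop)
    (hΦ : ∀ η n q B, Φ η n q B → B.Finite) {S : Set Λ} (hS : S.Countable) :
    ∃ Q : Set Λ, Q.Countable ∧ S ⊆ Q ∧ CL L Q ∧ Refl Φ Q := by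
  classical
  let D := Set Λ × Set (Λ × Λ) × Set (Λ × Λ) × Set (Set Λ) × Λ × ℕ
  have hw : ∀ d : D, ∃ x : Cond L × Set Λ, x.2.Finite ∧
      ((∃ y : Cond L × Set Λ, Like d.1 d.2.1 d.2.2.1 d.2.2.2.1 y.1 ∧
        Φ d.2.2.2.2.1 d.2.2.2.2.2 y.1 y.2) →
      Like d.1 d.2.1 d.2.2.1 d.2.2.2.1 x.1 ∧ Φ d.2.2.2.2.1 d.2.2.2.2.2 x.1 x.2) := fun d => by
    by_cases h : ∃ y : Cond L × Set Λ, Like d.1 d.2.1 d.2.2.1 d.2.2.2.1 y.1 ∧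
        Φ d.2.2.2.2.1 d.2.2.2.2.2 y.1 y.2
    · obtain ⟨y, hy⟩ := h
      exact ⟨y, hΦ _ _ _ _ hy.2, fun _ => hy⟩
    · exact ⟨(⊤, ∅), finite_empty, fun h' => absurd h' h⟩
  choose x hx1 hx2 using hw
  let sup : Set Λ → Set D := fun t => {R | R ⊆ t} ×ˢ {l | l ⊆ t ×ˢ t} ×ˢ {l | l ⊆ t ×ˢ t} ×ˢ
    {a | a ⊆ {A : Set Λ | A.Countable ∧ L.c A ∈ t}} ×ˢ t ×ˢ univ
  let out : D → Set Λ := fun d =>
    (x d).1.F ∪ (x d).2 ∪ ⋃ K ∈ (x d).1.nd, insert (L.c K) K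
  let G : Set Λ → Set Λ := fun t => (⋃ d ∈ sup t, out d) ∪
    (fun y : Set Λ × Λ => L.c (y.1 ∩ Iio y.2)) '' ({A : Set Λ | A.Countable ∧ L.c A ∈ t} ×ˢ t)
  obtain ⟨Q, h1, h2, h3⟩ := exists_closed G (fun t ht => by
    refine (Countable.biUnion ?_ fun d _ => ?_).union
      (((fin_coded L ht).prod ht).image _).countable
    · exact ht.finite_subsets.countable.prod ((ht.prod ht).finite_subsets.countable.prod
        ((ht.prod ht).finite_subsets.countable.prod ((fin_coded L ht).finite_subsets.countable.prod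
          (ht.countable.prod countable_univ))))
    · exact ((x d).1.fin.countable.union (hx1 d).countable).union
        ((x d).1.ndfin.countable.biUnion fun K hK => ((x d).1.cnt K hK).insert _)) hS
  refine ⟨Q, h1, h2, fun A ξ hA hξ => ⟨inter_subset_left.trans hA.1, ?_⟩,
    fun q hQ η hη n B hB => ?_⟩
  · exact h3 {L.c A, ξ} (toFinite _) (pair_subset hA.2 hξ)
      (Or.inr ⟨(A, ξ), ⟨⟨h1.mono hA.1, Or.inl rfl⟩, Or.inr rfl⟩, rfl⟩)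
  let d : D := (q.F ∩ Q, {x | x ∈ (q.F ∩ Q) ×ˢ (q.F ∩ Q) ∧ q.le x.1 x.2},
    {x | x ∈ (q.F ∩ Q) ×ˢ (q.F ∩ Q) ∧ q.sm x.1 x.2}, q.tr Q, η, n)
  obtain ⟨a1, a2⟩ := hx2 d ⟨(q, B), like_self q hQ, hB⟩
  let t : Set Λ := insert η ((q.F ∩ Q) ∪ L.c '' q.tr Q)
  have htr : (q.tr Q).Finite :=
    (q.ndfin.image (· ∩ Q)).subset fun _ ⟨K, hK, _, _, e⟩ => ⟨K, hK, e.symm⟩
  have hR : q.F ∩ Q ⊆ t := fun _ h => Or.inr (Or.inl h)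
  have ho : out d ⊆ Q := by
    refine Subset.trans (fun y hy => Or.inl (mem_biUnion (s := sup t) ?_ hy))
      (h3 t (((q.fin.inter_of_left Q).union (htr.image _)).insert η) ?_)
    · refine ⟨hR, fun y hy => ⟨hR hy.1.1, hR hy.1.2⟩, fun y hy => ⟨hR hy.1.1, hR hy.1.2⟩,
        fun A hA => ⟨?_, Or.inr (Or.inr ⟨A, hA, rfl⟩)⟩, Or.inl rfl, trivial⟩
      obtain ⟨K, _, _, _, rfl⟩ := hA
      exact h1.mono inter_subset_right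
    · rintro y (rfl | hy | ⟨A, ⟨K, _, _, hK, rfl⟩, rfl⟩)
      exacts [hη, hy.2, hK.2]
  obtain ⟨r, r1, r2⟩ := amalg q (x d).1 hQ (fun y hy => ho (Or.inl (Or.inl hy)))
    (fun K hK => ⟨fun y hy => ho (Or.inr (mem_biUnion hK (Or.inr hy))),
      ho (Or.inr (mem_biUnion hK (Or.inl rfl)))⟩) a1
  exact ⟨(x d).1, (x d).2, r, a2, fun y hy => ho (Or.inl (Or.inr hy)), r1, r2⟩

/-- everything a condition mentions -/
def Cond.all (p : Cond L) : Set Λ := p.F ∪ ⋃ K ∈ p.nd, insert (L.c K) K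

lemma Cond.all_cnt (p : Cond L) : p.all.Countable :=
  p.fin.countable.union (p.ndfin.countable.biUnion fun K hK => (p.cnt K hK).insert _)

lemma Cond.in_all {p : Cond L} {K M : Set Λ} (hK : K ∈ p.nd) (h : p.all ⊆ M) : In L K M :=
  ⟨fun _ hy => h (Or.inr (mem_biUnion hK (Or.inr hy))), h (Or.inr (mem_biUnion hK (Or.inl rfl)))⟩

lemma add_node (p : Cond L) {M : Set Λ} (hc : M.Countable) (hM : CL L M)
    (had : ∀ K ∈ p.nd, Ad L K M)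
    (hbs : ∀ x y c, p.sm x y → x ∈ M → y ∈ M → p.le c x → p.le c y →
      ∃ w ∈ M, p.le c w ∧ p.le w x ∧ p.le w y) :
    ∃ q, q ≤ p ∧ q.F = p.F ∧ q.le = p.le ∧ q.sm = p.sm ∧ q.nd = insert M p.nd := by
  refine ⟨⟨p.F, p.le, p.sm, insert M p.nd, p.fin, p.ndfin.insert M, p.dom, p.mon, p.refl, p.trans,
    p.sdom, p.srefl, p.ssymm, p.sdown, ?_, ?_, ?_, ?_⟩, ⟨Subset.rfl, subset_insert _ _, id, id,
      fun _ h1 h2 => ⟨_, p.refl (p.dom h1).1, h1, h2⟩⟩, rfl, rfl, rfl, rfl⟩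
  · rintro K (rfl | hK) x y c
    exacts [hbs x y c, p.bs K hK]
  · rintro K (rfl | hK)
    exacts [hc, p.cnt K hK]
  · rintro K (rfl | hK)
    exacts [hM, p.cl K hK]
  · rintro K (rfl | hK) K' (rfl | hK')
    exacts [Ad.refl _, (had K' hK').symm, had K hK, p.ad K hK K' hK']

lemma add_top (p : Cond L) {M : Set Λ} (hc : M.Countable) (hM : CL L M) (h : p.all ⊆ M) :
    ∃ q, q ≤ p ∧ M ∈ q.nd := by
  obtain ⟨q, h1, _, _, _, h2⟩ := add_node p hc hM (fun K hK => ad_top (p.in_all hK h))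
    fun x y c _ _ _ h1 h2 => ⟨c, h (Or.inl (p.dom h1).1), p.refl (p.dom h1).1, h1, h2⟩
  exact ⟨q, h1, h2 ▸ mem_insert _ _⟩

/-- two new points above the set `D`, with a marked pair -/
lemma add_two (p : Cond L) (D : Set Λ) (hD : ∀ a b, p.le a b → b ∈ D → a ∈ D) (hDF : D ⊆ p.F)
    (hDs : ∀ a ∈ D, ∀ b ∈ D, p.sm a b) {η₁ η₂ : Λ} (hne : η₁ ≠ η₂) (h1 : ∀ a ∈ p.F, a < η₁)
    (h2 : ∀ a ∈ p.F, a < η₂) (hK : ∀ K ∈ p.nd, η₁ ∈ K → η₂ ∉ K) :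
    ∃ q, q ≤ p ∧ q.sm η₁ η₂ ∧ (∀ a ∈ D, q.le a η₁ ∧ q.le a η₂) ∧
      ∀ a, q.le a η₁ → q.le a η₂ → a ∈ D := by
  let E : Set Λ := {η₁, η₂}
  have hE : ∀ {η}, η ∈ E → ∀ a ∈ p.F, a < η := by
    rintro η (rfl | rfl)
    exacts [h1, h2]
  have nF : ∀ {η}, η ∈ E → η ∉ p.F := fun h h' => lt_irrefl _ (hE h _ h')
  let le : Λ → Λ → Prop := fun a b => p.le a b ∨ (b ∈ E ∧ (a = b ∨ a ∈ D))
  have l1 : ∀ {a b}, b ∈ p.F → le a b → p.le a b := fun hb h =>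
    h.resolve_right fun h => nF h.1 hb
  have l2 : ∀ {a b}, b ∈ D ∪ E → le a b → a ∈ D ∪ E := by
    rintro a b hb (h | ⟨h, rfl | h'⟩)
    exacts [Or.inl (hD a b h (hb.resolve_right fun h' => nF h' (p.dom h).2)), hb, Or.inl h']
  have lrefl : ∀ {a}, a ∈ p.F ∪ E → le a a := by
    rintro a (h | h)
    exacts [Or.inl (p.refl h), Or.inr ⟨h, Or.inl rfl⟩]
  let sm : Λ → Λ → Prop := fun a b => p.sm a b ∨ (a ∈ D ∪ E ∧ b ∈ D ∪ E)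
  have hle : ∀ a ∈ D, ∀ η ∈ E, le a η := fun a ha η hη => Or.inr ⟨hη, Or.inr ha⟩
  refine ⟨⟨p.F ∪ E, le, sm, p.nd, p.fin.union (toFinite _), p.ndfin, ?_, ?_, lrefl, ?_, ?_, ?_, ?_,
    ?_, ?_, p.cnt, p.cl, p.ad⟩, ⟨subset_union_left, Subset.rfl, Or.inl, Or.inl,
      fun h a b => ?_⟩, Or.inr ⟨Or.inr (Or.inl rfl), Or.inr (Or.inr rfl)⟩,
    fun a ha => ⟨hle a ha _ (Or.inl rfl), hle a ha _ (Or.inr rfl)⟩, ?_⟩
  · rintro a b (h | ⟨h, rfl | h'⟩)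
    exacts [⟨Or.inl (p.dom h).1, Or.inl (p.dom h).2⟩, ⟨Or.inr h, Or.inr h⟩,
      ⟨Or.inl (hDF h'), Or.inr h⟩]
  · rintro a b (h | ⟨h, rfl | h'⟩)
    exacts [p.mon h, le_rfl, (hE h _ (hDF h')).le]
  · rintro a b c h0 (h | ⟨h, rfl | h'⟩)
    exacts [Or.inl (p.trans (l1 (p.dom h).1 h0) h), h0,
      hle a (hD a b (l1 (hDF h') h0) h') c h]
  · rintro a b (h | h)
    exacts [⟨Or.inl (p.sdom h).1, Or.inl (p.sdom h).2⟩,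
      ⟨h.1.imp (fun h => hDF h) id, h.2.imp (fun h => hDF h) id⟩]
  · rintro a (h | h)
    exacts [Or.inl (p.srefl h), Or.inr ⟨Or.inr h, Or.inr h⟩]
  · exact fun h => h.imp p.ssymm And.symm
  · rintro x y a b (h | h) ha hb
    exacts [Or.inl (p.sdown h (l1 (p.sdom h).1 ha) (l1 (p.sdom h).2 hb)),
      Or.inr ⟨l2 h.1 ha, l2 h.2 hb⟩]
  · have old : ∀ K ∈ p.nd, ∀ {x y c}, p.sm x y → x ∈ K → y ∈ K → le c x → le c y →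
        ∃ w ∈ K, le c w ∧ le w x ∧ le w y := fun K hK x y c h hx hy a b => by
      obtain ⟨w, d0, d1, d2, d3⟩ := p.bs K hK h hx hy (l1 (p.sdom h).1 a) (l1 (p.sdom h).2 b)
      exact ⟨w, d0, Or.inl d1, Or.inl d2, Or.inl d3⟩
    rintro K hK' x y c (h | ⟨hx | hx, hy | hy⟩) a b h3 h4
    · exact old K hK' h a b h3 h4
    · exact old K hK' (hDs x hx y hy) a b h3 h4
    · exact ⟨x, a, h3, lrefl (Or.inl (hDF hx)), hle x hx y hy⟩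
    · exact ⟨y, b, h4, hle y hy x hx, lrefl (Or.inl (hDF hy))⟩
    · have : x = y := by
        rcases hx with rfl | rfl <;> rcases hy with rfl | rfl
        exacts [rfl, absurd b (hK K hK' a), absurd a (hK K hK' b), rfl]
      subst this
      exact ⟨x, a, h3, lrefl (Or.inr hx), lrefl (Or.inr hx)⟩
  · have h3 := l1 (p.sdom h).1 a
    exact ⟨_, Or.inl (p.refl (p.dom h3).1), h3, l1 (p.sdom h).2 b⟩
  · rintro a (h | ⟨_, rfl | h⟩) h'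
    · exact absurd (p.dom h).2 (nF (Or.inl rfl))
    · rcases h' with h' | ⟨_, h' | h'⟩
      exacts [absurd (p.dom h').2 (nF (Or.inr rfl)), absurd h' hne, h']
    · exact h

theorem exists_far [WellFoundedLT Λ] (Φ : ℕ → Cond L → Set Λ → Prop)
    (hΦ : ∀ n q B, Φ n q B → B.Finite) (p : Cond L) :
    ∃ q, q ≤ p ∧ ∃ ζ₁ ζ₂, ζ₁ < ζ₂ ∧ ζ₁ ∈ q.F ∧ ζ₂ ∈ q.F ∧ ∀ r, r ≤ q → ∀ n B, Φ n r B →
      ∃ q' B' r', Φ n q' B' ∧ (∀ η ∈ B', η < ζ₁) ∧ r' ≤ r ∧ r' ≤ q' := by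
  obtain ⟨Q, h1, h2, h3, h4⟩ := exists_refl (fun _ => Φ) (fun _ => hΦ) (p.all_cnt.insert L.w1)
  obtain ⟨p1, a1, a2⟩ := add_top p h1 h3 ((subset_insert _ _).trans h2)
  obtain ⟨ζ₁, b1⟩ := L.bd _ p1.all_cnt
  obtain ⟨ζ₂, b2⟩ := L.bd _ (p1.all_cnt.insert ζ₁)
  have c1 : ζ₁ < ζ₂ := b2 _ (Or.inl rfl)
  obtain ⟨q, d1, d2, _⟩ := add_two p1 ∅ (fun _ _ _ h => h.elim) (empty_subset _)
    (fun _ h => h.elim) c1.ne (fun a ha => b1 a (Or.inl ha)) (fun a ha => b2 a (Or.inr (Or.inl ha)))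
    fun K hK h => absurd (b1 _ ((p1.in_all hK Subset.rfl).1 h)) (lt_irrefl _)
  refine ⟨q, d1.trans a1, ζ₁, ζ₂, c1, (q.sdom d2).1, (q.sdom d2).2, fun r hr n B hB => ?_⟩
  obtain ⟨q', B', r', e1, e2, e3⟩ := h4 r ((hr.trans d1).nd a2) L.w1 (h2 (Or.inl rfl)) n B hB
  exact ⟨q', B', r', e1, fun η hη => b1 η ((p1.in_all a2 Subset.rfl).1 (e2 hη)), e3⟩

theorem exists_split [WellFoundedLT Λ] (Φ : Λ → ℕ → Cond L → Λ → Prop) (p : Cond L) :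
    ∃ p1, p1 ≤ p ∧ ∃ α, α < L.w1 ∧ ∀ s, s ≤ p1 → ∀ ζ ∈ s.F, ∃ s', s' ≤ s ∧ ∃ η₁ η₂,
      (∀ r, r ≤ s' → ∀ μ, r.le μ ζ ↔ r.le μ η₁ ∧ r.le μ η₂) ∧
      ∀ η, η = η₁ ∨ η = η₂ → ∀ q, q ≤ s' → ∀ n, Φ η n q α →
        ∃ q' α' r, Φ η n q' α' ∧ α' ≠ α ∧ r ≤ q ∧ r ≤ q' := by
  let Ψ : Λ → ℕ → Cond L → Set Λ → Prop := fun η n q B => ∃ α, B = {α} ∧ Φ η n q α
  choose M m1 m2 m3 m4 using fun N : Λ => exists_refl Ψ
    (fun _ _ _ _ ⟨_, e, _⟩ => e ▸ finite_singleton _) (p.all_cnt.insert N)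
  obtain ⟨z, hz⟩ := L.bd _ (p.all_cnt.insert L.w1)
  obtain ⟨v, hv⟩ : ∃ v, ∀ b, ∃ N, b < N ∧ z < N ∧ Cp L N ∧ L.c (M N ∩ Iio N) = v := by
    by_contra hc
    push Not at hc
    choose g hg using hc
    obtain ⟨N, a1, a2, a3⟩ := L.cp g z
    exact hg _ N (a2 _ (a3 _ ((m1 N).mono inter_subset_left) fun _ h => h.2)) a1 a3 rfl
  obtain ⟨N0, -, a1, a2, a3⟩ := hv z
  have key : ∀ b, ∃ N, b < N ∧ z < N ∧ Cp L N ∧ M N ∩ Iio N = M N0 ∩ Iio N0 := fun b => by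
    obtain ⟨N, b1, b2, b3, b4⟩ := hv b
    exact ⟨N, b1, b2, b3, L.inj _ _ ((m1 N).mono inter_subset_left)
      ((m1 N0).mono inter_subset_left) (b4.trans a3.symm)⟩
  obtain ⟨p1, c1, c2⟩ := add_top p ((m1 N0).mono inter_subset_left) ((m3 N0).trace a2 (m1 N0))
    fun x hx => ⟨m2 N0 (Or.inr hx), (hz x (Or.inr hx)).trans a1⟩
  obtain ⟨α, d1, d2⟩ : ∃ α, α < L.w1 ∧ α ∉ M N0 := by
    by_contra hc
    push Not at hc
    exact L.unc ((m1 N0).mono hc)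
  have step : ∀ s : Cond L, M N0 ∩ Iio N0 ∈ s.nd → ∃ N s', s' ≤ s ∧ s'.F = s.F ∧ s'.le = s.le ∧
      s'.sm = s.sm ∧ s'.nd = insert (M N) s.nd ∧ (∀ x ∈ s.all, x < N) ∧ α ∉ M N ∧
      M N ∩ Iio N = M N0 ∩ Iio N0 := fun s hs => by
    obtain ⟨b, hb⟩ := L.bd _ s.all_cnt
    obtain ⟨N, e1, e2, e3, e4⟩ := key b
    obtain ⟨s', f1, f2, f3, f4, f5⟩ := add_node s (m1 N) (m3 N) (fun K hK =>
      (ad_ext e3 (m1 N) (m3 N) (m2 N (Or.inl rfl))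
        (fun x hx => (hb x ((s.in_all hK Subset.rfl).1 hx)).trans e1)
        (e4 ▸ s.ad _ hs K hK)).symm) fun x y c h hx hy h1 h2 => by
      obtain ⟨w, hw, h3⟩ := s.bs _ hs h
        (e4 ▸ ⟨hx, (hb x (Or.inl (s.sdom h).1)).trans e1⟩)
        (e4 ▸ ⟨hy, (hb y (Or.inl (s.sdom h).2)).trans e1⟩) h1 h2
      exact ⟨w, (e4.symm ▸ hw : w ∈ M N ∩ Iio N).1, h3⟩
    refine ⟨N, s', f1, f2, f3, f4, f5, fun x hx => (hb x hx).trans e1, fun h => d2 ?_, e4⟩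
    exact (e4 ▸ ⟨h, d1.trans ((hz _ (Or.inl rfl)).trans e2)⟩ : α ∈ M N0 ∩ Iio N0).1
  refine ⟨p1, c1, α, d1, fun s hs ζ hζ => ?_⟩
  obtain ⟨N1, s1, e1, e2, e3, e4, e5, e6, e7, _⟩ := step s (hs.nd c2)
  obtain ⟨N2, s2, f1, f2, f3, f4, f5, f6, f7, f8⟩ := step s1 (e1.nd (hs.nd c2))
  have g1 : M N1 ∈ s1.nd := e5 ▸ mem_insert _ _
  have g2 : N1 < N2 := f6 _ ((s1.in_all g1 Subset.rfl).1 (m2 N1 (Or.inl rfl)))
  have hζ2 : ζ ∈ s2.F := (f1.trans e1).F hζ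
  obtain ⟨s', k1, k2, k3, k4⟩ := add_two s2 {a | s2.le a ζ} (fun a b h h' => s2.trans h h')
    (fun a h => (s2.dom h).1) (fun a ha b hb => s2.sdown (s2.srefl hζ2) ha hb) g2.ne
    (fun a ha => e6 a (Or.inl (e2 ▸ f2 ▸ ha))) (fun a ha => f6 a (Or.inl (f2 ▸ ha)))
    (fun K hK h1 h2 => by
      rw [f5] at hK
      rcases hK with rfl | hK
      · have : N1 ∈ M N0 ∩ Iio N0 := f8 ▸ ⟨h1, g2⟩
        exact lt_irrefl _ (e6 _ ((s.in_all (hs.nd c2) Subset.rfl).1 this))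
      · exact lt_irrefl _ (f6 _ ((s1.in_all hK Subset.rfl).1 h2)))
  refine ⟨s', k1.trans (f1.trans e1), N1, N2, fun r hr μ => ⟨fun h => ?_, fun h => ?_⟩,
    fun η hη q hq n hΦ => ?_⟩
  · have := k3 ζ (s2.refl hζ2)
    exact ⟨r.trans h (hr.le this.1), r.trans h (hr.le this.2)⟩
  · obtain ⟨w, w1, w2, w3⟩ := hr.ip k2 h.1 h.2
    exact r.trans w1 (hr.le (k1.le (k4 w w2 w3)))
  · have : M η ∈ q.nd ∧ α ∉ M η := by
      rcases hη with rfl | rfl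
      exacts [⟨(hq.trans (k1.trans f1)).nd g1, e7⟩, ⟨(hq.trans k1).nd (f5 ▸ mem_insert _ _), f7⟩]
    obtain ⟨q', B', r, ⟨α', rfl, n1⟩, n2, n3⟩ := m4 η q this.1 η (m2 η (Or.inl rfl)) n _
      ⟨α, rfl, hΦ⟩
    exact ⟨q', α', r, n1, fun e => this.2 (e ▸ n2 rfl), n3⟩

end Pool.Agent.MP_5aa9a8_gt.H44
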