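import Mathlib

/-! Models of ZFC, and the notions of the problem read inside a transitive model `W`. -/

namespace Pool.Agent.MP_5aa9a8_gt.H44

open FirstOrder

/-- the only relation symbol of the language of set theory: membership -/
inductive MemRel : ℕ → Type
  | mem : MemRel 2

/-- the first-order language of set theory -/
def setLang : FirstOrder.Language.{0, 0} := ⟨fun _ => Empty, MemRel⟩

/-- a type with a binary relation `E` as a structure for the language of set theory -/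
@[reducible] def memStr {M : Type 1} (E : M → M → Prop) : setLang.Structure M where
  funMap := fun f _ => Empty.elim f
  RelMap := fun r v => match r, v with
    | MemRel.mem, v => E (v 0) (v 1)

/-- `(M, E)` is a model of ZFC; the schemes range over all first-order definable classes with
parameters -/
structure IsZFC {M : Type 1} (E : M → M → Prop) : Prop where
  ext : ∀ a b, (∀ x, E x a ↔ E x b) → a = b
  found : ∀ a, (∃ x, E x a) → ∃ x, E x a ∧ ∀ y, E y x → ¬ E y a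
  pair : ∀ a b, ∃ c, ∀ x, E x c ↔ x = a ∨ x = b
  union : ∀ a, ∃ u, ∀ x, E x u ↔ ∃ y, E y a ∧ E x y
  power : ∀ a, ∃ u, ∀ x, E x u ↔ ∀ y, E y x → E y a
  inf : ∃ w, (∃ e, E e w ∧ ∀ x, ¬ E x e) ∧
    ∀ x, E x w → ∃ s, E s w ∧ ∀ y, E y s ↔ E y x ∨ y = x
  sep : ∀ C : Set M, @Set.Definable₁ M Set.univ setLang (memStr E) C →
    ∀ a, ∃ b, ∀ x, E x b ↔ E x a ∧ x ∈ C
  repl : ∀ C : Set (M × M), @Set.Definable₂ M Set.univ setLang (memStr E) C →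
    ∀ a, (∀ x, E x a → ∀ y y', (x, y) ∈ C → (x, y') ∈ C → y = y') →
      ∃ b, ∀ y, E y b ↔ ∃ x, E x a ∧ (x, y) ∈ C
  choice : ∀ a, (∀ x, E x a → ∃ y, E y x) →
    (∀ x x' y, E x a → E x' a → E y x → E y x' → x = x') →
      ∃ c, ∀ x, E x a → ∃! y, E y x ∧ E y c

/-- the von Neumann numerals -/
def num : ℕ → ZFSet.{0}
  | 0 => ∅
  | n + 1 => insert (num n) (num n)

section

variable (W X τ : ZFSet.{0})

/-- `a` is countable in `W`: a function in `W` maps a set of natural numbers onto a superset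
of `a` -/
def Cnt (a : ZFSet.{0}) : Prop :=
  ∃ f ∈ W, (∀ n z z', ZFSet.pair n z ∈ f → ZFSet.pair n z' ∈ f → z = z') ∧
    ∀ z ∈ a, ∃ n ∈ ZFSet.omega, ZFSet.pair n z ∈ f

/-- in `W`, `τ` is a topology on `X` -/
def IsTop : Prop :=
  (∀ U ∈ τ, U ⊆ X) ∧ X ∈ τ ∧ (∀ U ∈ τ, ∀ V ∈ τ, U ∩ V ∈ τ) ∧
    ∀ C ∈ W, C ⊆ τ → ZFSet.sUnion C ∈ τ

/-- distinct points have disjoint open neighbourhoods -/
def Haus : Prop :=
  ∀ x ∈ X, ∀ y ∈ X, x ≠ y → ∃ U ∈ τ, ∃ V ∈ τ, x ∈ U ∧ y ∈ V ∧ ∀ z, z ∈ U → z ∉ V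

/-- every open cover in `W` has a finite subcover -/
def Cpt : Prop :=
  ∀ C ∈ W, C ⊆ τ → (∀ x ∈ X, ∃ U ∈ C, x ∈ U) →
    ∃ s : Finset ZFSet.{0}, (∀ U ∈ s, U ∈ C) ∧ ∀ x ∈ X, ∃ U ∈ s, x ∈ U

/-- `U` is an open subset of `X × X` in the product topology -/
def OpenSq (U : ZFSet.{0}) : Prop :=
  (∀ z ∈ U, ∃ x ∈ X, ∃ y ∈ X, z = ZFSet.pair x y) ∧
    ∀ x y, ZFSet.pair x y ∈ U → ∃ V ∈ τ, ∃ V' ∈ τ, x ∈ V ∧ y ∈ V' ∧
      ∀ x' ∈ V, ∀ y' ∈ V', ZFSet.pair x' y' ∈ U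

/-- in `W`, every uncountable `A ⊆ X × X` off the diagonal has uncountably many points outside
some neighbourhood of the diagonal -/
def SmallDiag : Prop :=
  ∀ A ∈ W, (∀ z ∈ A, ∃ x ∈ X, ∃ y ∈ X, x ≠ y ∧ z = ZFSet.pair x y) → ¬ Cnt W A →
    ∃ U ∈ W, OpenSq X τ U ∧ (∀ x ∈ X, ZFSet.pair x x ∈ U) ∧ ¬ Cnt W (A \ U)

/-- a metric on `X` that belongs to `W` (its values coded by their cuts in the nonnegative
rationals `m / (n + 1)`) induces the topology `τ` -/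
def Metrizable : Prop :=
  ∃ d : ZFSet.{0} → ZFSet.{0} → ℝ,
    (∀ x ∈ X, ∀ y ∈ X, d x y = 0 ↔ x = y) ∧ (∀ x ∈ X, ∀ y ∈ X, d x y = d y x) ∧
    (∀ x ∈ X, ∀ y ∈ X, ∀ z ∈ X, d x z ≤ d x y + d y z) ∧
    (∃ g ∈ W, ∀ x ∈ X, ∀ y ∈ X, ∀ m n : ℕ,
      ZFSet.pair (ZFSet.pair x y) (ZFSet.pair (num m) (num n)) ∈ g ↔ (m : ℝ) / (n + 1) < d x y) ∧
    (∀ U ∈ τ, ∀ x ∈ U, ∃ ε > 0, ∀ y ∈ X, d x y < ε → y ∈ U) ∧
    ∀ x ∈ X, ∀ ε > 0, ∃ U ∈ τ, x ∈ U ∧ ∀ y ∈ U, d x y < ε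

end

end Pool.Agent.MP_5aa9a8_gt.H44
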