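import Pool.Agent.MP_5aa9a8_gt.H44.Defs

/-! Names, forced equality and membership, formulas, satisfaction and forcing. -/

namespace Pool.Agent.MP_5aa9a8_gt.H44

universe u

/-- names -/
inductive Nm (P : Type) : Type 1
  | mk (ι : Type) (A : ι → Nm P) (c : ι → P) : Nm P

variable {P : Type}

namespace Nm

def I : Nm P → Type
  | mk ι _ _ => ι

def A : (x : Nm P) → x.I → Nm P
  | mk _ A _ => A

def c : (x : Nm P) → x.I → P
  | mk _ _ c => c

@[simp] lemma mk_I (ι : Type) (A : ι → Nm P) (c : ι → P) : (mk ι A c).I = ι := rfl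
@[simp] lemma mk_A (ι : Type) (A : ι → Nm P) (c : ι → P) (i : ι) : (mk ι A c).A i = A i := rfl
@[simp] lemma mk_c (ι : Type) (A : ι → Nm P) (c : ι → P) (i : ι) : (mk ι A c).c i = c i := rfl

lemma ind {Φ : Nm P → Prop} (h : ∀ x : Nm P, (∀ i, Φ (x.A i)) → Φ x) (x : Nm P) : Φ x := by
  induction x with
  | mk ι A c ih => exact h _ ih

end Nm

variable [Preorder P]

/-- `Φ` holds densely below `p` -/
def Dn (Φ : P → Prop) (p : P) : Prop := ∀ q, q ≤ p → ∃ r, r ≤ q ∧ Φ r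

lemma Dn.mono {Φ : P → Prop} {p q : P} (h : Dn Φ p) (hq : q ≤ p) : Dn Φ q :=
  fun r hr => h r (hr.trans hq)

lemma Dn.dn {Φ : P → Prop} {p : P} (h : Dn (Dn Φ) p) : Dn Φ p := by
  intro q hq
  obtain ⟨r, hr, h1⟩ := h q hq
  obtain ⟨s, hs, h2⟩ := h1 r le_rfl
  exact ⟨s, hs.trans hr, h2⟩

lemma Dn.ex {Φ : P → Prop} {p : P} (h : Dn Φ p) : ∃ r, r ≤ p ∧ Φ r := h p le_rfl

lemma Dn.imp {Φ Ψ : P → Prop} {p : P} (h : Dn Φ p)
    (hi : ∀ q, q ≤ p → Φ q → ∃ r, r ≤ q ∧ Ψ r) : Dn Ψ p := by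
  intro q hq
  obtain ⟨r, hr, h1⟩ := h q hq
  obtain ⟨s, hs, h2⟩ := hi r (hr.trans hq) h1
  exact ⟨s, hs.trans hr, h2⟩

lemma Dn.of_all {Φ : P → Prop} {p : P} (h : ∀ q, q ≤ p → Φ q) : Dn Φ p :=
  fun q hq => ⟨q, le_rfl, h q hq⟩

/-- forced equality -/
def FEq : Nm P → Nm P → P → Prop
  | .mk _ A c, .mk _ B d, p =>
    (∀ i q, q ≤ p → q ≤ c i → ∃ r, r ≤ q ∧ ∃ j, r ≤ d j ∧ FEq (A i) (B j) r) ∧
    (∀ j q, q ≤ p → q ≤ d j → ∃ r, r ≤ q ∧ ∃ i, r ≤ c i ∧ FEq (A i) (B j) r)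

lemma feq_def (x y : Nm P) (p : P) : FEq x y p ↔
    (∀ i q, q ≤ p → q ≤ x.c i → ∃ r, r ≤ q ∧ ∃ j, r ≤ y.c j ∧ FEq (x.A i) (y.A j) r) ∧
    (∀ j q, q ≤ p → q ≤ y.c j → ∃ r, r ≤ q ∧ ∃ i, r ≤ x.c i ∧ FEq (x.A i) (y.A j) r) := by
  cases x; cases y; rfl

/-- forced membership -/
def FMem (y x : Nm P) (p : P) : Prop := Dn (fun r => ∃ i, r ≤ x.c i ∧ FEq y (x.A i) r) p

lemma FEq.mono {x y : Nm P} {p q : P} (h : FEq x y p) (hq : q ≤ p) : FEq x y q := by
  rw [feq_def] at h ⊢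
  exact ⟨fun i r hr => h.1 i r (hr.trans hq), fun i r hr => h.2 i r (hr.trans hq)⟩

lemma FEq.of_dn {x y : Nm P} {p : P} (h : Dn (FEq x y) p) : FEq x y p := by
  rw [feq_def]
  constructor
  · intro i q hq hc
    obtain ⟨r, hr, h1⟩ := h q hq
    obtain ⟨s, hs, h2⟩ := ((feq_def _ _ _).1 h1).1 i r le_rfl (hr.trans hc)
    exact ⟨s, hs.trans hr, h2⟩
  · intro i q hq hc
    obtain ⟨r, hr, h1⟩ := h q hq
    obtain ⟨s, hs, h2⟩ := ((feq_def _ _ _).1 h1).2 i r le_rfl (hr.trans hc)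
    exact ⟨s, hs.trans hr, h2⟩

lemma FEq.refl (x : Nm P) (p : P) : FEq x x p := by
  induction x using Nm.ind generalizing p with
  | h x ih =>
    rw [feq_def]
    exact ⟨fun i q _ hc => ⟨q, le_rfl, i, hc, ih i q⟩, fun i q _ hc => ⟨q, le_rfl, i, hc, ih i q⟩⟩

lemma FEq.symm {x y : Nm P} {p : P} (h : FEq x y p) : FEq y x p := by
  induction x using Nm.ind generalizing y p with
  | h x ih =>
    rw [feq_def] at h ⊢
    constructor
    · intro j q hq hc
      obtain ⟨r, hr, i, h1, h2⟩ := h.2 j q hq hc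
      exact ⟨r, hr, i, h1, ih i h2⟩
    · intro i q hq hc
      obtain ⟨r, hr, j, h1, h2⟩ := h.1 i q hq hc
      exact ⟨r, hr, j, h1, ih i h2⟩

lemma FEq.trans {x y z : Nm P} {p : P} (h : FEq x y p) (h' : FEq y z p) : FEq x z p := by
  induction x using Nm.ind generalizing y z p with
  | h x ih =>
    rw [feq_def] at h h' ⊢
    constructor
    · intro i q hq hc
      obtain ⟨r, hr, j, h1, h2⟩ := h.1 i q hq hc
      obtain ⟨s, hs, k, h3, h4⟩ := h'.1 j r (hr.trans hq) h1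
      exact ⟨s, hs.trans hr, k, h3, ih i (h2.mono hs) h4⟩
    · intro k q hq hc
      obtain ⟨r, hr, j, h1, h2⟩ := h'.2 k q hq hc
      obtain ⟨s, hs, i, h3, h4⟩ := h.2 j r (hr.trans hq) h1
      exact ⟨s, hs.trans hr, i, h3, ih i h4 (h2.mono hs)⟩

lemma FMem.mono {x y : Nm P} {p q : P} (h : FMem x y p) (hq : q ≤ p) : FMem x y q :=
  Dn.mono h hq

lemma FMem.of_dn {x y : Nm P} {p : P} (h : Dn (FMem x y) p) : FMem x y p := Dn.dn h

lemma FMem.child {x : Nm P} {p : P} (i : x.I) (h : p ≤ x.c i) : FMem (x.A i) x p :=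
  Dn.of_all fun _ hq => ⟨i, hq.trans h, FEq.refl _ _⟩

lemma FMem.left {x x' y : Nm P} {p : P} (h : FMem x y p) (e : FEq x x' p) : FMem x' y p :=
  Dn.imp h fun q hq ⟨i, h1, h2⟩ => ⟨q, le_rfl, i, h1, (e.mono hq).symm.trans h2⟩

lemma FMem.right {x y y' : Nm P} {p : P} (h : FMem x y p) (e : FEq y y' p) : FMem x y' p := by
  refine Dn.imp h fun q hq ⟨i, h1, h2⟩ => ?_
  obtain ⟨r, hr, j, h3, h4⟩ := ((feq_def _ _ _).1 e).1 i q hq h1
  exact ⟨r, hr, j, h3, (h2.mono hr).trans h4⟩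

lemma feq_of_children {x y : Nm P} {p : P}
    (h1 : ∀ i q, q ≤ p → q ≤ x.c i → FMem (x.A i) y q)
    (h2 : ∀ j q, q ≤ p → q ≤ y.c j → FMem (y.A j) x q) : FEq x y p := by
  rw [feq_def]
  refine ⟨fun i q hq hc => (h1 i q hq hc).ex, fun j q hq hc => ?_⟩
  obtain ⟨r, hr, i, h3, h4⟩ := (h2 j q hq hc).ex
  exact ⟨r, hr, i, h3, h4.symm⟩

lemma feq_ext {x y : Nm P} {p : P}
    (h : ∀ (z : Nm P) q, q ≤ p → (FMem z x q ↔ FMem z y q)) : FEq x y p :=
  feq_of_children (fun i q hq hc => (h (x.A i) q hq).1 (FMem.child i hc))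
    (fun j q hq hc => (h (y.A j) q hq).2 (FMem.child j hc))

/-- the name built from a family of names and a set of admissible conditions -/
def cname {ι : Type} (A : ι → Nm P) (S : ι → P → Prop) : Nm P :=
  .mk {iq : ι × P // S iq.1 iq.2} (fun iq => A iq.1.1) (fun iq => iq.1.2)

lemma fmem_cname {ι : Type} (A : ι → Nm P) (S : ι → P → Prop) (w : Nm P) (p : P) :
    FMem w (cname A S) p ↔ Dn (fun r => ∃ i q, S i q ∧ r ≤ q ∧ FEq w (A i) r) p := by
  constructor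
  · intro h
    exact Dn.imp h fun r _ ⟨i, h1, h2⟩ => ⟨r, le_rfl, i.1.1, i.1.2, i.2, h1, h2⟩
  · intro h
    exact Dn.imp h fun r _ ⟨i, q, h1, h2, h3⟩ => ⟨r, le_rfl, ⟨(i, q), h1⟩, h2, h3⟩

inductive Fml : Type
  | mem (i j : ℕ) : Fml
  | eq (i j : ℕ) : Fml
  | bot : Fml
  | imp (φ ψ : Fml) : Fml
  | all (φ : Fml) : Fml

/-- push a value on a valuation -/
def cons {α : Type*} (x : α) (v : ℕ → α) : ℕ → α
  | 0 => x
  | n + 1 => v n

@[simp] lemma cons_zero {α : Type*} (x : α) (v : ℕ → α) : cons x v 0 = x := rfl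
@[simp] lemma cons_succ {α : Type*} (x : α) (v : ℕ → α) (n : ℕ) : cons x v (n + 1) = v n := rfl
@[simp] lemma cons_one {α : Type*} (x : α) (v : ℕ → α) : cons x v 1 = v 0 := rfl
@[simp] lemma cons_two {α : Type*} (x : α) (v : ℕ → α) : cons x v 2 = v 1 := rfl
@[simp] lemma cons_three {α : Type*} (x : α) (v : ℕ → α) : cons x v 3 = v 2 := rfl
@[simp] lemma cons_four {α : Type*} (x : α) (v : ℕ → α) : cons x v 4 = v 3 := rfl
@[simp] lemma cons_five {α : Type*} (x : α) (v : ℕ → α) : cons x v 5 = v 4 := rfl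

lemma comp_cons {α β : Type*} (f : α → β) (x : α) (v : ℕ → α) :
    f ∘ cons x v = cons (f x) (f ∘ v) := by
  funext n; cases n <;> rfl

/-- lift a renaming under a binder -/
def up (σ : ℕ → ℕ) : ℕ → ℕ := cons 0 (fun n => σ n + 1)

lemma cons_comp_up {α : Type*} (x : α) (v : ℕ → α) (σ : ℕ → ℕ) :
    cons x v ∘ up σ = cons x (v ∘ σ) := by
  funext n; cases n <;> rfl

namespace Fml

def not (φ : Fml) : Fml := imp φ bot
def and (φ ψ : Fml) : Fml := not (imp φ (not ψ))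
def or (φ ψ : Fml) : Fml := imp (not φ) ψ
def iff (φ ψ : Fml) : Fml := and (imp φ ψ) (imp ψ φ)
def ex (φ : Fml) : Fml := not (all (not φ))

def ren : Fml → (ℕ → ℕ) → Fml
  | mem i j, σ => mem (σ i) (σ j)
  | eq i j, σ => eq (σ i) (σ j)
  | bot, _ => bot
  | imp φ ψ, σ => imp (φ.ren σ) (ψ.ren σ)
  | all φ, σ => all (φ.ren (up σ))

def bound : Fml → ℕ
  | mem i j => max i j + 1
  | eq i j => max i j + 1
  | bot => 0
  | imp φ ψ => max φ.bound ψ.bound
  | all φ => φ.bound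

def enc : Fml → ℕ
  | mem i j => Nat.pair 0 (Nat.pair i j)
  | eq i j => Nat.pair 1 (Nat.pair i j)
  | bot => Nat.pair 2 0
  | imp φ ψ => Nat.pair 3 (Nat.pair φ.enc ψ.enc)
  | all φ => Nat.pair 4 φ.enc

lemma enc_inj : ∀ φ ψ : Fml, φ.enc = ψ.enc → φ = ψ := by
  intro φ
  induction φ with
  | mem i j => intro ψ; cases ψ <;> simp [enc, Nat.pair_eq_pair]
  | eq i j => intro ψ; cases ψ <;> simp [enc, Nat.pair_eq_pair]
  | bot => intro ψ; cases ψ <;> simp [enc, Nat.pair_eq_pair]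
  | imp a b iha ihb =>
    intro ψ; cases ψ <;> simp [enc, Nat.pair_eq_pair]
    exact fun h1 h2 => ⟨iha _ h1, ihb _ h2⟩
  | all a iha =>
    intro ψ; cases ψ <;> simp [enc, Nat.pair_eq_pair]
    exact iha _

instance : Countable Fml := ⟨⟨enc, enc_inj⟩⟩

end Fml

open Fml

/-- Tarski satisfaction -/
def Sat {M : Type u} (E : M → M → Prop) : Fml → (ℕ → M) → Prop
  | .mem i j, v => E (v i) (v j)
  | .eq i j, v => v i = v j
  | .bot, _ => False
  | .imp φ ψ, v => Sat E φ v → Sat E ψ v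
  | .all φ, v => ∀ x, Sat E φ (cons x v)

section sat

variable {M : Type u} {E : M → M → Prop} {v : ℕ → M} {φ ψ : Fml}

@[simp] lemma sat_mem {i j : ℕ} : Sat E (.mem i j) v ↔ E (v i) (v j) := Iff.rfl
@[simp] lemma sat_eq {i j : ℕ} : Sat E (.eq i j) v ↔ v i = v j := Iff.rfl
@[simp] lemma sat_bot : Sat E .bot v ↔ False := Iff.rfl
@[simp] lemma sat_imp : Sat E (.imp φ ψ) v ↔ (Sat E φ v → Sat E ψ v) := Iff.rfl
@[simp] lemma sat_all : Sat E (.all φ) v ↔ ∀ x, Sat E φ (cons x v) := Iff.rfl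
@[simp] lemma sat_not : Sat E φ.not v ↔ ¬ Sat E φ v := Iff.rfl
@[simp] lemma sat_and : Sat E (φ.and ψ) v ↔ Sat E φ v ∧ Sat E ψ v := by simp [Fml.and]
@[simp] lemma sat_or : Sat E (φ.or ψ) v ↔ Sat E φ v ∨ Sat E ψ v := by
  simp [Fml.or, or_iff_not_imp_left]
@[simp] lemma sat_iff : Sat E (φ.iff ψ) v ↔ (Sat E φ v ↔ Sat E ψ v) := by
  simp [Fml.iff, iff_def]
@[simp] lemma sat_ex : Sat E φ.ex v ↔ ∃ x, Sat E φ (cons x v) := by simp [Fml.ex]

lemma sat_ren (σ : ℕ → ℕ) : Sat E (φ.ren σ) v ↔ Sat E φ (v ∘ σ) := by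
  induction φ generalizing σ v with
  | mem i j => rfl
  | eq i j => rfl
  | bot => rfl
  | imp a b iha ihb => simp [Fml.ren, iha, ihb]
  | all a iha => simp [Fml.ren, iha, cons_comp_up]

end sat

/-- the forcing relation -/
def Frc : Fml → (ℕ → Nm P) → P → Prop
  | .mem i j, v, p => FMem (v i) (v j) p
  | .eq i j, v, p => FEq (v i) (v j) p
  | .bot, _, _ => False
  | .imp φ ψ, v, p => ∀ q, q ≤ p → Frc φ v q → Frc ψ v q
  | .all φ, v, p => ∀ x, Frc φ (cons x v) p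

section frc

variable {v w : ℕ → Nm P} {φ ψ : Fml} {p q : P}

@[simp] lemma frc_mem {i j : ℕ} : Frc (.mem i j) v p ↔ FMem (v i) (v j) p := Iff.rfl
@[simp] lemma frc_eq {i j : ℕ} : Frc (.eq i j) v p ↔ FEq (v i) (v j) p := Iff.rfl
@[simp] lemma frc_bot : Frc .bot v p ↔ False := Iff.rfl
@[simp] lemma frc_imp : Frc (.imp φ ψ) v p ↔ ∀ q, q ≤ p → Frc φ v q → Frc ψ v q := Iff.rfl
@[simp] lemma frc_all : Frc (.all φ) v p ↔ ∀ x, Frc φ (cons x v) p := Iff.rfl
@[simp] lemma frc_not : Frc φ.not v p ↔ ∀ q, q ≤ p → ¬ Frc φ v q := Iff.rfl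

lemma Frc.mono (h : Frc φ v p) (hq : q ≤ p) : Frc φ v q := by
  induction φ generalizing v with
  | mem i j => exact FMem.mono h hq
  | eq i j => exact FEq.mono h hq
  | bot => exact h
  | imp a b _ _ => exact fun r hr => h r (hr.trans hq)
  | all a iha => exact fun x => iha (h x)

lemma Frc.of_dn (h : Dn (Frc φ v) p) : Frc φ v p := by
  induction φ generalizing v p with
  | mem i j => exact FMem.of_dn h
  | eq i j => exact FEq.of_dn h
  | bot => obtain ⟨_, _, h⟩ := h.ex; exact h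
  | imp a b _ ihb =>
    intro q hq ha
    exact ihb ((h.mono hq).imp fun r hr h1 => ⟨r, le_rfl, h1 r le_rfl (ha.mono hr)⟩)
  | all a iha => exact fun x => iha (h.imp fun r _ h1 => ⟨r, le_rfl, h1 x⟩)

lemma Frc.by_contra (h : ∀ q, q ≤ p → ¬ Frc φ.not v q) : Frc φ v p := by
  apply Frc.of_dn
  intro q hq
  have := h q hq
  simp only [frc_not, not_forall, not_not, exists_prop] at this
  exact this

lemma exists_not (h : ¬ Frc φ v p) : ∃ q, q ≤ p ∧ Frc φ.not v q := by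
  by_contra hc
  exact h (Frc.by_contra fun q hq h1 => hc ⟨q, hq, h1⟩)

@[simp] lemma frc_and : Frc (φ.and ψ) v p ↔ Frc φ v p ∧ Frc ψ v p := by
  constructor
  · intro h
    constructor
    · exact Frc.by_contra fun q hq h1 => h q hq fun r hr h2 => absurd h2 (h1 r hr)
    · exact Frc.by_contra fun q hq h1 => h q hq fun r hr _ => Frc.mono h1 hr
  · rintro ⟨h1, h2⟩ q hq h
    exact h q le_rfl (h1.mono hq) q le_rfl (h2.mono hq)

@[simp] lemma frc_or : Frc (φ.or ψ) v p ↔ Dn (fun r => Frc φ v r ∨ Frc ψ v r) p := by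
  constructor
  · intro h q hq
    by_cases h1 : Frc φ v q
    · exact ⟨q, le_rfl, Or.inl h1⟩
    · obtain ⟨r, hr, h2⟩ := exists_not h1
      exact ⟨r, hr, Or.inr (h r (hr.trans hq) h2)⟩
  · intro h q hq h1
    refine Frc.of_dn ((h.mono hq).imp fun r hr h2 => ⟨r, le_rfl, ?_⟩)
    exact h2.resolve_left (h1 r hr)

@[simp] lemma frc_iff : Frc (φ.iff ψ) v p ↔ ∀ q, q ≤ p → (Frc φ v q ↔ Frc ψ v q) := by
  simp only [Fml.iff, frc_and, frc_imp]
  exact ⟨fun h q hq => ⟨h.1 q hq, h.2 q hq⟩,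
    fun h => ⟨fun q hq => (h q hq).1, fun q hq => (h q hq).2⟩⟩

@[simp] lemma frc_ex : Frc φ.ex v p ↔ Dn (fun r => ∃ x, Frc φ (cons x v) r) p := by
  simp only [Fml.ex, frc_not, frc_all, not_forall, not_not, exists_prop]
  constructor
  · intro h q hq
    obtain ⟨x, r, hr, h1⟩ := h q hq
    exact ⟨r, hr, x, h1⟩
  · intro h q hq
    obtain ⟨r, hr, x, h1⟩ := h q hq
    exact ⟨x, r, hr, h1⟩

lemma frc_ren (σ : ℕ → ℕ) : Frc (φ.ren σ) v p ↔ Frc φ (v ∘ σ) p := by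
  induction φ generalizing σ v p with
  | mem i j => rfl
  | eq i j => rfl
  | bot => rfl
  | imp a b iha ihb => simp [Fml.ren, iha, ihb]
  | all a iha => simp [Fml.ren, iha, cons_comp_up]

lemma frc_congr (h : ∀ i, i < φ.bound → FEq (v i) (w i) p) : Frc φ v p ↔ Frc φ w p := by
  induction φ generalizing v w p with
  | mem i j =>
    have h1 := h i (by simp only [bound]; omega)
    have h2 := h j (by simp only [bound]; omega)
    exact ⟨fun h => (FMem.left h h1).right h2, fun h => (FMem.left h h1.symm).right h2.symm⟩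
  | eq i j =>
    have h1 := h i (by simp only [bound]; omega)
    have h2 := h j (by simp only [bound]; omega)
    exact ⟨fun h => (h1.symm.trans h).trans h2, fun h => (h1.trans h).trans h2.symm⟩
  | bot => rfl
  | imp a b iha ihb =>
    refine forall_congr' fun q => forall_congr' fun hq => imp_congr (iha fun i hi => ?_)
      (ihb fun i hi => ?_)
    · exact (h i (by simp only [bound]; omega)).mono hq
    · exact (h i (by simp only [bound]; omega)).mono hq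
  | all a iha =>
    refine forall_congr' fun x => iha fun i hi => ?_
    cases i with
    | zero => exact FEq.refl _ _
    | succ i => exact h i (by simp only [bound]; omega)

lemma Frc.congr0 {x y : Nm P} (h : Frc φ (cons x v) p) (e : FEq x y p) : Frc φ (cons y v) p := by
  refine (frc_congr fun i _ => ?_).1 h
  cases i with
  | zero => exact e
  | succ i => exact FEq.refl _ _

end frc

end Pool.Agent.MP_5aa9a8_gt.H44
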