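import Pool.Agent.MP_5aa9a8_gt.H44.Props

/-! The properties of the generic space as forced formulas. -/

namespace Pool.Agent.MP_5aa9a8_gt.H44

open Fml

set_option linter.unusedSectionVars false
set_option linter.unusedVariables false

def subF (τ X : ℕ) : Fml := all (imp (mem 0 (τ + 1)) (all (imp (mem 0 1) (mem 0 (X + 2)))))

def interF (τ : ℕ) : Fml :=
  all (all (imp (mem 1 (τ + 2)) (imp (mem 0 (τ + 2)) (ex (and (mem 0 (τ + 3))
    (all (iff (mem 0 1) (and (mem 0 3) (mem 0 2)))))))))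

def unionF (τ : ℕ) : Fml :=
  all (imp (all (imp (mem 0 1) (mem 0 (τ + 2)))) (ex (and (mem 0 (τ + 2))
    (all (iff (mem 0 1) (ex (and (mem 0 3) (mem 1 0))))))))

def hausF (X τ : ℕ) : Fml :=
  all (all (imp (mem 1 (X + 2)) (imp (mem 0 (X + 2)) (imp (not (eq 1 0))
    (ex (ex (and (mem 1 (τ + 4)) (and (mem 0 (τ + 4)) (and (mem 3 1) (and (mem 2 0)
      (all (imp (mem 0 2) (not (mem 0 1))))))))))))))

def cptF (X τ w : ℕ) : Fml :=
  all (imp (all (imp (mem 0 1) (mem 0 (τ + 2))))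
    (imp (all (imp (mem 0 (X + 2)) (ex (and (mem 0 2) (mem 1 0)))))
      (ex (ex (and (mem 1 (w + 3)) (and (funF 0) (all (imp (mem 0 (X + 4))
        (ex (ex (and (mem 1 4) (and (mem 0 5) (and (appF 3 1 0) (mem 2 0))))))))))))))

def offF (A X : ℕ) : Fml :=
  all (imp (mem 0 (A + 1)) (ex (ex (and (mem 1 (X + 3)) (and (mem 0 (X + 3))
    (and (not (eq 1 0)) (pairF 2 1 0)))))))

def opF (U X τ : ℕ) : Fml :=
  and (all (imp (mem 0 (U + 1)) (ex (ex (and (mem 1 (X + 3)) (and (mem 0 (X + 3)) (pairF 2 1 0)))))))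
    (all (all (imp (appF (U + 2) 1 0) (ex (ex (and (mem 1 (τ + 4)) (and (mem 0 (τ + 4))
      (and (mem 3 1) (and (mem 2 0)
        (all (all (imp (mem 1 3) (imp (mem 0 2) (appF (U + 6) 1 0))))))))))))))

def sdF (X τ w : ℕ) : Fml :=
  all (imp (offF 0 (X + 1)) (imp (not (cntF 0 (w + 1)))
    (ex (ex (and (all (iff (mem 0 1) (and (mem 0 3) (not (mem 0 2)))))
      (and (opF 1 (X + 3) (τ + 3)) (and (all (imp (mem 0 (X + 4)) (appF 2 0 0)))
        (not (cntF 0 (w + 3))))))))))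

def farF (g y z o n : ℕ) : Fml :=
  ex (ex (and (pairF 1 (y + 2) (z + 2)) (and (pairF 0 (o + 2) (n + 2)) (appF (g + 2) 1 0))))

def ndF (X τ w : ℕ) : Fml :=
  all (all (not (and
    (all (imp (mem 0 (w + 3)) (all (imp (mem 0 (X + 4)) (ex (and (mem 0 (τ + 5)) (and (mem 1 0)
      (all (all (imp (mem 1 2) (imp (mem 0 2) (not (farF 6 1 0 5 4)))))))))))))
    (all (all (imp (mem 1 (X + 4)) (imp (mem 0 (X + 4)) (imp (not (eq 1 0))
      (ex (and (mem 0 (w + 5)) (farF 4 2 1 3 0)))))))))))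

/-- the whole statement -/
def mainF : Fml :=
  ex (ex (ex (and (omF 0) (and (subF 1 2) (and (mem 2 1) (and (interF 1) (and (unionF 1)
    (and (hausF 2 1) (and (cptF 2 1 0) (and (sdF 2 1 0) (ndF 2 1 0)))))))))))

lemma dn_ex2 {P : Type} [Preorder P] {α β : Type*} {Φ : α → β → P → Prop} {p : P} :
    Dn (fun r => ∃ x, Dn (fun s => ∃ y, Φ x y s) r) p → Dn (fun r => ∃ x y, Φ x y r) p :=
  fun h => h.imp fun r _ ⟨x, h1⟩ => by
    obtain ⟨s, hs, y, h2⟩ := h1.ex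
    exact ⟨s, hs, x, y, h2⟩

variable {Λ : Type} [LinearOrder Λ] [WellFoundedLT Λ] {L : Lab Λ} {v : ℕ → Nm (Cond L)}
  {p : Cond L} {X τ w : ℕ}

@[simp] lemma frc_farF {g y z o n : ℕ} :
    Frc (farF g y z o n) v p ↔ FApp (v g) (pr (v y) (v z)) (pr (v o) (v n)) p := by
  simp only [farF, frc_ex, frc_and, frc_pairF, frc_appF, cons_zero, cons_succ]
  exact ⟨fun h => FMem.of_dn ((dn_ex2 h).imp fun r _ ⟨a, b, h1, h2, h3⟩ =>
      ⟨r, le_rfl, h3.congr (FEq.refl _ _) h1 h2⟩),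
    fun h => Dn.of_all fun q hq => ⟨_, Dn.of_all fun r hr =>
      ⟨_, FEq.refl _ _, FEq.refl _ _, h.mono (hr.trans hq)⟩⟩⟩

lemma frc_subF (hX : v X = XN L) (hτ : v τ = TN L) : Frc (subF τ X) v p := by
  simp only [subF, frc_all, frc_imp, frc_mem, cons_zero, cons_succ, hX, hτ, fmem_XN, fmem_TN]
  exact fun U q _ hU z r hr hz => (hU z r hr hz).1

lemma frc_univ (hX : v X = XN L) (hτ : v τ = TN L) : Frc (mem X τ) v p := by
  simp only [frc_mem, hX, hτ, fmem_TN]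
  exact fun z r _ hz => ⟨fmem_XN.1 hz, Dn.of_all fun s _ =>
    ⟨∅, Set.finite_empty, fun y t _ hy _ => fmem_XN.2 hy⟩⟩

lemma frc_interF (hτ : v τ = TN L) : Frc (interF τ) v p := by
  simp only [interF, frc_all, frc_imp, frc_ex, frc_and, frc_iff, frc_mem, cons_zero, cons_succ, hτ,
    fmem_TN]
  intro U V q _ hU r hr hV
  have e := compr_mem (covered_of_mem (φ := and (mem 0 1) (mem 0 2)) (v := cons U fun _ => V) U
    fun z q hz => (frc_and.1 hz).1)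
  simp only [frc_and, frc_mem, cons_zero, cons_succ] at e
  refine Dn.of_all fun s hs => ⟨_, fun z t ht hz => ?_, fun z t _ => e z t⟩
  obtain ⟨a1, a2⟩ := (e z t).1 hz
  refine ⟨(hV z t (ht.trans hs) a2).1, (hU z t (ht.trans (hs.trans hr)) a1).2.imp
    fun u hu ⟨a, ha, h1⟩ => ?_⟩
  obtain ⟨u', hu', b, hb, h2⟩ := (hV z t (ht.trans hs) a2).2 u hu
  exact ⟨u', hu', a ∪ b, ha.union hb, fun y k hk hy h3 => (e y k).2
    ⟨h1 y k (hk.trans hu') hy fun η hη => h3 η (Or.inl hη), h2 y k hk hy fun η hη => h3 η (Or.inr hη)⟩⟩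

lemma frc_unionF (hτ : v τ = TN L) : Frc (unionF τ) v p := by
  simp only [unionF, frc_all, frc_imp, frc_ex, frc_and, frc_iff, frc_mem, cons_zero, cons_succ, hτ,
    fmem_TN]
  intro C q _ hC
  have e := compr_mem (φ := ex (and (mem 0 2) (mem 1 0))) (v := fun _ => C)
    (A := fun i : Σ i : C.I, (C.A i).I => (C.A i.1).A i.2) (fun z r h => by
      obtain ⟨q, hq, y, h⟩ := (frc_ex.1 h).ex
      simp only [frc_and, frc_mem, cons_zero, cons_succ] at h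
      obtain ⟨r, hr, i, _, h1⟩ := h.1.ex
      obtain ⟨s, hs, j, _, h2⟩ := ((h.2.mono hr).right h1).ex
      exact ⟨s, hs.trans (hr.trans hq), ⟨i, j⟩, h2⟩)
  simp only [frc_ex, frc_and, frc_mem, cons_zero, cons_succ] at e
  refine Dn.of_all fun s hs => ⟨_, fun z t ht hz => ⟨reg_inX.dn (((e z t).1 hz).imp
    fun u hu ⟨U, a1, a2⟩ => ⟨u, le_rfl, (hC U u (hu.trans (ht.trans hs)) a1 z u le_rfl a2).1⟩),
    ((e z t).1 hz).imp fun u hu ⟨U, a1, a2⟩ => ?_⟩, fun z t _ => e z t⟩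
  obtain ⟨u', hu', a, ha, h1⟩ := (hC U u (hu.trans (ht.trans hs)) a1 z u le_rfl a2).2.ex
  exact ⟨u', hu', a, ha, fun y k hk hy h3 => (e y k).2 (Dn.of_all fun j hj =>
    ⟨U, a1.mono (hj.trans (hk.trans hu')), (h1 y k hk hy h3).mono hj⟩)⟩

lemma frc_hausF (hX : v X = XN L) (hτ : v τ = TN L) : Frc (hausF X τ) v p := by
  simp only [hausF, frc_all, frc_imp, frc_ex, frc_and, frc_not, frc_mem, frc_eq, cons_zero,
    cons_succ, hX, hτ, fmem_XN, fmem_TN]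
  intro x y q _ hx r hr hy s hs hne t ht
  have hx' := hx.mono (ht.trans (hs.trans hr))
  have hy' := hy.mono (ht.trans hs)
  obtain ⟨u, hu, η, h⟩ := exists_sp hx' hy' (hne t ht)
  have dis : ∀ (b : Prop) (k : Cond L) z q, q ≤ k → FMem z (bas η b) q → ∀ r, r ≤ q →
      ¬ FMem z (bas η ¬ b) r := fun b k z q _ h1 r hr h2 =>
    iff_not_self (((fmem_bas.1 h1).2.iff hr).symm.trans ((fmem_bas.1 h2).2.iff le_rfl))
  rcases h with h | h
  · exact ⟨u, hu, bas η True, Dn.of_all fun k hk => ⟨bas η ¬ True, inT_bas _ _ _, inT_bas _ _ _,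
      fmem_bas.2 ⟨hx'.mono (hk.trans hu), Or.inl ⟨trivial, h.1.mono hk⟩⟩,
      fmem_bas.2 ⟨hy'.mono (hk.trans hu), Or.inr ⟨not_not.2 trivial, h.2.mono hk⟩⟩, dis _ k⟩⟩
  · exact ⟨u, hu, bas η False, Dn.of_all fun k hk => ⟨bas η ¬ False, inT_bas _ _ _, inT_bas _ _ _,
      fmem_bas.2 ⟨hx'.mono (hk.trans hu), Or.inr ⟨id, h.2.mono hk⟩⟩,
      fmem_bas.2 ⟨hy'.mono (hk.trans hu), Or.inl ⟨id, h.1.mono hk⟩⟩, dis _ k⟩⟩

lemma frc_cptF (hX : v X = XN L) (hτ : v τ = TN L) (hw : v w = om) : Frc (cptF X τ w) v p := by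
  simp only [cptF, frc_all, frc_imp, frc_ex, frc_and, frc_funF, frc_appF, frc_mem, cons_zero,
    cons_succ, hX, hτ, hw, fmem_XN, fmem_TN]
  intro C q _ h1 r hr h2
  refine (compact (fun U s hs => h1 U s (hs.trans hr)) h2).imp fun s hs ⟨k, z, h3⟩ =>
    ⟨s, le_rfl, nn k, Dn.of_all fun t ht => ⟨seqN z, oc_mem_all _ _,
      fun _ _ _ _ _ => seqN_fun, fun x u hu hx => (h3 x u (hu.trans ht) hx).imp
        fun j _ ⟨m, a1, a2, a3⟩ => ⟨j, le_rfl, nn m, Dn.of_all fun i hi =>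
          ⟨z m, oc_mem_oc (r := nlt) a1 _, a2.mono hi, seqN_app _ _ _, a3.mono hi⟩⟩⟩⟩

lemma frc_opF {U : ℕ} {η : Λ} (hX : v X = XN L) (hτ : v τ = TN L) (hU : v U = UN η) :
    Frc (opF U X τ) v p := by
  simp only [opF, frc_all, frc_imp, frc_ex, frc_and, frc_pairF, frc_appF, frc_mem, cons_zero,
    cons_succ, hX, hτ, hU, fmem_XN, fmem_TN]
  refine ⟨fun z q _ hz => (fmem_UN hz).imp fun r _ ⟨x, y, a1, a2, _, a3⟩ => ⟨r, le_rfl, x,
    Dn.of_all fun s hs => ⟨y, a1.mono hs, a2.mono hs, a3.mono hs⟩⟩,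
    fun x y q _ h => (fmem_UN h).imp fun r _ ⟨x', y', a1, a2, a3, a4⟩ => ?_⟩
  obtain ⟨e1, e2⟩ := pr_inj a4
  have a5 := a3.congr e1.symm e2.symm
  obtain ⟨s, hs, h1⟩ := exists_dec x (Set.finite_singleton η) r
  have h2 : Dec x (fun _ => FMem (lb η) x s) η s := h1 η rfl
  refine ⟨s, hs, bas η (FMem (lb η) x s), Dn.of_all fun t ht => ⟨bas η (FMem (lb η) x s),
    inT_bas _ _ _, inT_bas _ _ _,
    fmem_bas.2 ⟨(reg_inX.congr a1 e1.symm).mono (ht.trans hs), h2.mono ht⟩,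
    fmem_bas.2 ⟨(reg_inX.congr a2 e2.symm).mono (ht.trans hs), dec_of_iff fun u hu =>
      (a5 η rfl u (hu.trans (ht.trans hs))).symm.trans (h2.iff (hu.trans ht))⟩,
    fun a b u _ ha k hk hb => fapp_UN ((fmem_bas.1 ha).1.mono hk) (fmem_bas.1 hb).1 ?_⟩⟩
  rintro _ rfl j hj
  exact ((fmem_bas.1 ha).2.iff (hj.trans hk)).trans ((fmem_bas.1 hb).2.iff hj).symm

lemma frc_sdF (hX : v X = XN L) (hτ : v τ = TN L) (hw : v w = om) : Frc (sdF X τ w) v p := by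
  intro A q _ h1 r hr h2
  simp only [offF, frc_all, frc_imp, frc_ex, frc_and, frc_not, frc_pairF, frc_mem, frc_eq,
    cons_zero, cons_succ, hX, fmem_XN] at h1
  have h3 : ∀ s, s ≤ r → ∀ f, ¬ FEnum f A s := fun s hs f hf => h2 s hs
    ((frc_cntF (v := cons A v) (w := w + 1) hw).2 (Dn.of_all fun t ht => ⟨f,
      fun n x y u hu => hf.1 n x y u (hu.trans ht), fun z u hu => hf.2 z u (hu.trans ht)⟩))
  rw [frc_ex]
  refine (small_diag (fun z s hs hz => dn_ex2 (h1 z s (hs.trans hr) hz)) h3).imp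
    fun s hs ⟨η, h4⟩ => ⟨s, le_rfl, UN η, frc_ex.2 (Dn.of_all fun t ht => ⟨difN A (UN η), ?_⟩)⟩
  refine frc_and.2 ⟨?_, frc_and.2 ⟨frc_opF hX hτ rfl, frc_and.2 ⟨?_, fun u hu h5 => ?_⟩⟩⟩
  · simp only [frc_all, frc_iff, frc_and, frc_not, frc_mem, cons_zero, cons_succ]
    exact fun z u _ => fmem_difN
  · simp only [frc_all, frc_imp, frc_appF, frc_mem, cons_zero, cons_succ, hX, fmem_XN]
    exact fun x u _ hx => fapp_UN hx hx fun _ _ _ _ => Iff.rfl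
  · obtain ⟨k, hk, f, hf⟩ := ((frc_cntF (v := cons (difN A (UN η)) (cons (UN η) (cons A v)))
      (w := w + 3) hw).1 h5).ex
    exact h4 k (hk.trans (hu.trans ht)) f hf

lemma frc_ndF (hX : v X = XN L) (hτ : v τ = TN L) (hw : v w = om) : Frc (ndF X τ w) v p := by
  simp only [ndF, frc_all, frc_imp, frc_ex, frc_and, frc_not, frc_farF, frc_mem, frc_eq, cons_zero,
    cons_succ, hX, hτ, hw, fmem_XN, fmem_TN]
  rintro g o q _ ⟨h1, h2⟩
  refine no_metric (far := fun n y z r => FApp g (pr y z) (pr o (nn n)) r)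
    (fun n y z q r h hr => h.mono hr) (p := q)
    (fun n x r hr hx => (h1 (nn n) r hr (oc_mem_all _ _) x r le_rfl hx).imp
      fun s _ ⟨V, a1, a2, a3⟩ => ⟨s, le_rfl, V, a1, a2, fun y z t ht hy hz =>
        a3 y z t ht hy t le_rfl hz t le_rfl⟩)
    fun x y r hr hx hy hne => (h2 x y r hr hx r le_rfl hy r le_rfl hne).imp
      fun s _ ⟨n, a1, a2⟩ => ?_
  obtain ⟨t, ht, m, e⟩ := (fmem_ocAll.1 a1).ex
  exact ⟨t, ht, m, (a2.mono ht).congr (FEq.refl _ _) (FEq.refl _ _) (pr_congr (FEq.refl _ _) e)⟩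

theorem frc_mainF : Frc mainF v p := by
  simp only [mainF, frc_ex, frc_and]
  exact Dn.of_all fun _ _ => ⟨XN L, Dn.of_all fun _ _ => ⟨TN L, Dn.of_all fun _ _ => ⟨om,
    frc_omF rfl, frc_subF rfl rfl, frc_univ rfl rfl, frc_interF rfl, frc_unionF rfl,
    frc_hausF rfl rfl, frc_cptF rfl rfl rfl, frc_sdF rfl rfl rfl, frc_ndF rfl rfl rfl⟩⟩⟩

end Pool.Agent.MP_5aa9a8_gt.H44
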