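import Mathlib

/-! The index set: the ordinals below the successor of the continuum, with a coding of the
countable subsets. -/

namespace Pool.Agent.MP_5aa9a8_gt.H44

open Set Cardinal

/-- a coding of countable sets with many closure points, and the first uncountable point -/
structure Lab (Λ : Type) [LinearOrder Λ] where
  c : Set Λ → Λ
  inj : ∀ A B : Set Λ, A.Countable → B.Countable → c A = c B → A = B
  bd : ∀ A : Set Λ, A.Countable → ∃ b, ∀ a ∈ A, a < b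
  cp : ∀ (g : Λ → Λ) (z : Λ), ∃ N, z < N ∧ (∀ v, v < N → g v < N) ∧
    ∀ A : Set Λ, A.Countable → (∀ a ∈ A, a < N) → c A < N
  w1 : Λ
  unc : ¬ (Iio w1).Countable
  ctb : ∀ a, a < w1 → (Iio a).Countable

lemma mk_cnt_le {Λ : Type} (S : Set Λ) :
    #{A : Set Λ // A.Countable ∧ A ⊆ S} ≤ (#S + 1) ^ ℵ₀ := by
  have h : ∀ A : {A : Set Λ // A.Countable ∧ A ⊆ S}, ∃ f : ℕ → Option S,
      ∀ a, a ∈ A.1 ↔ ∃ n, (f n).map Subtype.val = some a := by
    rintro ⟨A, h1, h2⟩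
    rcases A.eq_empty_or_nonempty with rfl | hne
    · exact ⟨fun _ => none, by simp⟩
    · obtain ⟨f, hf⟩ := h1.exists_eq_range hne
      refine ⟨fun n => some ⟨f n, h2 (hf ▸ mem_range_self n)⟩, fun a => ?_⟩
      simp [hf]
  choose F hF using h
  have hi : Function.Injective F := fun A B e =>
    Subtype.ext (Set.ext fun a => by rw [hF, hF, e])
  have := mk_le_of_injective hi
  simpa [mk_option] using this

theorem exists_lab : ∃ (Λ : Type) (_ : LinearOrder Λ) (_ : WellFoundedLT Λ), Nonempty (Lab Λ) := by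
  classical
  let lam : Cardinal.{0} := Order.succ 𝔠
  have hreg : lam.IsRegular := isRegular_succ aleph0_le_continuum
  let Λ := lam.ord.ToType
  have hΛ : #Λ = lam := mk_ord_toType _
  have hio : ∀ a : Λ, #(Iio a) ≤ 𝔠 := fun a => Order.lt_succ_iff.1 (mk_Iio_toType_ord_lt a)
  have hic : ∀ a : Λ, #(Iic a) ≤ 𝔠 := fun a => by
    rw [← Iio_insert]
    exact mk_insert_le.trans (add_le_of_le aleph0_le_continuum (hio a)
      (one_le_aleph0.trans aleph0_le_continuum))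
  have hb : ∀ {ι : Type} (f : ι → Λ), #ι ≤ 𝔠 → ∃ b, ∀ i, f i < b := by
    intro ι f hι
    by_contra hc
    push Not at hc
    have h1 : (univ : Set Λ) ⊆ ⋃ i, Iic (f i) := fun b _ => mem_iUnion.2 (hc b)
    have h2 := (mk_le_mk_of_subset h1).trans (mk_iUnion_le_sum_mk)
    have h3 : (sum fun i => #(Iic (f i))) ≤ sum fun _ : ι => 𝔠 := sum_le_sum _ _ fun i => hic _
    rw [sum_const', mk_univ, hΛ] at *
    exact absurd ((h2.trans h3).trans (mul_le_of_le aleph0_le_continuum hι le_rfl))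
      (not_le.2 (Order.lt_succ _))
  have hbc : ∀ A : Set Λ, A.Countable → ∃ b, ∀ a ∈ A, a < b := fun A hA => by
    obtain ⟨b, h⟩ := hb (fun a : A => a.1) ((le_aleph0_iff_set_countable.2 hA).trans
      aleph0_le_continuum)
    exact ⟨b, fun a ha => h ⟨a, ha⟩⟩
  have hsm : ∀ a : Λ, #{A : Set Λ // A.Countable ∧ A ⊆ Iic a} ≤ 𝔠 := fun a =>
    (mk_cnt_le _).trans ((power_le_power_right (add_le_of_le aleph0_le_continuum (hic a)
      (one_le_aleph0.trans aleph0_le_continuum))).trans continuum_power_aleph0.le)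
  obtain ⟨c0⟩ : Nonempty ({A : Set Λ // A.Countable} ↪ Λ) := by
    rw [← le_def]
    choose b hb' using hbc
    have hi : Function.Injective (fun A : {A : Set Λ // A.Countable} =>
        (⟨b A.1 A.2, A.1, A.2, fun a ha => (hb' _ _ a ha).le⟩ :
          Σ a : Λ, {A : Set Λ // A.Countable ∧ A ⊆ Iic a})) := fun A B e =>
      Subtype.ext (congrArg (fun x : Σ a : Λ, {A : Set Λ // A.Countable ∧ A ⊆ Iic a} => x.2.1) e)
    refine (mk_le_of_injective hi).trans ?_
    rw [mk_sigma]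
    refine (sum_le_sum _ (fun _ => 𝔠) hsm).trans ?_
    rw [sum_const', hΛ]
    exact mul_le_of_le hreg.aleph0_le le_rfl (Order.le_succ _)
  have hex : ∃ a : Λ, ¬ (Iio a).Countable := by
    obtain ⟨f⟩ : Nonempty (ℝ ↪ Λ) := by
      rw [← le_def, hΛ, mk_real]; exact Order.le_succ _
    obtain ⟨b, h⟩ := hb f mk_real.le
    refine ⟨b, fun hc => ?_⟩
    have : (univ : Set ℝ).Countable :=
      (hc.preimage_of_injOn (f := f) f.injective.injOn).mono fun x _ => h x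
    exact not_countable_univ this
  obtain ⟨w1, hw1, hmin⟩ := wellFounded_lt.has_min {a : Λ | ¬ (Iio a).Countable} hex
  have hct : ∀ a, a < w1 → (Iio a).Countable := fun a ha => by
    by_contra h
    exact hmin a h ha
  obtain ⟨z0⟩ : Nonempty Λ := ⟨w1⟩
  let c : Set Λ → Λ := fun A => if h : A.Countable then c0 ⟨A, h⟩ else z0
  refine ⟨Λ, inferInstance, inferInstance, ⟨c, fun A B hA hB e => ?_, hbc, fun g z => ?_, w1, hw1,
    hct⟩⟩
  · simp only [c, hA, hB, dif_pos] at e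
    exact congrArg Subtype.val (c0.injective e)
  have hG : ∀ v : Λ, ∃ b, v < b ∧ (∀ u, u ≤ v → g u < b) ∧
      ∀ A : Set Λ, A.Countable → A ⊆ Iic v → c A < b := fun v => by
    obtain ⟨b1, h1⟩ := hb (fun u : Iic v => g u.1) (hic v)
    obtain ⟨b2, h2⟩ := hb (fun A : {A : Set Λ // A.Countable ∧ A ⊆ Iic v} => c A.1) (hsm v)
    obtain ⟨b3, h3⟩ := hbc {v} (countable_singleton v)
    exact ⟨max b1 (max b2 b3), lt_max_of_lt_right (lt_max_of_lt_right (h3 v rfl)),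
      fun u hu => lt_max_of_lt_left (h1 ⟨u, hu⟩),
      fun A hA hs => lt_max_of_lt_right (lt_max_of_lt_left (h2 ⟨A, hA, hs⟩))⟩
  choose G hG1 hG2 hG3 using hG
  have hstep : ∀ (ξ : Λ) (f : ∀ η, η < ξ → Λ), ∃ b, z < b ∧ ∀ η h, G (f η h) < b := fun ξ f => by
    obtain ⟨b1, h1⟩ := hb (fun η : Iio ξ => G (f η.1 η.2)) (hio ξ)
    exact ⟨max (G z) b1, lt_max_of_lt_left (hG1 z), fun η h => lt_max_of_lt_right (h1 ⟨η, h⟩)⟩
  choose T hT1 hT2 using hstep
  let S : Λ → Λ := wellFounded_lt.fix T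
  have hS : ∀ ξ, S ξ = T ξ fun η _ => S η := fun ξ => WellFounded.fix_eq _ _ _
  have hS2 : ∀ η ξ, η < ξ → G (S η) < S ξ := fun η ξ h => by
    rw [hS ξ]; exact hT2 ξ (fun η _ => S η) η h
  obtain ⟨N, hN, hNm⟩ := wellFounded_lt.has_min {b : Λ | ∀ ξ, ξ < w1 → S ξ < b} (by
    obtain ⟨b, h⟩ := hb (fun ξ : Iio w1 => S ξ.1) (hio w1)
    exact ⟨b, fun ξ hξ => h ⟨ξ, hξ⟩⟩)
  have hlt : ∀ v, v < N → ∃ ξ, ξ < w1 ∧ v ≤ S ξ := fun v hv => by
    by_contra hc
    push Not at hc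
    exact hNm v hc hv
  have hub : ∀ B : Set Λ, B.Countable → (∀ ξ ∈ B, ξ < w1) → ∃ η, η < w1 ∧ ∀ ξ ∈ B, ξ < η := by
    intro B hB h
    by_contra hc
    push Not at hc
    refine hw1 ((hB.biUnion fun ξ hξ => ((hct ξ (h ξ hξ)).insert ξ)).mono fun η hη => ?_)
    obtain ⟨ξ, h1, h2⟩ := hc η hη
    exact mem_biUnion h1 (h2.eq_or_lt.imp id id)
  refine ⟨N, ?_, fun v hv => ?_, fun A hA h => ?_⟩
  · obtain ⟨η, h1, _⟩ := hub ∅ countable_empty (by simp)
    exact (hS η ▸ hT1 η _).trans (hN η h1)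
  · obtain ⟨ξ, h1, h2⟩ := hlt v hv
    obtain ⟨η, h3, h4⟩ := hub {ξ} (countable_singleton _) (by simpa using h1)
    exact (hG2 _ _ h2).trans ((hS2 _ _ (h4 ξ rfl)).trans (hN η h3))
  · have : Nonempty Λ := ⟨z⟩
    choose! x hx1 hx2 using hlt
    obtain ⟨η, h1, h2⟩ := hub (x '' A) (hA.image _) (by
      rintro _ ⟨a, ha, rfl⟩; exact hx1 a (h a ha))
    obtain ⟨η', h3, h4⟩ := hub {η} (countable_singleton _) (by simpa using h1)
    refine (hG3 (S η) A hA fun a ha => ?_).trans ((hS2 _ _ (h4 η rfl)).trans (hN η' h3))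
    exact (hx2 a (h a ha)).trans ((hG1 _).trans (hS2 _ _ (h2 _ ⟨a, ha, rfl⟩))).le

end Pool.Agent.MP_5aa9a8_gt.H44
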