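import Pool.Agent.MP_5aa9a8_gt.H44.Forced

/-! Reading the forced formulas in the transitive model. -/

namespace Pool.Agent.MP_5aa9a8_gt.H44

open Fml

lemma mem_omega {x : ZFSet.{0}} : x ∈ ZFSet.omega ↔ ∃ n, x = num n := by
  have key : ∀ n, ZFSet.mk (PSet.ofNat n) = num n := by
    intro n
    induction n with
    | zero => rfl
    | succ n ih => rw [num, ← ih]; rfl
  induction x using Quotient.inductionOn with
  | h x =>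
    change ZFSet.mk x ∈ ZFSet.mk PSet.omega ↔ _
    rw [ZFSet.mk_mem_iff]
    constructor
    · rintro ⟨n, hn⟩
      exact ⟨n.down, (key _) ▸ ZFSet.sound hn⟩
    · rintro ⟨n, hn⟩
      exact ⟨⟨n⟩, ZFSet.exact (hn.trans (key n).symm)⟩

lemma mem_num {x : ZFSet.{0}} {k : ℕ} (h : x ∈ num k) : ∃ m, m < k ∧ x = num m := by
  induction k with
  | zero => exact absurd h (ZFSet.notMem_empty _)
  | succ k ih =>
    rcases ZFSet.mem_insert_iff.1 h with h | h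
    · exact ⟨k, Nat.lt_succ_self _, h⟩
    · obtain ⟨m, h1, h2⟩ := ih h
      exact ⟨m, Nat.lt_succ_of_lt h1, h2⟩

/-- membership in `W` -/
abbrev Mem (W : ZFSet.{0}) : W → W → Prop := fun a b => a.1 ∈ b.1

lemma sat_mem' {W : ZFSet.{0}} {v : ℕ → W} {i j : ℕ} :
    Sat (Mem W) (.mem i j) v ↔ (v i).1 ∈ (v j).1 := Iff.rfl

/-- transitive and closed under pairs -/
structure Tr (W : ZFSet.{0}) : Prop where
  tr : ∀ {x y : ZFSet.{0}}, x ∈ y → y ∈ W → x ∈ W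
  pa : ∀ {x y : ZFSet.{0}}, x ∈ W → y ∈ W → ({x, y} : ZFSet.{0}) ∈ W

variable {W : ZFSet.{0}} (h : Tr W) {v : ℕ → W}
include h

lemma Tr.ext {a : W} {b : ZFSet.{0}} (hb : ∀ x ∈ b, x ∈ W) :
    (∀ x : W, x.1 ∈ a.1 ↔ x.1 ∈ b) ↔ a.1 = b :=
  ⟨fun e => ZFSet.ext fun z => ⟨fun hz => (e ⟨z, h.tr hz a.2⟩).1 hz, fun hz => (e ⟨z, hb z hz⟩).2 hz⟩,
    fun e _ => e ▸ Iff.rfl⟩

lemma Tr.pair {x y : ZFSet.{0}} (hx : x ∈ W) (hy : y ∈ W) : ZFSet.pair x y ∈ W := by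
  have := h.pa (h.pa hx hx) (h.pa hx hy)
  rwa [ZFSet.pair_eq_singleton] at this

lemma Tr.unpair {x y : ZFSet.{0}} (hz : ZFSet.pair x y ∈ W) : x ∈ W ∧ y ∈ W := by
  have : ({x, y} : ZFSet.{0}) ∈ W := h.tr (by simp [ZFSet.pair]) hz
  exact ⟨h.tr (by simp) this, h.tr (by simp) this⟩

lemma Tr.doub {u x y : ℕ} :
    Sat (Mem W) (doubF u x y) v ↔ (v u).1 = {(v x).1, (v y).1} := by
  rw [← h.ext fun z hz => by
    rcases ZFSet.mem_pair.1 hz with rfl | rfl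
    exacts [(v x).2, (v y).2]]
  simp only [doubF, sat_all, sat_iff, sat_or, sat_mem', sat_eq, cons_zero, cons_succ,
    ZFSet.mem_pair, Subtype.ext_iff]

lemma Tr.pairF {z x y : ℕ} :
    Sat (Mem W) (pairF z x y) v ↔ (v z).1 = ZFSet.pair (v x).1 (v y).1 := by
  rw [← h.ext fun z hz => h.tr hz (h.pair (v x).2 (v y).2)]
  simp only [H44.pairF, sat_all, sat_iff, sat_or, sat_mem', h.doub, cons_zero, cons_succ,
    ZFSet.pair, ZFSet.mem_pair, ZFSet.pair_eq_singleton]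

lemma Tr.appF {f x y : ℕ} :
    Sat (Mem W) (appF f x y) v ↔ ZFSet.pair (v x).1 (v y).1 ∈ (v f).1 := by
  simp only [H44.appF, sat_ex, sat_and, sat_mem', h.pairF, cons_zero, cons_succ]
  exact ⟨fun ⟨z, h1, h2⟩ => h2 ▸ h1, fun h1 => ⟨⟨_, h.pair (v x).2 (v y).2⟩, h1, rfl⟩⟩

lemma Tr.funF {f : ℕ} : Sat (Mem W) (funF f) v ↔
    ∀ n z z', ZFSet.pair n z ∈ (v f).1 → ZFSet.pair n z' ∈ (v f).1 → z = z' := by
  simp only [H44.funF, sat_all, sat_imp, sat_eq, h.appF, cons_zero, cons_succ, Subtype.ext_iff]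
  exact ⟨fun e n z z' h1 h2 => e ⟨n, (h.unpair (h.tr h1 (v f).2)).1⟩
    ⟨z, (h.unpair (h.tr h1 (v f).2)).2⟩ ⟨z', (h.unpair (h.tr h2 (v f).2)).2⟩ h1 h2,
    fun e n z z' => e _ _ _⟩

lemma Tr.cntF {a w : ℕ} (hw : (v w).1 = ZFSet.omega) :
    Sat (Mem W) (cntF a w) v ↔ Cnt W (v a).1 := by
  simp only [H44.cntF, sat_ex, sat_and, sat_all, sat_imp, sat_mem', h.funF, h.appF, cons_zero,
    cons_succ, hw]
  exact ⟨fun ⟨f, h1, h2⟩ => ⟨f.1, f.2, h1, fun z hz => by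
      obtain ⟨n, h3⟩ := h2 ⟨z, h.tr hz (v a).2⟩ hz
      exact ⟨n.1, h3⟩⟩,
    fun ⟨f, h0, h1, h2⟩ => ⟨⟨f, h0⟩, h1, fun z hz => by
      obtain ⟨n, h3⟩ := h2 z.1 hz
      exact ⟨⟨n, h.tr h3.1 (hw ▸ (v w).2)⟩, h3⟩⟩⟩

lemma Tr.sucF {s x : ℕ} : Sat (Mem W) (sucF s x) v ↔ (v s).1 = insert (v x).1 (v x).1 := by
  rw [← h.ext fun z hz => by
    rcases ZFSet.mem_insert_iff.1 hz with rfl | hz
    exacts [(v x).2, h.tr hz (v x).2]]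
  simp only [H44.sucF, sat_all, sat_iff, sat_or, sat_mem', sat_eq, cons_zero, cons_succ,
    ZFSet.mem_insert_iff, Subtype.ext_iff, or_comm]

lemma Tr.omF {w : ℕ} (hw : Sat (Mem W) (omF w) v) : (v w).1 = ZFSet.omega := by
  simp only [H44.omF, sat_ex, sat_and, sat_all, sat_imp, sat_not, sat_or, sat_mem', h.sucF,
    cons_zero, cons_succ] at hw
  obtain ⟨⟨e, e1, e2⟩, h2, h3⟩ := hw
  have em : ∀ x : W, (∀ z : W, z.1 ∉ x.1) → x.1 = ∅ := fun x hx =>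
    (ZFSet.eq_empty _).2 fun z hz => hx ⟨z, h.tr hz x.2⟩ hz
  refine ZFSet.ext fun z => ⟨fun hz => ?_, fun hz => ?_⟩
  · induction z using ZFSet.inductionOn with
    | _ z ih =>
      rcases h3 ⟨z, h.tr hz (v w).2⟩ hz with h4 | ⟨y, h4, h5⟩
      · have h6 : z = ∅ := em _ h4
        exact h6 ▸ ZFSet.omega_zero
      · have h6 : z = insert y.1 y.1 := h5
        exact h6 ▸ ZFSet.omega_succ (ih y.1 (h6 ▸ ZFSet.mem_insert _ _) h4)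
  · obtain ⟨n, rfl⟩ := mem_omega.1 hz
    clear hz
    induction n with
    | zero =>
      have h6 : e.1 = num 0 := em e e2
      exact h6 ▸ e1
    | succ n ih =>
      obtain ⟨s, h4, h5⟩ := h2 ⟨_, h.tr ih (v w).2⟩ ih
      have h6 : s.1 = num (n + 1) := h5
      exact h6 ▸ h4

lemma Tr.farF {g y z o n : ℕ} : Sat (Mem W) (farF g y z o n) v ↔
    ZFSet.pair (ZFSet.pair (v y).1 (v z).1) (ZFSet.pair (v o).1 (v n).1) ∈ (v g).1 := by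
  simp only [H44.farF, sat_ex, sat_and, h.pairF, h.appF, cons_zero, cons_succ]
  exact ⟨fun ⟨a, b, h1, h2, h3⟩ => h1 ▸ h2 ▸ h3,
    fun h1 => ⟨⟨_, h.pair (v y).2 (v z).2⟩, ⟨_, h.pair (v o).2 (v n).2⟩, rfl, rfl, h1⟩⟩

theorem Tr.main (hm : Sat (Mem W) mainF v) : ∃ X ∈ W, ∃ τ ∈ W, IsTop W X τ ∧ Haus X τ ∧
    Cpt W X τ ∧ SmallDiag W X τ ∧ ¬ Metrizable W X τ := by
  simp only [mainF, sat_ex, sat_and] at hm
  obtain ⟨X, τ, w, h0, h1, h2, h3, h4, h5, h6, h7, h8⟩ := hm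
  have hw : w.1 = ZFSet.omega := h.omF h0
  have hX : ∀ {x}, x ∈ X.1 → x ∈ W := fun hx => h.tr hx X.2
  have hτ : ∀ {x}, x ∈ τ.1 → x ∈ W := fun hx => h.tr hx τ.2
  have hn : ∀ n, num n ∈ w.1 := fun n => hw ▸ mem_omega.2 ⟨n, rfl⟩
  simp only [subF, interF, unionF, hausF, cptF, ndF, sat_ex, sat_and, sat_all, sat_imp, sat_iff,
    sat_not, sat_mem', sat_eq, h.funF, h.appF, h.farF, cons_zero, cons_succ, Subtype.ext_iff]
    at h1 h2 h3 h4 h5 h6 h8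
  have sub : ∀ U ∈ τ.1, U ⊆ X.1 := fun U hU z hz =>
    h1 ⟨U, hτ hU⟩ hU ⟨z, h.tr hz (hτ hU)⟩ hz
  refine ⟨X.1, X.2, τ.1, τ.2, ⟨sub, h2, fun U hU V hV => ?_, fun C hC hs => ?_⟩,
    fun x hx y hy hne => ?_, fun C hC hs hc => ?_, fun A hA ha hc => ?_, ?_⟩
  · obtain ⟨Y, a1, a2⟩ := h3 ⟨U, hτ hU⟩ ⟨V, hτ hV⟩ hU hV
    rwa [← (h.ext (a := Y) (b := U ∩ V) fun z hz => h.tr (ZFSet.mem_inter.1 hz).1 (hτ hU)).1
      fun z => (a2 z).trans ZFSet.mem_inter.symm]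
  · obtain ⟨Y, a1, a2⟩ := h4 ⟨C, hC⟩ fun U hU => hs hU
    rwa [← (h.ext (a := Y) (b := ZFSet.sUnion C) fun z hz => by
        obtain ⟨U, b1, b2⟩ := ZFSet.mem_sUnion.1 hz
        exact h.tr b2 (h.tr b1 hC)).1
      fun z => (a2 z).trans ⟨fun ⟨U, b⟩ => ZFSet.mem_sUnion.2 ⟨U.1, b⟩, fun hz => by
        obtain ⟨U, b1, b2⟩ := ZFSet.mem_sUnion.1 hz
        exact ⟨⟨U, h.tr b1 hC⟩, b1, b2⟩⟩]
  · obtain ⟨U, V, a1, a2, a3, a4, a5⟩ := h5 ⟨x, hX hx⟩ ⟨y, hX hy⟩ hx hy hne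
    exact ⟨U.1, a1, V.1, a2, a3, a4, fun z hz => a5 ⟨z, h.tr hz U.2⟩ hz⟩
  · classical
    obtain ⟨n, f, a1, a2, a3⟩ := h6 ⟨C, hC⟩ (fun U hU => hs hU) fun x hx => by
      obtain ⟨U, b1, b2⟩ := hc x.1 hx
      exact ⟨⟨U, h.tr b1 hC⟩, b1, b2⟩
    obtain ⟨k, hk⟩ := mem_omega.1 (hw ▸ a1)
    have : ∀ m : ℕ, ∃ U, ∀ U', ZFSet.pair (num m) U' ∈ f.1 → U' = U := fun m => by
      by_cases e : ∃ U, ZFSet.pair (num m) U ∈ f.1
      · obtain ⟨U, hU⟩ := e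
        exact ⟨U, fun U' h' => a2 _ _ _ h' hU⟩
      · exact ⟨∅, fun U' h' => absurd ⟨U', h'⟩ e⟩
    choose g hg using this
    refine ⟨((Finset.range k).image g).filter (· ∈ C), fun U hU => (Finset.mem_filter.1 hU).2,
      fun x hx => ?_⟩
    obtain ⟨m, U, b1, b2, b3, b4⟩ := a3 ⟨x, hX hx⟩ hx
    obtain ⟨j, c1, c2⟩ := mem_num (hk ▸ b1)
    exact ⟨U.1, Finset.mem_filter.2 ⟨Finset.mem_image.2
      ⟨j, Finset.mem_range.2 c1, (hg j U.1 (c2 ▸ b3)).symm⟩, b2⟩, b4⟩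
  · have h9 := h7 ⟨A, hA⟩ ?_ fun h' => hc ((h.cntF (w := 1) hw).1 h')
    swap
    · simp only [offF, sat_ex, sat_and, sat_all, sat_imp, sat_not, sat_mem', sat_eq, h.pairF,
        cons_zero, cons_succ, Subtype.ext_iff]
      intro z hz
      obtain ⟨x, hx, y, hy, b⟩ := ha z.1 hz
      exact ⟨⟨x, hX hx⟩, ⟨y, hX hy⟩, hx, hy, b⟩
    simp only [sat_ex, sat_and, sat_not] at h9
    obtain ⟨U, B, a1, a2, a3, a4⟩ := h9
    rw [h.cntF (w := 3) hw] at a4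
    simp only [opF, sat_ex, sat_and, sat_all, sat_imp, sat_iff, sat_not, sat_mem', h.pairF, h.appF,
      cons_zero, cons_succ] at a1 a2 a3 a4
    refine ⟨U.1, U.2, ⟨fun z hz => ?_, fun x y hxy => ?_⟩, fun x hx => a3 ⟨x, hX hx⟩ hx, ?_⟩
    · obtain ⟨x, y, b1, b2, b3⟩ := a2.1 ⟨z, h.tr hz U.2⟩ hz
      exact ⟨x.1, b1, y.1, b2, b3⟩
    · obtain ⟨V, V', b1, b2, b3, b4, b5⟩ := a2.2 ⟨x, (h.unpair (h.tr hxy U.2)).1⟩
        ⟨y, (h.unpair (h.tr hxy U.2)).2⟩ hxy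
      exact ⟨V.1, b1, V'.1, b2, b3, b4, fun x' hx' y' hy' =>
        b5 ⟨x', h.tr hx' V.2⟩ ⟨y', h.tr hy' V'.2⟩ hx' hy'⟩
    · rwa [← (h.ext (a := B) (b := A \ U.1) fun z hz => h.tr (ZFSet.mem_sdiff.1 hz).1 hA).1
        fun z => (a1 z).trans ZFSet.mem_sdiff.symm]
  · rintro ⟨d, d1, d2, d3, ⟨g, g0, g1⟩, -, d4⟩
    refine h8 ⟨g, g0⟩ ⟨num 1, h.tr (hn 1) w.2⟩ ⟨fun n hn' x hx => ?_, fun x y hx hy hne => ?_⟩
    · obtain ⟨k, hk⟩ := mem_omega.1 (hw ▸ hn')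
      obtain ⟨V, a1, a2, a3⟩ := d4 x.1 hx (1 / (k + 1) / 2) (by positivity)
      refine ⟨⟨V, hτ a1⟩, a1, a2, fun y z hy hz hf => ?_⟩
      rw [hk, g1 _ (sub V a1 hy) _ (sub V a1 hz)] at hf
      have b1 := d3 _ (sub V a1 hy) _ hx _ (sub V a1 hz)
      have b2 := d2 _ (sub V a1 hy) _ hx
      have b3 := a3 _ hy
      have b4 := a3 _ hz
      push_cast at hf
      linarith
    · have b1 := d3 _ hx _ hy _ hx
      have b2 := d2 _ hx _ hy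
      have b3 := (d1 _ hx _ hx).2 rfl
      have b4 : 0 < d x.1 y.1 := lt_of_le_of_ne (by linarith) fun e => hne ((d1 _ hx _ hy).1 e.symm)
      obtain ⟨k, hk⟩ := exists_nat_one_div_lt b4
      exact ⟨⟨num k, h.tr (hn k) w.2⟩, hn k, (g1 _ hx _ hy 1 k).2 (by simpa using hk)⟩

omit h in
theorem exists_counter : ∃ W : ZFSet.{0}, W.IsTransitive ∧ IsZFC (fun a b : W => a.1 ∈ b.1) ∧
    ∃ X ∈ W, ∃ τ ∈ W, IsTop W X τ ∧ Haus X τ ∧ Cpt W X τ ∧ SmallDiag W X τ ∧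
      ¬ Metrizable W X τ := by
  obtain ⟨Λ, _, _, ⟨L⟩⟩ := exists_lab
  obtain ⟨W, h1, _, ⟨a⟩, h2⟩ := exists_trans (Cond L)
  have : Nonempty W := ⟨a⟩
  have hz := h2.isZFC
  have ht : Tr W := ⟨h1.mem_trans, fun {x y} hx hy => by
    obtain ⟨c, hc⟩ := hz.pair ⟨x, hx⟩ ⟨y, hy⟩
    have : c.1 = {x, y} := ZFSet.ext fun z => ⟨fun hz' => by
        simpa [Subtype.ext_iff] using (hc ⟨z, h1.mem_trans hz' c.2⟩).1 hz',
      fun hz' => by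
        rcases ZFSet.mem_pair.1 hz' with rfl | rfl
        exacts [(hc ⟨z, hx⟩).2 (Or.inl rfl), (hc ⟨z, hy⟩).2 (Or.inr rfl)]⟩
    exact this ▸ c.2⟩
  exact ⟨W, h1, hz, ht.main (h2 mainF (fun _ => frc_mainF) fun _ => a)⟩

end Pool.Agent.MP_5aa9a8_gt.H44
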