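import Pool.Agent.MP_5aa9a8_gt.H44.ZFC

/-! A countable transitive model of everything forced by the trivial condition. -/

namespace Pool.Agent.MP_5aa9a8_gt.H44

set_option linter.unusedSectionVars false

variable {P : Type} [Preorder P] [OrderTop P]

lemma decide_all (p : P) (t : ℕ → Nm P) (ψ : Fml) :
    ∃ r : P × Nm P, r.1 ≤ p ∧ (Frc (.all ψ) t r.1 ∨ Frc ψ.not (cons r.2 t) r.1) ∧
      ∀ k χ, ψ = .imp (.mem 0 (k + 1)) χ → Frc (.all ψ) t r.1 ∨ ∃ i, r.2 = (t k).A i := by
  by_cases h : Frc (.all ψ) t p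
  · exact ⟨(p, emp), le_rfl, Or.inl h, fun _ _ _ => Or.inl h⟩
  · obtain ⟨x, hx⟩ := not_forall.1 h
    obtain ⟨q, hq, h1⟩ := exists_not hx
    by_cases hc : ∃ k χ, ψ = .imp (.mem 0 (k + 1)) χ
    · obtain ⟨k, χ, rfl⟩ := hc
      have h2 : FMem x (t k) q := by
        refine FMem.of_dn fun r hr => ?_
        by_contra hn
        exact h1 r hr fun s hs h3 => absurd ⟨s, hs, h3⟩ hn
      obtain ⟨r, hr, i, _, h3⟩ := h2.ex
      refine ⟨(r, (t k).A i), hr.trans hq, Or.inr ((Frc.mono h1 hr).congr0 h3), fun k' χ' e => ?_⟩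
      obtain rfl : k = k' := by
        injection e with e1 _
        injection e1 with _ e2
        omega
      exact Or.inr ⟨i, rfl⟩
    · exact ⟨(q, x), hq, Or.inr h1, fun k χ e => absurd ⟨k, χ, e⟩ hc⟩

/-- the stages of the construction -/
noncomputable def stage (P : Type) [Preorder P] [OrderTop P] (e : ℕ → Fml) : ℕ → P × (ℕ → Nm P)
  | 0 => (⊤, fun _ => emp)
  | n + 1 =>
    ((decide_all (stage P e n).1 (stage P e n).2 (e n)).choose.1,
      Function.update (stage P e n).2 n (decide_all (stage P e n).1 (stage P e n).2 (e n)).choose.2)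

noncomputable def dd (P : Type) [Preorder P] [OrderTop P] (e : ℕ → Fml) (n : ℕ) : P := (stage P e n).1

noncomputable def ss (P : Type) [Preorder P] [OrderTop P] (e : ℕ → Fml) (n : ℕ) : Nm P := (stage P e (n + 1)).2 n

lemma dd_anti (e : ℕ → Fml) : Antitone (dd P e) :=
  antitone_nat_of_succ_le fun n => (decide_all (stage P e n).1 (stage P e n).2 (e n)).choose_spec.1

lemma stage_eq (e : ℕ → Fml) (m k : ℕ) (h : k < m) : (stage P e m).2 k = ss P e k := by
  induction m with
  | zero => omega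
  | succ m ih =>
    by_cases hk : k = m
    · subst hk; rfl
    · rw [stage]
      simp only
      rw [Function.update_of_ne hk]
      exact ih (by omega)

lemma stage_spec (e : ℕ → Fml) (n : ℕ) (h : (e n).bound ≤ n) :
    Frc (.all (e n)) (ss P e) (dd P e (n + 1)) ∨
      Frc (e n).not (cons (ss P e n) (ss P e)) (dd P e (n + 1)) := by
  have h1 := (decide_all (stage P e n).1 (stage P e n).2 (e n)).choose_spec.2.1
  have h2 : ss P e n = (decide_all (stage P e n).1 (stage P e n).2 (e n)).choose.2 := by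
    simp [ss, stage]
  rw [← h2] at h1
  refine h1.imp (fun h3 => (frc_congr fun i hi => ?_).1 h3) (fun h3 => (frc_congr fun i hi => ?_).1 h3)
  · rw [stage_eq e n i (lt_of_lt_of_le hi h)]
    exact FEq.refl _ _
  · cases i with
    | zero => exact FEq.refl _ _
    | succ i =>
      have : i < n := by
        simp only [Fml.not, Fml.bound] at hi
        omega
      simp only [cons_succ]
      rw [stage_eq e n i this]
      exact FEq.refl _ _

lemma stage_child (e : ℕ → Fml) (n k : ℕ) (χ : Fml) (h : e n = .imp (.mem 0 (k + 1)) χ)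
    (hk : k < n) : Frc (.all (e n)) (stage P e n).2 (dd P e (n + 1)) ∨
      ∃ i, ss P e n = (ss P e k).A i := by
  have h1 := (decide_all (stage P e n).1 (stage P e n).2 (e n)).choose_spec.2.2 k χ h
  have h2 : ss P e n = (decide_all (stage P e n).1 (stage P e n).2 (e n)).choose.2 := by
    simp [ss, stage]
  rw [← h2, stage_eq e n k hk] at h1
  exact h1

lemma exists_enum : ∃ e : ℕ → Fml, ∀ φ N, ∃ n, N ≤ n ∧ e n = φ := by
  have : Nonempty (Fml × ℕ) := ⟨(.bot, 0)⟩
  obtain ⟨f, hf⟩ := exists_surjective_nat (Fml × ℕ)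
  refine ⟨fun n => (f n).1, fun φ N => ?_⟩
  choose g hg using fun j : ℕ => hf (φ, j)
  have hinj : Function.Injective g := fun i j h => by
    have := (hg i).symm.trans (h ▸ hg j)
    exact (Prod.mk.inj this).2
  obtain ⟨n, ⟨j, rfl⟩, hn⟩ := (Set.infinite_range_of_injective hinj).exists_gt N
  exact ⟨g j, hn.le, by simp [hg]⟩

theorem exists_model (P : Type) [Preorder P] [OrderTop P] :
    ∃ (M : Type) (E : M → M → Prop), Countable M ∧ Nonempty M ∧ WellFounded E ∧
    ∀ φ : Fml, (∀ v : ℕ → Nm P, Frc φ v ⊤) → ∀ w, Sat E φ w := by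
  obtain ⟨e, he⟩ := exists_enum
  set s := ss P e
  set d := dd P e
  have hd : Antitone d := dd_anti e
  have hall : ∀ (φ : Fml) (σ : ℕ → ℕ), ∃ n, Frc (.all φ) (s ∘ σ) (d n) ∨
      ∃ k, Frc φ.not (s ∘ cons k σ) (d n) := by
    intro φ σ
    obtain ⟨n, hn, h1⟩ := he (φ.ren (up σ)) (φ.ren (up σ)).bound
    have := stage_spec (P := P) e n (h1 ▸ hn)
    rw [h1] at this
    refine ⟨n + 1, this.imp (fun h => ?_) fun h => ⟨n, ?_⟩⟩
    · exact (frc_ren (φ := .all φ) σ).1 h
    · have := (frc_ren (φ := φ.not) (up σ)).1 h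
      rwa [cons_comp_up, ← comp_cons] at this
  have hdec : ∀ (φ : Fml) (σ : ℕ → ℕ), ∃ n, Frc φ (s ∘ σ) (d n) ∨ Frc φ.not (s ∘ σ) (d n) := by
    intro φ σ
    obtain ⟨n, h⟩ := hall (φ.ren Nat.succ) σ
    refine ⟨n, h.imp (fun h => ?_) fun ⟨k, h⟩ => ?_⟩
    · exact (frc_ren Nat.succ).1 (h emp)
    · exact (frc_ren (φ := φ.not) Nat.succ).1 h
  let S : Setoid ℕ := ⟨fun i j => ∃ n, FEq (s i) (s j) (d n),
    fun i => ⟨0, FEq.refl _ _⟩, fun ⟨n, h⟩ => ⟨n, h.symm⟩,
    fun ⟨n, h⟩ ⟨m, h'⟩ => ⟨max n m, (h.mono (hd (le_max_left _ _))).trans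
      (h'.mono (hd (le_max_right _ _)))⟩⟩
  let E : Quotient S → Quotient S → Prop := fun a b =>
    ∃ i j, a = Quotient.mk S i ∧ b = Quotient.mk S j ∧ ∃ n, FMem (s i) (s j) (d n)
  have truth : ∀ (φ : Fml) (σ : ℕ → ℕ),
      Sat E φ (Quotient.mk S ∘ σ) ↔ ∃ n, Frc φ (s ∘ σ) (d n) := by
    intro φ
    induction φ with
    | mem i j =>
      intro σ
      constructor
      · rintro ⟨a, b, ha, hb, n, h⟩
        obtain ⟨n1, h1⟩ := Quotient.exact ha
        obtain ⟨n2, h2⟩ := Quotient.exact hb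
        refine ⟨max n (max n1 n2), ?_⟩
        exact ((h.mono (hd (by simp))).left (h1.symm.mono (hd (by simp)))).right
          (h2.symm.mono (hd (by simp)))
      · intro h
        exact ⟨σ i, σ j, rfl, rfl, h⟩
    | eq i j => exact fun σ => ⟨fun h => Quotient.exact h, fun h => Quotient.sound h⟩
    | bot => simp
    | imp a b iha ihb =>
      intro σ
      rw [sat_imp, iha, ihb]
      constructor
      · intro h
        obtain ⟨n, h1 | h1⟩ := hdec a σ
        · obtain ⟨m, h2⟩ := h ⟨n, h1⟩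
          exact ⟨m, fun q hq _ => h2.mono hq⟩
        · exact ⟨n, fun q hq h2 => absurd h2 (h1 q hq)⟩
      · rintro ⟨n, h⟩ ⟨m, h1⟩
        exact ⟨max n m, h _ (hd (le_max_left _ _)) (h1.mono (hd (le_max_right _ _)))⟩
    | all a iha =>
      intro σ
      rw [sat_all]
      constructor
      · intro h
        obtain ⟨n, h1 | ⟨k, h1⟩⟩ := hall a σ
        · exact ⟨n, h1⟩
        · have := h (Quotient.mk S k)
          rw [← comp_cons, iha] at this
          obtain ⟨m, h2⟩ := this
          exact absurd (h2.mono (hd (le_max_right n m))) (h1 _ (hd (le_max_left n m)))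
      · rintro ⟨n, h⟩ x
        obtain ⟨k, rfl⟩ := Quotient.exists_rep x
        rw [← comp_cons, iha]
        exact ⟨n, by rw [comp_cons]; exact h _⟩
  have child : ∀ k a, E a (Quotient.mk S k) → ∃ m i, a = Quotient.mk S m ∧ s m = (s k).A i := by
    intro k a ha
    obtain ⟨j, rfl⟩ := Quotient.exists_rep a
    obtain ⟨n0, h0⟩ := (truth (.mem 0 1) (cons j fun _ => k)).1 ha
    obtain ⟨n, hn, h1⟩ := he (.imp (.mem 0 (k + 1)) (.not (.eq 0 (j + 1)))) (max k j + 2)
    have hb : (e n).bound ≤ n := by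
      rw [h1]; simp only [Fml.not, Fml.bound]; omega
    have hna : ¬ Frc (.all (e n)) s (d (n + 1)) := by
      rw [h1]
      intro h2
      exact h2 (s j) (d (max n0 (n + 1))) (hd (le_max_right _ _))
        (FMem.mono h0 (hd (le_max_left _ _))) _ le_rfl (FEq.refl _ _)
    have h3 := (stage_spec (P := P) e n hb).resolve_left hna
    obtain ⟨i, hi⟩ := (stage_child (P := P) e n k _ h1 (by omega)).resolve_left fun h4 =>
      hna ((frc_congr fun i hi => by
        rw [stage_eq e n i (lt_of_lt_of_le hi hb)]; exact FEq.refl _ _).1 h4)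
    refine ⟨n, i, Quotient.sound ⟨n + 1, FEq.symm ?_⟩, hi⟩
    rw [h1] at h3
    refine FEq.of_dn fun q hq => ?_
    by_contra hc
    exact h3 q hq fun r hr _ t ht h5 => hc ⟨t, ht.trans hr, h5⟩
  have acc : ∀ (x : Nm P) k, s k = x → Acc E (Quotient.mk S k) := by
    intro x
    induction x using Nm.ind with
    | h x ih =>
      rintro k rfl
      refine ⟨_, fun a ha => ?_⟩
      obtain ⟨m, i, rfl, hm⟩ := child k a ha
      exact ih i m hm
  refine ⟨Quotient S, E, inferInstance, ⟨Quotient.mk S 0⟩, ⟨fun a => ?_⟩, fun φ h w => ?_⟩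
  · obtain ⟨k, rfl⟩ := Quotient.exists_rep a
    exact acc _ k rfl
  have : w = Quotient.mk S ∘ fun i => (w i).out := by
    funext i; simp
  rw [this, truth]
  exact ⟨0, (h _).mono le_top⟩

theorem exists_trans (P : Type) [Preorder P] [OrderTop P] :
    ∃ W : ZFSet.{0}, W.IsTransitive ∧ Countable W ∧ Nonempty W ∧
      Sound P fun a b : W => a.1 ∈ b.1 := by
  obtain ⟨M, E, hc, ⟨a0⟩, wf, hS⟩ := exists_model P
  let π : M → ZFSet.{0} := wf.fix fun a ih => ZFSet.range fun b : {b // E b a} => ih b.1 b.2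
  have hπ : ∀ a z, z ∈ π a ↔ ∃ b, E b a ∧ π b = z := by
    intro a z
    have : π a = ZFSet.range fun b : {b // E b a} => π b.1 := WellFounded.fix_eq _ _ _
    rw [this, ZFSet.mem_range]
    exact ⟨fun ⟨b, h⟩ => ⟨b.1, b.2, h⟩, fun ⟨b, h1, h2⟩ => ⟨⟨b, h1⟩, h2⟩⟩
  have ext : ∀ a b, (∀ x, E x a ↔ E x b) → a = b := by
    intro a b h
    have := hS (.imp (.all (.iff (.mem 0 1) (.mem 0 2))) (.eq 0 1)) ?_ (cons a fun _ => b)
    · exact this (by simpa using h)
    · intro v q _ h
      simp only [frc_all, frc_iff, frc_mem, cons_zero, cons_one, cons_two] at h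
      exact feq_ext h
  have inj : ∀ a b, π a = π b → a = b := by
    intro a
    induction a using wf.induction with
    | _ a ih =>
      intro b e
      refine ext a b fun x => ⟨fun hx => ?_, fun hx => ?_⟩
      · obtain ⟨y, hy, e1⟩ := (hπ b _).1 (e ▸ (hπ a _).2 ⟨x, hx, rfl⟩)
        exact ih x hx y e1.symm ▸ hy
      · obtain ⟨y, hy, e1⟩ := (hπ a _).1 (e ▸ (hπ b _).2 ⟨x, hx, rfl⟩)
        exact ih y hy x e1 ▸ hy
  let j : M → (ZFSet.range π : ZFSet.{0}) := fun a => ⟨π a, ZFSet.mem_range_self a⟩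
  have sj : Function.Surjective j := fun z => by
    obtain ⟨a, ha⟩ := ZFSet.mem_range.1 z.2
    exact ⟨a, Subtype.ext ha⟩
  have tr : ∀ (φ : Fml) (w : ℕ → M),
      Sat (fun a b : (ZFSet.range π : ZFSet.{0}) => a.1 ∈ b.1) φ (j ∘ w) ↔ Sat E φ w := by
    intro φ
    induction φ with
    | mem a b =>
      exact fun w => (hπ _ _).trans 
        ⟨fun ⟨c, h1, h2⟩ => show E (w a) (w b) from inj _ _ h2 ▸ h1, fun h => ⟨_, h, rfl⟩⟩
    | eq a b => exact fun w => ⟨fun h => inj _ _ (congrArg Subtype.val h), fun h => congrArg j h⟩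
    | bot => exact fun _ => Iff.rfl
    | imp a b iha ihb => exact fun w => imp_congr (iha w) (ihb w)
    | all a iha =>
      intro w
      rw [sat_all, sat_all, sj.forall]
      exact forall_congr' fun x => by rw [← comp_cons]; exact iha _
  refine ⟨ZFSet.range π, fun y hy z hz => ?_, sj.countable, ⟨j a0⟩, fun φ h w => ?_⟩
  · obtain ⟨a, rfl⟩ := ZFSet.mem_range.1 hy
    obtain ⟨b, _, rfl⟩ := (hπ a z).1 hz
    exact ZFSet.mem_range_self b
  · choose u hu using fun i => sj (w i)
    have : w = j ∘ u := funext fun i => (hu i).symm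
    rw [this, tr]
    exact hS φ h u

end Pool.Agent.MP_5aa9a8_gt.H44
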