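import Pool.Agent.MP_5aa9a8_gt.H44.Model

/-! Pairs under forcing, the maximum principle, and the formulas of the problem. -/

namespace Pool.Agent.MP_5aa9a8_gt.H44

open Fml

set_option linter.unusedSectionVars false

variable {P : Type} [Preorder P] [OrderTop P]

def doubF (u x y : ℕ) : Fml := all (iff (mem 0 (u + 1)) (or (eq 0 (x + 1)) (eq 0 (y + 1))))

def pairF (z x y : ℕ) : Fml :=
  all (iff (mem 0 (z + 1)) (or (doubF 0 (x + 1) (x + 1)) (doubF 0 (x + 1) (y + 1))))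

def appF (f x y : ℕ) : Fml := ex (and (mem 0 (f + 1)) (pairF 0 (x + 1) (y + 1)))

/-- the name of an unordered pair -/
def dbN (x y : Nm P) : Nm P := .mk Bool (fun i => if i then x else y) fun _ => ⊤

lemma fmem_dbN {w x y : Nm P} {p : P} :
    FMem w (dbN x y) p ↔ Dn (fun q => FEq w x q ∨ FEq w y q) p := by
  constructor
  · intro h
    refine h.imp fun q _ ⟨i, _, h1⟩ => ⟨q, le_rfl, ?_⟩
    cases i
    · exact Or.inr h1
    · exact Or.inl h1
  · intro h
    refine h.imp fun q _ h1 => ⟨q, le_rfl, ?_⟩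
    rcases h1 with h1 | h1
    · exact ⟨true, le_top, h1⟩
    · exact ⟨false, le_top, h1⟩

lemma dbN_left (x y : Nm P) (p : P) : FMem x (dbN x y) p :=
  fmem_dbN.2 (Dn.of_all fun _ _ => Or.inl (FEq.refl _ _))

lemma dbN_right (x y : Nm P) (p : P) : FMem y (dbN x y) p :=
  fmem_dbN.2 (Dn.of_all fun _ _ => Or.inr (FEq.refl _ _))

lemma dbN_congr {x y x' y' : Nm P} {p : P} (h1 : FEq x x' p) (h2 : FEq y y' p) :
    FEq (dbN x y) (dbN x' y') p := by
  apply feq_of_children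
  · rintro i q hq _
    cases i
    · exact (dbN_right x' y' q).left (h2.symm.mono hq)
    · exact (dbN_left x' y' q).left (h1.symm.mono hq)
  · rintro i q hq _
    cases i
    · exact (dbN_right x y q).left (h2.mono hq)
    · exact (dbN_left x y q).left (h1.mono hq)

/-- the name of an ordered pair -/
def pr (x y : Nm P) : Nm P := dbN (dbN x x) (dbN x y)

lemma pr_congr {x y x' y' : Nm P} {p : P} (h1 : FEq x x' p) (h2 : FEq y y' p) :
    FEq (pr x y) (pr x' y') p := dbN_congr (dbN_congr h1 h1) (dbN_congr h1 h2)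

lemma dbN_sing {w x : Nm P} {p : P} (h : FMem w (dbN x x) p) : FEq w x p :=
  FEq.of_dn ((fmem_dbN.1 h).imp fun q _ h1 => ⟨q, le_rfl, h1.elim id id⟩)

lemma dbN_cancel {x y y' : Nm P} {p : P} (h : FEq (dbN x y) (dbN x y') p) : FEq y y' p := by
  refine FEq.of_dn ((fmem_dbN.1 ((dbN_right x y p).right h)).imp fun q hq h1 => ?_)
  rcases h1 with h1 | h1
  · refine ⟨q, le_rfl, FEq.of_dn
      ((fmem_dbN.1 ((dbN_right x y' q).right (h.symm.mono hq))).imp fun r hr h2 => ⟨r, le_rfl, ?_⟩)⟩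
    rcases h2 with h2 | h2
    · exact (h1.mono hr).trans h2.symm
    · exact h2.symm
  · exact ⟨q, le_rfl, h1⟩

lemma pr_inj {x y x' y' : Nm P} {p : P} (h : FEq (pr x y) (pr x' y') p) :
    FEq x x' p ∧ FEq y y' p := by
  have h1 : FEq x x' p := by
    refine FEq.of_dn ((fmem_dbN.1 ((dbN_left _ _ p).right h)).imp fun q _ h1 => ⟨q, le_rfl, ?_⟩)
    rcases h1 with h1 | h1
    · exact (dbN_sing ((dbN_left _ _ q).right h1.symm)).symm
    · exact (dbN_sing ((dbN_left _ _ q).right h1.symm)).symm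
  refine ⟨h1, dbN_cancel (x := x) (dbN_cancel (x := dbN x x) ?_)⟩
  exact h.trans (pr_congr h1.symm (FEq.refl _ _))

/-- forced: the pair of `x` and `y` lies in `f` -/
def FApp (f x y : Nm P) (p : P) : Prop := FMem (pr x y) f p

lemma FApp.mono {f x y : Nm P} {p q : P} (h : FApp f x y p) (hq : q ≤ p) : FApp f x y q :=
  FMem.mono h hq

lemma FApp.congr {f x y f' x' y' : Nm P} {p : P} (h : FApp f x y p) (h0 : FEq f f' p)
    (h1 : FEq x x' p) (h2 : FEq y y' p) : FApp f' x' y' p :=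
  (FMem.left h (pr_congr h1 h2)).right h0

section frc

variable {v : ℕ → Nm P} {p : P}

@[simp] lemma frc_doubF {u x y : ℕ} :
    Frc (doubF u x y) v p ↔ FEq (v u) (dbN (v x) (v y)) p := by
  simp only [doubF, frc_all, frc_iff, frc_mem, frc_or, frc_eq, cons_zero, cons_succ]
  constructor
  · intro h
    exact feq_ext fun z q hq => (h z q hq).trans fmem_dbN.symm
  · intro h z q hq
    rw [← fmem_dbN]
    exact ⟨fun h1 => h1.right (h.mono hq), fun h1 => h1.right (h.symm.mono hq)⟩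

@[simp] lemma frc_pairF {z x y : ℕ} :
    Frc (pairF z x y) v p ↔ FEq (v z) (pr (v x) (v y)) p := by
  simp only [pairF, frc_all, frc_iff, frc_mem, frc_or, frc_doubF, cons_zero, cons_succ]
  constructor
  · intro h
    exact feq_ext fun z q hq => (h z q hq).trans fmem_dbN.symm
  · intro h z q hq
    rw [← fmem_dbN]
    exact ⟨fun h1 => h1.right (h.mono hq), fun h1 => h1.right (h.symm.mono hq)⟩

@[simp] lemma frc_appF {f x y : ℕ} : Frc (appF f x y) v p ↔ FApp (v f) (v x) (v y) p := by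
  simp only [appF, frc_ex, frc_and, frc_mem, frc_pairF, cons_zero, cons_succ]
  constructor
  · intro h
    exact FMem.of_dn (h.imp fun q _ ⟨z, h1, h2⟩ => ⟨q, le_rfl, h1.left h2⟩)
  · intro h
    exact Dn.of_all fun q hq => ⟨pr (v x) (v y), h.mono hq, FEq.refl _ _⟩

end frc

theorem max_principle {Φ : Nm P → P → Prop} (hm : ∀ x q r, Φ x q → r ≤ q → Φ x r)
    (he : ∀ x y q, Φ x q → FEq x y q → Φ y q) {p : P} (h : Dn (fun r => ∃ x, Φ x r) p) :
    ∃ x, Dn (Φ x) p := by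
  obtain ⟨A, hA⟩ := zorn_subset {A : Set P | (∀ r ∈ A, ∃ x, Φ x r) ∧
      ∀ r ∈ A, ∀ r' ∈ A, ∀ t, t ≤ r → t ≤ r' → r = r'} fun c hc hch =>
    ⟨⋃₀ c, ⟨fun r ⟨a, ha, hr⟩ => (hc ha).1 r hr, fun r ⟨a, ha, hr⟩ r' ⟨b, hb, hr'⟩ => by
      rcases hch.total ha hb with h | h
      exacts [(hc hb).2 r (h hr) r' hr', (hc ha).2 r hr r' (h hr')]⟩,
      fun s hs => Set.subset_sUnion_of_mem hs⟩
  choose w hw using hA.prop.1
  let x : Nm P := cname (ι := Σ r : A, (w r.1 r.2).I) (fun j => (w j.1.1 j.1.2).A j.2)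
    fun j q => q ≤ j.1.1 ∧ q ≤ (w j.1.1 j.1.2).c j.2
  have hx : ∀ r (hr : r ∈ A), FEq (w r hr) x r := fun r hr => by
    refine feq_of_children (fun i q h1 h2 => (fmem_cname _ _ _ _).2 (Dn.of_all fun t ht =>
      ⟨⟨⟨r, hr⟩, i⟩, q, ⟨h1, h2⟩, ht, FEq.refl _ _⟩)) ?_
    rintro ⟨⟨⟨⟨r', hr'⟩, i⟩, t⟩, h1, h2⟩ q h3 h4
    obtain rfl : r = r' := hA.prop.2 r hr r' hr' q h3 (le_trans h4 h1)
    exact FMem.child i (le_trans h4 h2)
  refine ⟨x, fun q hq => ?_⟩
  obtain ⟨r, hr, y, hy⟩ := h q hq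
  obtain ⟨a, ha, t, h1, h2⟩ : ∃ a ∈ A, ∃ t, t ≤ r ∧ t ≤ a := by
    by_contra hc
    push Not at hc
    have : insert r A ⊆ A := hA.le_of_ge (y := insert r A) ⟨?_, ?_⟩ (Set.subset_insert _ _)
    · exact hc r (this (Or.inl rfl)) r le_rfl le_rfl
    · rintro s (rfl | hs)
      exacts [⟨y, hy⟩, hA.prop.1 s hs]
    · rintro s (rfl | hs) s' (rfl | hs') t a b
      exacts [rfl, absurd b (hc _ hs' t a), absurd a (hc _ hs t b), hA.prop.2 s hs s' hs' t a b]
  exact ⟨t, h1.trans hr, he _ _ _ (hm _ _ _ (hw a ha) h2) ((hx a ha).mono h2)⟩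

/-- forced non-membership -/
def NMem (y x : Nm P) (p : P) : Prop := ∀ r, r ≤ p → ¬ FMem y x r

lemma NMem.mono {x y : Nm P} {p q : P} (h : NMem y x p) (hq : q ≤ p) : NMem y x q :=
  fun r hr => h r (hr.trans hq)

lemma dec_mem (y x : Nm P) (p : P) : ∃ q, q ≤ p ∧ (FMem y x q ∨ NMem y x q) := by
  by_cases h : ∃ q, q ≤ p ∧ FMem y x q
  · obtain ⟨q, h1, h2⟩ := h
    exact ⟨q, h1, Or.inl h2⟩
  · exact ⟨p, le_rfl, Or.inr fun r hr h' => h ⟨r, hr, h'⟩⟩

lemma exists_nmem {x y : Nm P} {p : P} (h : ¬ FMem y x p) : ∃ q, q ≤ p ∧ NMem y x q := by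
  by_contra hc
  refine h (FMem.of_dn fun q hq => ?_)
  by_contra hd
  exact hc ⟨q, hq, fun r hr h' => hd ⟨r, hr, h'⟩⟩

/-- the name of a natural number -/
noncomputable abbrev nn (n : ℕ) : Nm P := oc nlt n

/-- the name of the set of natural numbers -/
noncomputable abbrev om : Nm P := ocAll nlt

/-- the name of a sequence -/
noncomputable def seqN (z : ℕ → Nm P) : Nm P := .mk ℕ (fun n => pr (nn n) (z n)) fun _ => ⊤

lemma seqN_app (z : ℕ → Nm P) (n : ℕ) (p : P) : FApp (seqN z) (nn n) (z n) p :=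
  FMem.child (x := seqN z) n le_top

lemma seqN_fun {z : ℕ → Nm P} {n x y : Nm P} {p : P} (h1 : FApp (seqN z) n x p)
    (h2 : FApp (seqN z) n y p) : FEq x y p := by
  refine FEq.of_dn (Dn.imp h1 fun q hq ⟨i, _, a⟩ => ?_)
  obtain ⟨r, hr, j, _, b⟩ := h2 q hq
  have a' := pr_inj (a.mono hr)
  have b' := pr_inj b
  obtain rfl : i = j := oc_inj (r := nlt) (a'.1.symm.trans b'.1)
  exact ⟨r, hr, a'.2.trans b'.2.symm⟩

def funF (f : ℕ) : Fml :=
  all (all (all (imp (appF (f + 3) 2 1) (imp (appF (f + 3) 2 0) (eq 1 0)))))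

def cntF (a w : ℕ) : Fml :=
  ex (and (funF 0) (all (imp (mem 0 (a + 2)) (ex (and (mem 0 (w + 3)) (appF 2 0 1))))))

def sucF (s x : ℕ) : Fml := all (iff (mem 0 (s + 1)) (or (mem 0 (x + 1)) (eq 0 (x + 1))))

def omF (w : ℕ) : Fml :=
  and (ex (and (mem 0 (w + 1)) (all (not (mem 0 1)))))
    (and (all (imp (mem 0 (w + 1)) (ex (and (mem 0 (w + 2)) (sucF 0 1)))))
      (all (imp (mem 0 (w + 1)) (or (all (not (mem 0 1))) (ex (and (mem 0 (w + 2)) (sucF 1 0)))))))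

/-- forced: `f` is single-valued -/
def FFun (f : Nm P) (p : P) : Prop :=
  ∀ n x y q, q ≤ p → FApp f n x q → FApp f n y q → FEq x y q

/-- forced: `f` enumerates `a` -/
def FEnum (f a : Nm P) (p : P) : Prop :=
  FFun f p ∧ ∀ z q, q ≤ p → FMem z a q → Dn (fun r => ∃ n, FApp f (nn n) z r) q

variable {v : ℕ → Nm P} {p : P}

@[simp] lemma frc_funF {f : ℕ} : Frc (funF f) v p ↔ FFun (v f) p := by
  simp only [funF, frc_all, frc_imp, frc_appF, frc_eq, cons_zero, cons_succ]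
  exact ⟨fun h n x y q hq h1 h2 => h n x y q hq h1 q le_rfl h2,
    fun h n x y q hq h1 r hr h2 => h n x y r (hr.trans hq) (h1.mono hr) h2⟩

lemma frc_cntF {a w : ℕ} (hw : v w = om) :
    Frc (cntF a w) v p ↔ Dn (fun r => ∃ f, FEnum f (v a) r) p := by
  simp only [cntF, frc_ex, frc_and, frc_funF, frc_all, frc_imp, frc_mem, frc_appF, cons_zero,
    cons_succ, hw, FEnum]
  refine forall_congr' fun q => forall_congr' fun _ => exists_congr fun r => and_congr_right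
    fun _ => exists_congr fun f => and_congr_right fun _ => forall_congr' fun z =>
      forall_congr' fun s => forall_congr' fun _ => forall_congr' fun _ =>
        ⟨fun h => h.imp fun t _ ⟨n, h1, h2⟩ => ?_,
          fun h => h.imp fun t _ ⟨n, h1⟩ => ⟨t, le_rfl, nn n, oc_mem_all _ _, h1⟩⟩
  obtain ⟨u, hu, m, h3⟩ := (fmem_ocAll.1 h1).ex
  exact ⟨u, hu, m, (h2.mono hu).congr (FEq.refl _ _) h3 (FEq.refl _ _)⟩

lemma frc_sucF {s x : ℕ} {n : ℕ} (h1 : FEq (v s) (nn (n + 1)) p) (h2 : FEq (v x) (nn n) p) :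
    Frc (sucF s x) v p := by
  simp only [sucF, frc_all, frc_iff, frc_or, frc_mem, frc_eq, cons_zero, cons_succ]
  intro y t ht
  constructor
  · intro h
    refine (fmem_oc.1 (h.right (h1.mono ht))).imp fun u hu ⟨m, hm, h3⟩ => ⟨u, le_rfl, ?_⟩
    rcases Nat.lt_succ_iff_lt_or_eq.1 hm with h4 | h4
    · exact Or.inl (((oc_mem_oc (r := nlt) h4 u).left h3.symm).right
        (h2.symm.mono (hu.trans ht)))
    · exact Or.inr (h3.trans (h4 ▸ h2.symm.mono (hu.trans ht)))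
  · intro h
    refine FMem.right (fmem_oc.2 (h.imp fun u hu h3 => ?_)) (h1.symm.mono ht)
    rcases h3 with h3 | h3
    · obtain ⟨u', hu', m, hm, h4⟩ := (fmem_oc.1 (h3.right (h2.mono (hu.trans ht)))).ex
      exact ⟨u', hu', m, Nat.lt_succ_of_lt hm, h4⟩
    · exact ⟨u, le_rfl, n, Nat.lt_succ_self _, h3.trans (h2.mono (hu.trans ht))⟩

lemma frc_omF {w : ℕ} (hw : v w = om) : Frc (omF w) v p := by
  have h0 : ∀ (x y : Nm P) q, FEq y (nn 0) q → ∀ s, s ≤ q → ¬ FMem x y s := fun x y q h s hs hx => by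
    obtain ⟨_, _, u, hu, _⟩ := (fmem_oc.1 (hx.right (h.mono hs))).ex
    exact Nat.not_lt_zero _ hu
  simp only [omF, frc_and, frc_ex, frc_all, frc_imp, frc_not, frc_or, frc_mem, cons_zero, cons_succ,
    hw]
  refine ⟨Dn.of_all fun q _ => ⟨nn 0, oc_mem_all _ _, fun x => h0 x _ q (FEq.refl _ _)⟩,
    fun x q _ hx => (fmem_ocAll.1 hx).imp fun s _ ⟨n, hn⟩ =>
      ⟨s, le_rfl, nn (n + 1), oc_mem_all _ _, frc_sucF (FEq.refl _ _) hn⟩,
    fun x q _ hx => (fmem_ocAll.1 hx).imp fun s _ ⟨n, hn⟩ => ⟨s, le_rfl, ?_⟩⟩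
  cases n with
  | zero => exact Or.inl fun y => h0 y x s hn
  | succ n =>
    exact Or.inr (Dn.of_all fun t ht => ⟨nn n, oc_mem_all _ _, frc_sucF (hn.mono ht) (FEq.refl _ _)⟩)

end Pool.Agent.MP_5aa9a8_gt.H44
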