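import Pool.Agent.MP_5aa9a8_gt.H44.Side

/-! The forcing: finite orders with marked pairs and side conditions; amalgamation. -/

namespace Pool.Agent.MP_5aa9a8_gt.H44

open Set

variable {Λ : Type} [LinearOrder Λ]

/-- conditions -/
structure Cond (L : Lab Λ) where
  F : Set Λ
  le : Λ → Λ → Prop
  sm : Λ → Λ → Prop
  nd : Set (Set Λ)
  fin : F.Finite
  ndfin : nd.Finite
  dom : ∀ {a b}, le a b → a ∈ F ∧ b ∈ F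
  mon : ∀ {a b}, le a b → a ≤ b
  refl : ∀ {a}, a ∈ F → le a a
  trans : ∀ {a b c}, le a b → le b c → le a c
  sdom : ∀ {a b}, sm a b → a ∈ F ∧ b ∈ F
  srefl : ∀ {a}, a ∈ F → sm a a
  ssymm : ∀ {a b}, sm a b → sm b a
  sdown : ∀ {x y a b}, sm x y → le a x → le b y → sm a b
  bs : ∀ K ∈ nd, ∀ {x y c}, sm x y → x ∈ K → y ∈ K → le c x → le c y →
    ∃ w ∈ K, le c w ∧ le w x ∧ le w y
  cnt : ∀ K ∈ nd, K.Countable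
  cl : ∀ K ∈ nd, CL L K
  ad : ∀ K ∈ nd, ∀ K' ∈ nd, Ad L K K'

variable {L : Lab Λ}

/-- extension -/
structure Ext (r q : Cond L) : Prop where
  F : q.F ⊆ r.F
  nd : q.nd ⊆ r.nd
  le : ∀ {a b}, q.le a b → r.le a b
  sm : ∀ {a b}, q.sm a b → r.sm a b
  ip : ∀ {x y c}, q.sm x y → r.le c x → r.le c y → ∃ w, r.le c w ∧ q.le w x ∧ q.le w y

instance : Preorder (Cond L) where
  le := Ext
  le_refl p := ⟨Subset.rfl, Subset.rfl, id, id, fun _ h1 h2 => ⟨_, p.refl (p.dom h1).1, h1, h2⟩⟩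
  le_trans r q p h1 h2 := ⟨h2.F.trans h1.F, h2.nd.trans h1.nd, fun h => h1.le (h2.le h),
    fun h => h1.sm (h2.sm h), fun h a b => by
      obtain ⟨w, c1, c2, c3⟩ := h1.ip (h2.sm h) a b
      obtain ⟨w', d1, d2⟩ := h2.ip h c2 c3
      exact ⟨w', r.trans c1 (h1.le d1), d2⟩⟩

instance : OrderTop (Cond L) where
  top := ⟨∅, fun _ _ => False, fun _ _ => False, ∅, finite_empty, finite_empty, False.elim,
    False.elim, False.elim, False.elim, False.elim, False.elim, False.elim, False.elim,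
    fun _ h => h.elim, fun _ h => h.elim, fun _ h => h.elim, fun _ h => h.elim⟩
  le_top _ := ⟨empty_subset _, empty_subset _, False.elim, False.elim, False.elim⟩

lemma Cond.le_def {r q : Cond L} : r ≤ q ↔ Ext r q := Iff.rfl

/-- `q'` looks like a condition with trace `(R, l, s)` and small traces `𝒜` -/
structure Like (R : Set Λ) (l s : Set (Λ × Λ)) (𝒜 : Set (Set Λ)) (q' : Cond L) : Prop where
  sub : R ⊆ q'.F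
  le : ∀ a ∈ R, ∀ b ∈ R, q'.le a b ↔ (a, b) ∈ l
  sm : ∀ a ∈ R, ∀ b ∈ R, q'.sm a b ↔ (a, b) ∈ s
  ip : ∀ x ∈ R, ∀ y ∈ R, ∀ c, q'.sm x y → q'.le c x → q'.le c y →
    ∃ w ∈ R, q'.le c w ∧ q'.le w x ∧ q'.le w y
  el : ∀ A ∈ 𝒜, q'.F ∩ A ⊆ R ∧ ∀ K ∈ q'.nd, Ad L K A

/-- the small traces of the side conditions of `q` on `Q` -/
def Cond.tr (q : Cond L) (Q : Set Λ) : Set (Set Λ) :=
  {A | ∃ K ∈ q.nd, Cu L K Q ∧ El L Q K ∧ A = K ∩ Q}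

variable [WellFoundedLT Λ]

lemma like_self (q : Cond L) {Q : Set Λ} (hQ : Q ∈ q.nd) :
    Like (q.F ∩ Q) {x | x ∈ (q.F ∩ Q) ×ˢ (q.F ∩ Q) ∧ q.le x.1 x.2}
      {x | x ∈ (q.F ∩ Q) ×ˢ (q.F ∩ Q) ∧ q.sm x.1 x.2} (q.tr Q) q := by
  refine ⟨inter_subset_left, fun a ha b hb => ⟨fun h => ⟨⟨ha, hb⟩, h⟩, fun h => h.2⟩,
    fun a ha b hb => ⟨fun h => ⟨⟨ha, hb⟩, h⟩, fun h => h.2⟩, fun x hx y hy c h h1 h2 => ?_, ?_⟩
  · obtain ⟨w, hw, h3⟩ := q.bs Q hQ h hx.2 hy.2 h1 h2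
    exact ⟨w, ⟨(q.dom h3.1).2, hw⟩, h3⟩
  · rintro A ⟨K, hK, h1, _, rfl⟩
    exact ⟨fun x hx => ⟨hx.1, hx.2.2⟩,
      fun K0 h0 => ad_trace (q.cl K hK) (q.cl K0 h0) h1 (q.ad _ h0 _ hK)⟩

theorem amalg (q q' : Cond L) {Q : Set Λ} (hQ : Q ∈ q.nd) (hF : q'.F ⊆ Q)
    (hn : ∀ K ∈ q'.nd, In L K Q)
    (h : Like (q.F ∩ Q) {x | x ∈ (q.F ∩ Q) ×ˢ (q.F ∩ Q) ∧ q.le x.1 x.2}
      {x | x ∈ (q.F ∩ Q) ×ˢ (q.F ∩ Q) ∧ q.sm x.1 x.2} (q.tr Q) q') :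
    ∃ r, r ≤ q ∧ r ≤ q' := by
  have e1 : ∀ {a b}, a ∈ q.F → b ∈ q.F → q'.le a b → q.le a b := fun ha hb h1 =>
    ((h.le _ ⟨ha, hF (q'.dom h1).1⟩ _ ⟨hb, hF (q'.dom h1).2⟩).1 h1).2
  have e2 : ∀ {a b}, a ∈ q'.F → b ∈ q'.F → q.le a b → q'.le a b := fun ha hb h1 =>
    (h.le _ ⟨(q.dom h1).1, hF ha⟩ _ ⟨(q.dom h1).2, hF hb⟩).2
      ⟨⟨⟨(q.dom h1).1, hF ha⟩, (q.dom h1).2, hF hb⟩, h1⟩
  have e3 : ∀ {a b}, a ∈ q.F → b ∈ q.F → q'.sm a b → q.sm a b := fun ha hb h1 =>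
    ((h.sm _ ⟨ha, hF (q'.sdom h1).1⟩ _ ⟨hb, hF (q'.sdom h1).2⟩).1 h1).2
  have e4 : ∀ {a b}, a ∈ q'.F → b ∈ q'.F → q.sm a b → q'.sm a b := fun ha hb h1 =>
    (h.sm _ ⟨(q.sdom h1).1, hF ha⟩ _ ⟨(q.sdom h1).2, hF hb⟩).2
      ⟨⟨⟨(q.sdom h1).1, hF ha⟩, (q.sdom h1).2, hF hb⟩, h1⟩
  let le : Λ → Λ → Prop := fun a b => q.le a b ∨ q'.le a b ∨
    (∃ ρ, q.le a ρ ∧ q'.le ρ b) ∨ ∃ ρ, q'.le a ρ ∧ q.le ρ b
  have l11 : ∀ {a b}, a ∈ q.F → b ∈ q.F → le a b → q.le a b := by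
    rintro a b ha hb (h1 | h1 | ⟨ρ, h1, h2⟩ | ⟨ρ, h1, h2⟩)
    exacts [h1, e1 ha hb h1, q.trans h1 (e1 (q.dom h1).2 hb h2),
      q.trans (e1 ha (q.dom h2).1 h1) h2]
  have l22 : ∀ {a b}, a ∈ q'.F → b ∈ q'.F → le a b → q'.le a b := by
    rintro a b ha hb (h1 | h1 | ⟨ρ, h1, h2⟩ | ⟨ρ, h1, h2⟩)
    exacts [e2 ha hb h1, h1, q'.trans (e2 ha (q'.dom h2).1 h1) h2,
      q'.trans h1 (e2 (q'.dom h1).2 hb h2)]
  have l12 : ∀ {a b}, a ∈ q.F → b ∈ q'.F → le a b → ∃ ρ, q.le a ρ ∧ q'.le ρ b := by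
    rintro a b ha hb (h1 | h1 | h1 | ⟨ρ, h1, h2⟩)
    exacts [⟨b, h1, q'.refl hb⟩, ⟨a, q.refl ha, h1⟩, h1,
      ⟨b, q.trans (e1 ha (q.dom h2).1 h1) h2, q'.refl hb⟩]
  have l21 : ∀ {a b}, a ∈ q'.F → b ∈ q.F → le a b → ∃ ρ, q'.le a ρ ∧ q.le ρ b := by
    rintro a b ha hb (h1 | h1 | ⟨ρ, h1, h2⟩ | h1)
    exacts [⟨a, q'.refl ha, h1⟩, ⟨b, h1, q.refl hb⟩,
      ⟨b, q'.trans (e2 ha (q'.dom h2).1 h1) h2, q.refl hb⟩, h1]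
  have ldom : ∀ {a b}, le a b → a ∈ q.F ∪ q'.F ∧ b ∈ q.F ∪ q'.F := by
    rintro a b (h1 | h1 | ⟨ρ, h1, h2⟩ | ⟨ρ, h1, h2⟩)
    exacts [⟨Or.inl (q.dom h1).1, Or.inl (q.dom h1).2⟩, ⟨Or.inr (q'.dom h1).1, Or.inr (q'.dom h1).2⟩,
      ⟨Or.inl (q.dom h1).1, Or.inr (q'.dom h2).2⟩, ⟨Or.inr (q'.dom h1).1, Or.inl (q.dom h2).2⟩]
  have lmon : ∀ {a b}, le a b → a ≤ b := by
    rintro a b (h1 | h1 | ⟨ρ, h1, h2⟩ | ⟨ρ, h1, h2⟩)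
    exacts [q.mon h1, q'.mon h1, (q.mon h1).trans (q'.mon h2), (q'.mon h1).trans (q.mon h2)]
  have lrefl : ∀ {a}, a ∈ q.F ∪ q'.F → le a a := by
    rintro a (h1 | h1)
    exacts [Or.inl (q.refl h1), Or.inr (Or.inl (q'.refl h1))]
  have t1 : ∀ {a b c}, le a b → q.le b c → le a c := by
    intro a b c h1 h2
    rcases (ldom h1).1 with ha | ha
    · exact Or.inl (q.trans (l11 ha (q.dom h2).1 h1) h2)
    · obtain ⟨ρ, h3, h4⟩ := l21 ha (q.dom h2).1 h1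
      exact Or.inr (Or.inr (Or.inr ⟨ρ, h3, q.trans h4 h2⟩))
  have t2 : ∀ {a b c}, le a b → q'.le b c → le a c := by
    intro a b c h1 h2
    rcases (ldom h1).1 with ha | ha
    · obtain ⟨ρ, h3, h4⟩ := l12 ha (q'.dom h2).1 h1
      exact Or.inr (Or.inr (Or.inl ⟨ρ, h3, q'.trans h4 h2⟩))
    · exact Or.inr (Or.inl (q'.trans (l22 ha (q'.dom h2).1 h1) h2))
  have ltrans : ∀ {a b c}, le a b → le b c → le a c := by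
    rintro a b c h0 (h1 | h1 | ⟨ρ, h1, h2⟩ | ⟨ρ, h1, h2⟩)
    exacts [t1 h0 h1, t2 h0 h1, t2 (t1 h0 h1) h2, t1 (t2 h0 h1) h2]
  let sm : Λ → Λ → Prop := fun a b => ∃ x y, (q.sm x y ∨ q'.sm x y) ∧ le a x ∧ le b y
  have s1 : ∀ {a b}, a ∈ q.F → b ∈ q.F → sm a b → q.sm a b := by
    rintro a b ha hb ⟨x, y, h0 | h0, h1, h2⟩
    · exact q.sdown h0 (l11 ha (q.sdom h0).1 h1) (l11 hb (q.sdom h0).2 h2)
    · obtain ⟨ρ, a1, a2⟩ := l12 ha (q'.sdom h0).1 h1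
      obtain ⟨ρ', b1, b2⟩ := l12 hb (q'.sdom h0).2 h2
      exact q.sdown (e3 (q.dom a1).2 (q.dom b1).2 (q'.sdown h0 a2 b2)) a1 b1
  have s2 : ∀ {a b}, a ∈ q'.F → b ∈ q'.F → sm a b → q'.sm a b := by
    rintro a b ha hb ⟨x, y, h0 | h0, h1, h2⟩
    · obtain ⟨ρ, a1, a2⟩ := l21 ha (q.sdom h0).1 h1
      obtain ⟨ρ', b1, b2⟩ := l21 hb (q.sdom h0).2 h2
      exact q'.sdown (e4 (q'.dom a1).2 (q'.dom b1).2 (q.sdown h0 a2 b2)) a1 b1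
    · exact q'.sdown h0 (l22 ha (q'.sdom h0).1 h1) (l22 hb (q'.sdom h0).2 h2)
  have ssymm : ∀ {a b}, sm a b → sm b a := fun ⟨x, y, h0, h1, h2⟩ =>
    ⟨y, x, h0.imp q.ssymm q'.ssymm, h2, h1⟩
  have sdown : ∀ {x y a b}, sm x y → le a x → le b y → sm a b := fun ⟨x, y, h0, h1, h2⟩ a b =>
    ⟨x, y, h0, ltrans a h1, ltrans b h2⟩
  have i1 : ∀ {x y c}, q.sm x y → le c x → le c y → ∃ w, le c w ∧ q.le w x ∧ q.le w y := by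
    intro x y c h0 h1 h2
    rcases (ldom h1).1 with hc | hc
    · exact ⟨c, Or.inl (q.refl hc), l11 hc (q.sdom h0).1 h1, l11 hc (q.sdom h0).2 h2⟩
    · obtain ⟨ρ, a1, a2⟩ := l21 hc (q.sdom h0).1 h1
      obtain ⟨ρ', b1, b2⟩ := l21 hc (q.sdom h0).2 h2
      obtain ⟨w, hw, c1, c2, c3⟩ := h.ip ρ ⟨(q.dom a2).1, hF (q'.dom a1).2⟩ ρ'
        ⟨(q.dom b2).1, hF (q'.dom b1).2⟩ c
        (e4 (q'.dom a1).2 (q'.dom b1).2 (q.sdown h0 a2 b2)) a1 b1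
      exact ⟨w, Or.inr (Or.inl c1), q.trans (e1 hw.1 (q.dom a2).1 c2) a2,
        q.trans (e1 hw.1 (q.dom b2).1 c3) b2⟩
  have i2 : ∀ {x y c}, q'.sm x y → le c x → le c y → ∃ w, le c w ∧ q'.le w x ∧ q'.le w y := by
    intro x y c h0 h1 h2
    rcases (ldom h1).1 with hc | hc
    · obtain ⟨ρ, a1, a2⟩ := l12 hc (q'.sdom h0).1 h1
      obtain ⟨ρ', b1, b2⟩ := l12 hc (q'.sdom h0).2 h2
      obtain ⟨w, hw, c1, c2, c3⟩ := q.bs Q hQ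
        (e3 (q.dom a1).2 (q.dom b1).2 (q'.sdown h0 a2 b2)) (hF (q'.dom a2).1) (hF (q'.dom b2).1)
        a1 b1
      have hw' : w ∈ q'.F := h.sub ⟨(q.dom c1).2, hw⟩
      exact ⟨w, Or.inl c1, q'.trans (e2 hw' (q'.dom a2).1 c2) a2,
        q'.trans (e2 hw' (q'.dom b2).1 c3) b2⟩
    · exact ⟨c, Or.inr (Or.inl (q'.refl hc)), l22 hc (q'.sdom h0).1 h1, l22 hc (q'.sdom h0).2 h2⟩
  have dich : ∀ K ∈ q.nd, Cu L Q K ∨ (Cu L K Q ∧ K ∩ Q ∈ q.tr Q) := fun K hK => by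
    rcases q.ad K hK Q hQ with h1 | h1 | h1
    exacts [Or.inr ⟨h1.1, K, hK, h1.1, h1.2, rfl⟩, Or.inl h1.1, Or.inl h1.2]
  have b1 : ∀ K ∈ q.nd, ∀ {x y c}, x ∈ q.F → y ∈ q.F → sm x y → x ∈ K → y ∈ K → le c x → le c y →
      ∃ w ∈ K, le c w ∧ le w x ∧ le w y := by
    intro K hK x y c hx hy h0 a b h1 h2
    obtain ⟨w, c1, c2, c3⟩ := i1 (s1 hx hy h0) h1 h2
    obtain ⟨w', d0, d1, d2, d3⟩ := q.bs K hK (s1 hx hy h0) a b c2 c3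
    exact ⟨w', d0, t1 c1 d1, Or.inl d2, Or.inl d3⟩
  have b3 : ∀ K ∈ q.nd, ∀ {x y c}, x ∈ q'.F → y ∈ q.F → sm x y → x ∈ K → y ∈ K → le c x → le c y →
      ∃ w ∈ K, le c w ∧ le w x ∧ le w y := by
    intro K hK x y c hx hy h0 a b h1 h2
    rcases dich K hK with hc | hc
    · rcases (ldom h1).1 with hc' | hc'
      · obtain ⟨ρ, a1, a2⟩ := l12 hc' hx h1
        have hρ : ρ ∈ K := hc.1 ρ (hF (q'.dom a2).1) x (hF hx) a (q'.mon a2)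
        obtain ⟨w, d0, d1, d2, d3⟩ := b1 K hK (q.dom a1).2 hy
          (sdown h0 (Or.inr (Or.inl a2)) (lrefl (Or.inl hy))) hρ b (Or.inl a1) h2
        exact ⟨w, d0, d1, t2 d2 a2, d3⟩
      · exact ⟨c, hc.1 c (hF hc') x (hF hx) a (lmon h1), lrefl (Or.inr hc'), h1, h2⟩
    · exact b1 K hK ((h.el _ hc.2).1 ⟨hx, a, hF hx⟩).1 hy h0 a b h1 h2
  have adn : ∀ K ∈ q.nd, ∀ K' ∈ q'.nd, Ad L K' K := fun K hK K' hK' => by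
    rcases dich K hK with hc | hc
    · exact ad_new_cut hc (hn K' hK')
    · exact ad_new_el (q.cl K hK) hc.1 (hn K' hK').1 ((h.el _ hc.2).2 K' hK')
  refine ⟨⟨q.F ∪ q'.F, le, sm, q.nd ∪ q'.nd, q.fin.union q'.fin, q.ndfin.union q'.ndfin, ldom, lmon,
    lrefl, ltrans, fun ⟨x, y, _, h1, h2⟩ => ⟨(ldom h1).1, (ldom h2).1⟩,
    fun {a} ha => ⟨a, a, ha.imp q.srefl q'.srefl, lrefl ha, lrefl ha⟩, ssymm, sdown, ?_,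
    fun K hK => hK.elim (q.cnt K) (q'.cnt K), fun K hK => hK.elim (q.cl K) (q'.cl K), ?_⟩,
    ⟨subset_union_left, subset_union_left, Or.inl, fun {a b} h0 => ⟨a, b, Or.inl h0,
      Or.inl (q.refl (q.sdom h0).1), Or.inl (q.refl (q.sdom h0).2)⟩, i1⟩,
    ⟨subset_union_right, subset_union_right, fun h0 => Or.inr (Or.inl h0), fun {a b} h0 =>
      ⟨a, b, Or.inr h0, Or.inr (Or.inl (q'.refl (q'.sdom h0).1)),
        Or.inr (Or.inl (q'.refl (q'.sdom h0).2))⟩, i2⟩⟩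
  · intro K hK x y c h0 a b h1 h2
    rcases hK with hK | hK
    · rcases (ldom h1).2 with hx | hx <;> rcases (ldom h2).2 with hy | hy
      · exact b1 K hK hx hy h0 a b h1 h2
      · obtain ⟨w, d0, d1, d2, d3⟩ := b3 K hK hy hx (ssymm h0) b a h2 h1
        exact ⟨w, d0, d1, d3, d2⟩
      · exact b3 K hK hx hy h0 a b h1 h2
      · rcases dich K hK with hc | hc
        · obtain ⟨w, c1, c2, c3⟩ := i2 (s2 hx hy h0) h1 h2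
          exact ⟨w, hc.1 w (hF (q'.dom c2).1) x (hF hx) a (q'.mon c2), c1, Or.inr (Or.inl c2),
            Or.inr (Or.inl c3)⟩
        · exact b3 K hK hx ((h.el _ hc.2).1 ⟨hy, b, hF hy⟩).1 h0 a b h1 h2
    · have hx : x ∈ q'.F := (ldom h1).2.elim (fun hx => h.sub ⟨hx, (hn K hK).1 a⟩) id
      have hy : y ∈ q'.F := (ldom h2).2.elim (fun hy => h.sub ⟨hy, (hn K hK).1 b⟩) id
      obtain ⟨w, c1, c2, c3⟩ := i2 (s2 hx hy h0) h1 h2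
      obtain ⟨w', d0, d1, d2, d3⟩ := q'.bs K hK (s2 hx hy h0) a b c2 c3
      exact ⟨w', d0, t2 c1 d1, Or.inr (Or.inl d2), Or.inr (Or.inl d3)⟩
  · rintro K (hK | hK) K' (hK' | hK')
    exacts [q.ad K hK K' hK', (adn K hK K' hK').symm, adn K' hK' K hK, q'.ad K hK K' hK']

end Pool.Agent.MP_5aa9a8_gt.H44
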