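import Pool.Agent.MP_5aa9a8_gt.H44.Space

/-! The generic space has a small diagonal and no countable family of uniform covers separates
its points. -/

namespace Pool.Agent.MP_5aa9a8_gt.H44

open Set

set_option linter.unusedSectionVars false
set_option linter.unusedVariables false

variable {Λ : Type} [LinearOrder Λ] [WellFoundedLT Λ] {L : Lab Λ}

/-- forced: `η` lies in `x` and not in `y` -/
def Sp (η : Λ) (x y : Nm (Cond L)) (r : Cond L) : Prop := FMem (lb η) x r ∧ NMem (lb η) y r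

lemma exists_sp {x y : Nm (Cond L)} {q : Cond L} (hx : InX x q) (hy : InX y q) (h : ¬ FEq x y q) :
    ∃ r, r ≤ q ∧ ∃ η, Sp η x y r ∨ Sp η y x r := by
  by_contra hc
  refine h (feq_of_lb hx.1 hy.1 fun η r hr => ⟨fun h1 => ?_, fun h1 => ?_⟩) <;> by_contra h2 <;>
    obtain ⟨s, hs, h3⟩ := exists_nmem h2
  exacts [hc ⟨s, hs.trans hr, η, Or.inl ⟨h1.mono hs, h3⟩⟩,
    hc ⟨s, hs.trans hr, η, Or.inr ⟨h1.mono hs, h3⟩⟩]

/-- the basic clopen set of the points `y` with `η ∈ y ↔ b` -/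
noncomputable def bas (η : Λ) (b : Prop) : Nm (Cond L) :=
  sub fun S r => InX (pt S) r ∧ Dec (pt S) (fun _ => b) η r

lemma fmem_bas {η : Λ} {b : Prop} {y : Nm (Cond L)} {q : Cond L} :
    FMem y (bas η b) q ↔ InX y q ∧ Dec y (fun _ => b) η q :=
  fmem_sub (Ψ := fun y r => InX y r ∧ Dec y (fun _ => b) η r)
    ⟨fun h hr => ⟨h.1.mono hr, h.2.mono hr⟩,
      fun h => ⟨reg_inX.dn (h.imp fun s _ h => ⟨s, le_rfl, h.1⟩), dec_of_iff fun r hr =>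
        ⟨fun h1 => by
          obtain ⟨s, hs, h2⟩ := h r hr
          exact (h2.2.iff le_rfl).1 (h1.mono hs),
        fun h1 => FMem.of_dn ((h.mono hr).imp fun s _ h2 => ⟨s, le_rfl, (h2.2.iff le_rfl).2 h1⟩)⟩⟩,
      fun h e => ⟨reg_inX.congr h.1 e, h.2.imp (fun h => ⟨h.1, h.2.right e⟩)
        fun h => ⟨h.1, h.2.right e⟩⟩⟩ fun _ _ h => h.1

lemma inT_bas (η : Λ) (b : Prop) (q : Cond L) : InT (bas η b) q := fun z r _ hz =>
  ⟨(fmem_bas.1 hz).1, Dn.of_all fun s hs => ⟨{η}, finite_singleton _, fun y t ht hy h =>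
    fmem_bas.2 ⟨hy, dec_of_iff fun u hu => (h η rfl u hu).symm.trans
      ((fmem_bas.1 hz).2.iff (hu.trans (ht.trans hs)))⟩⟩⟩

/-- the point of all labels above `ζ` -/
noncomputable def upN (ζ : Λ) : Nm (Cond L) := pt fun η r => r.le ζ η

lemma fmem_upN {ζ η : Λ} {r : Cond L} : FMem (lb η) (upN ζ) r ↔ Dn (fun s => s.le ζ η) r :=
  fmem_pt (S := fun η r => r.le ζ η) fun _ _ _ h hr => hr.le h

lemma Pat.mono {x : Nm (Cond L)} {μ η : Λ} {q r : Cond L} (h : Pat x μ η q) (hr : r ≤ q) :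
    Pat x μ η r :=
  h.imp (fun h => ⟨h.1.mono hr, hr.le h.2⟩) fun h => ⟨h.1.mono hr, fun s hs => h.2 s (hs.trans hr)⟩

lemma inX_upN {ζ : Λ} {q : Cond L} (h : ζ ∈ q.F) : InX (upN ζ) q := by
  refine ⟨fun _ _ _ => pt_sub, fun a ha => ?_⟩
  have : Dn (fun r => ∀ η ∈ a, Pat (upN ζ) ζ η r) q := by
    induction a, ha using Finite.induction_on with
    | empty => exact Dn.of_all fun r hr _ h => h.elim
    | @insert ξ a _ _ ih =>
      refine ih.imp fun r hr h1 => ?_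
      obtain ⟨s, hs, h2⟩ : ∃ s, s ≤ r ∧ Pat (upN ζ) ζ ξ s := by
        by_cases h2 : ∃ s, s ≤ r ∧ s.le ζ ξ
        · obtain ⟨s, hs, h3⟩ := h2
          exact ⟨s, hs, Or.inl ⟨fmem_upN.2 (Dn.of_all fun t ht => ht.le h3), h3⟩⟩
        · refine ⟨r, le_rfl, Or.inr ⟨fun s hs h3 => ?_, fun s hs h3 => h2 ⟨s, hs, h3⟩⟩⟩
          obtain ⟨t, ht, h4⟩ := (fmem_upN.1 h3).ex
          exact h2 ⟨t, ht.trans hs, h4⟩
      refine ⟨s, hs, ?_⟩
      rintro η (rfl | hη)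
      exacts [h2, (h1 η hη).mono hs]
  exact this.imp fun r hr h1 => ⟨r, le_rfl, ζ, hr.F h, h1⟩

lemma nbhd {x U : Nm (Cond L)} {q : Cond L} (hU : InT U q) (hx : FMem x U q) :
    ∃ r, r ≤ q ∧ ∃ a : Set Λ, a.Finite ∧ ∃ t, (∀ η ∈ a, Dec x t η r) ∧
      ∀ y s, s ≤ r → InX y s → (∀ η ∈ a, Dec y t η s) → FMem y U s := by
  obtain ⟨r, hr, a, ha, h1⟩ := (hU x q le_rfl hx).2.ex
  obtain ⟨s, hs, h2⟩ := exists_dec x ha r
  exact ⟨s, hs.trans hr, a, ha, _, h2, fun y u hu hy h3 => h1 y u (hu.trans hs) hy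
    fun η hη w hw => ((h2 η hη).iff (hw.trans hu)).trans ((h3 η hη).iff hw).symm⟩

theorem compact {C : Nm (Cond L)} {p : Cond L} (h1 : ∀ U r, r ≤ p → FMem U C r → InT U r)
    (h2 : ∀ x r, r ≤ p → InX x r → Dn (fun s => ∃ U, FMem U C s ∧ FMem x U s) r) :
    Dn (fun r => ∃ (k : ℕ) (z : ℕ → Nm (Cond L)), ∀ x s, s ≤ r → InX x s →
      Dn (fun u => ∃ m, m < k ∧ FMem (z m) C u ∧ FMem x (z m) u) s) p := by
  refine (cover (G := fun a t r => ∃ U, FMem U C r ∧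
      ∀ y s, s ≤ r → InX y s → (∀ η ∈ a, Dec y t η s) → FMem y U s)
    (fun a t q r ⟨U, a1, a2⟩ hr => ⟨U, a1.mono hr, fun y s hs => a2 y s (hs.trans hr)⟩)
    fun x q hq hx => (h2 x q hq hx).imp fun r hr ⟨U, a1, a2⟩ => ?_).imp
      fun r hr ⟨F, f1, f2, f3⟩ => ⟨r, le_rfl, ?_⟩
  · obtain ⟨s, hs, a, ha, t, b1, b2⟩ := nbhd (h1 U r (hr.trans hq) a1) a2
    exact ⟨s, hs, a, ha, t, b1, U, a1.mono hs, b2⟩
  · have : Nonempty (Nm (Cond L)) := ⟨emp⟩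
    choose! U u1 u2 using fun b hb => (f2 b hb).2
    obtain ⟨k, g, hg⟩ := f1.fin_embedding
    refine ⟨k, fun m => if h : m < k then U (g ⟨m, h⟩) else emp, fun x s hs hx =>
      (f3 x s hs hx fun _ h => h.elim).imp fun u hu ⟨b, hb, h3⟩ => ⟨u, le_rfl, ?_⟩⟩
    obtain ⟨m, rfl⟩ : b ∈ range g := hg ▸ hb
    refine ⟨m.1, m.2, ?_⟩
    simp only [dif_pos m.2]
    exact ⟨(u1 _ hb).mono (hu.trans hs), u2 _ hb x u (hu.trans hs) (hx.mono hu) h3⟩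

theorem no_metric {far : ℕ → Nm (Cond L) → Nm (Cond L) → Cond L → Prop}
    (hm : ∀ n y z q r, far n y z q → r ≤ q → far n y z r) {p : Cond L}
    (h1 : ∀ n x q, q ≤ p → InX x q → Dn (fun r => ∃ V, InT V r ∧ FMem x V r ∧
      ∀ y z s, s ≤ r → FMem y V s → FMem z V s → ¬ far n y z s) q)
    (h2 : ∀ x y q, q ≤ p → InX x q → InX y q → (∀ r, r ≤ q → ¬ FEq x y r) →
      Dn (fun r => ∃ n, far n x y r) q) : False := by
  let Φ : ℕ → Cond L → Set Λ → Prop := fun n r a => a.Finite ∧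
    ∀ y z s, s ≤ r → InX y s → InX z s → Agr a y z s → ¬ far n y z s
  have hΦ : ∀ n, Dn (fun r => ∃ a, Φ n r a) p := fun n => by
    refine (cover (G := fun a t r => ∀ y z s, s ≤ r → InX y s → InX z s →
        (∀ η ∈ a, Dec y t η s) → (∀ η ∈ a, Dec z t η s) → ¬ far n y z s)
      (fun a t q r h hr y z s hs => h y z s (hs.trans hr))
      fun x q hq hx => (h1 n x q hq hx).imp fun r hr ⟨V, a1, a2, a3⟩ => ?_).imp
        fun r hr ⟨F, f1, f2, f3⟩ => ⟨r, le_rfl, ⋃ b ∈ F, b.1,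
          f1.biUnion fun b hb => (f2 b hb).1, fun y z s hs hy hz ha hf => ?_⟩
    · obtain ⟨s, hs, a, ha, t, b1, b2⟩ := nbhd a1 a2
      exact ⟨s, hs, a, ha, t, b1, fun y z u hu hy hz c1 c2 =>
        a3 y z u (hu.trans hs) (b2 y u hu hy c1) (b2 z u hu hz c2)⟩
    · obtain ⟨u, hu, b, hb, h3⟩ := (f3 y s hs hy fun _ h => h.elim).ex
      exact (f2 b hb).2 y z u (hu.trans hs) (hy.mono hu) (hz.mono hu) h3
        (fun η hη => dec_of_iff fun w hw =>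
          (ha η (mem_biUnion hb hη) w (hw.trans hu)).symm.trans ((h3 η hη).iff hw))
        (hm _ _ _ _ _ hf hu)
  obtain ⟨q, hq, ζ₁, ζ₂, lt, z1, z2, h3⟩ := exists_far Φ (fun _ _ _ h => h.1) p
  have nm : ∀ ζ η (s : Cond L), η < ζ → ¬ FMem (lb η) (upN ζ) s := fun ζ η s h h' => by
    obtain ⟨t, _, h4⟩ := (fmem_upN.1 h').ex
    exact absurd (t.mon h4) (not_le.2 h)
  obtain ⟨r, hr, n, h4⟩ := (h2 _ _ q hq (inX_upN z1) (inX_upN z2) fun r hr e =>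
    nm ζ₂ ζ₁ r lt ((fmem_upN.2 (Dn.of_all fun t ht =>
      t.refl ((ht.trans hr).F z1))).right e)).ex
  obtain ⟨s, hs, a, h5⟩ := hΦ n r (hr.trans hq)
  obtain ⟨q', a', t, b1, b2, b3, b4⟩ := h3 s (hs.trans hr) n a h5
  have ht : t ≤ q := b3.trans (hs.trans hr)
  exact b1.2 _ _ t b4 ((inX_upN z1).mono ht) ((inX_upN z2).mono ht)
    (fun η hη u _ => iff_of_false (nm _ _ _ (b2 η hη)) (nm _ _ _ ((b2 η hη).trans lt)))
    (hm _ _ _ _ _ h4 (b3.trans hs))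

/-- the neighbourhood of the diagonal of all pairs that agree at `η` -/
noncomputable def UN (η : Λ) : Nm (Cond L) :=
  cname (fun S : (Λ → Cond L → Prop) × (Λ → Cond L → Prop) => pr (pt S.1) (pt S.2))
    fun S q => InX (pt S.1) q ∧ InX (pt S.2) q ∧ Agr {η} (pt S.1) (pt S.2) q

lemma Agr.congr {a : Set Λ} {x y x' y' : Nm (Cond L)} {q : Cond L} (h : Agr a x y q)
    (e1 : FEq x x' q) (e2 : FEq y y' q) : Agr a x' y' q := fun η hη s hs =>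
  ⟨fun h1 => ((h η hη s hs).1 (h1.right (e1.symm.mono hs))).right (e2.mono hs),
    fun h1 => ((h η hη s hs).2 (h1.right (e2.symm.mono hs))).right (e1.mono hs)⟩

lemma fmem_UN {η : Λ} {z : Nm (Cond L)} {q : Cond L} (h : FMem z (UN η) q) :
    Dn (fun r => ∃ x y, InX x r ∧ InX y r ∧ Agr {η} x y r ∧ FEq z (pr x y) r) q :=
  ((fmem_cname _ _ _ _).1 h).imp fun r _ ⟨S, s, h1, h2, e⟩ => ⟨r, le_rfl, _, _, h1.1.mono h2,
    h1.2.1.mono h2, fun ξ hξ t ht => h1.2.2 ξ hξ t (ht.trans h2), e⟩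

lemma fapp_UN {η : Λ} {x y : Nm (Cond L)} {q : Cond L} (hx : InX x q) (hy : InX y q)
    (h : Agr {η} x y q) : FApp (UN η) x y q :=
  (fmem_cname _ _ _ _).2 (Dn.of_all fun r hr => ⟨(_, _), q, ⟨reg_inX.congr hx hx.rep,
    reg_inX.congr hy hy.rep, h.congr hx.rep hy.rep⟩, hr, (pr_congr hx.rep hy.rep).mono hr⟩)

lemma UN_sp {η : Λ} {x y : Nm (Cond L)} {q : Cond L} (h : Sp η x y q ∨ Sp η y x q) :
    NMem (pr x y) (UN η) q := fun r hr h1 => by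
  obtain ⟨s, hs, x', y', _, _, h2, e⟩ := (fmem_UN h1).ex
  have h3 := h2.congr (pr_inj e).1.symm (pr_inj e).2.symm η rfl s le_rfl
  rcases h with h | h
  exacts [h.2 s (hs.trans hr) (h3.1 (h.1.mono (hs.trans hr))),
    h.2 s (hs.trans hr) (h3.2 (h.1.mono (hs.trans hr)))]

/-- the difference of two sets -/
noncomputable def difN (A U : Nm (Cond L)) : Nm (Cond L) :=
  cname A.A fun i q => FMem (A.A i) A q ∧ NMem (A.A i) U q

lemma fmem_difN {A U z : Nm (Cond L)} {q : Cond L} :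
    FMem z (difN A U) q ↔ FMem z A q ∧ NMem z U q := by
  rw [difN, fmem_cname]
  refine ⟨fun h => ⟨FMem.of_dn (h.imp fun r _ ⟨i, s, h1, h2, e⟩ =>
      ⟨r, le_rfl, (h1.1.mono h2).left e.symm⟩), NMem.of_dn (h.imp fun r _ ⟨i, s, h1, h2, e⟩ =>
      ⟨r, le_rfl, fun t ht h3 => h1.2 t (ht.trans h2) (h3.left (e.mono ht))⟩)⟩,
    fun h => Dn.imp h.1 fun r hr ⟨i, _, e⟩ => ⟨r, le_rfl, i, r, ⟨(h.1.mono hr).left e,
      fun t ht h3 => h.2 t (ht.trans hr) (h3.left (e.symm.mono ht))⟩, le_rfl, e⟩⟩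

lemma split_step {x y : Nm (Cond L)} {ζ η₁ η₂ : Λ} {s : Cond L} (hx : InX x s) (hy : InX y s)
    (h : Sp ζ x y s) (hg : ∀ r, r ≤ s → ∀ μ, r.le μ ζ ↔ r.le μ η₁ ∧ r.le μ η₂) :
    ∃ r, r ≤ s ∧ ∃ η, (η = η₁ ∨ η = η₂) ∧ Sp η x y r := by
  obtain ⟨r, hr, μ, _, a⟩ := (hx.2 {ζ, η₁, η₂} (toFinite _)).ex
  obtain ⟨t, ht, ν, _, b⟩ := hy.2 {ζ, η₁, η₂} (toFinite _) r hr
  have a0 := (hg r hr μ).1 ((a ζ (by simp)).resolve_right
    fun h' => h'.1 r le_rfl (h.1.mono hr)).2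
  have a1 := ((a η₁ (by simp)).resolve_right fun h' => h'.2 r le_rfl a0.1).1
  have a2 := ((a η₂ (by simp)).resolve_right fun h' => h'.2 r le_rfl a0.2).1
  have b0 := ((b ζ (by simp)).resolve_left fun h' => h.2 t (ht.trans hr) h'.1).2 t le_rfl
  rcases b η₁ (by simp) with b1 | b1
  · rcases b η₂ (by simp) with b2 | b2
    · exact absurd ((hg t (ht.trans hr) ν).2 ⟨b1.2, b2.2⟩) b0
    · exact ⟨t, ht.trans hr, η₂, Or.inr rfl, a2.mono ht, b2.1⟩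
  · exact ⟨t, ht.trans hr, η₁, Or.inl rfl, a1.mono ht, b1.1⟩

theorem small_diag {A : Nm (Cond L)} {p : Cond L}
    (h1 : ∀ z q, q ≤ p → FMem z A q → Dn (fun r => ∃ x y, InX x r ∧ InX y r ∧
      (∀ s, s ≤ r → ¬ FEq x y s) ∧ FEq z (pr x y) r) q)
    (h2 : ∀ q, q ≤ p → ∀ f, ¬ FEnum f A q) :
    Dn (fun r => ∃ η, ∀ s, s ≤ r → ∀ f, ¬ FEnum f (difN A (UN η)) s) p := by
  intro q hq
  by_contra hc
  push Not at hc
  have em : ∀ {B : Nm (Cond L)} f q r, FEnum f B q → r ≤ q → FEnum f B r := fun f q r h hr =>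
    ⟨fun n x y s hs => h.1 n x y s (hs.trans hr), fun z s hs => h.2 z s (hs.trans hr)⟩
  have hf : ∀ η, ∃ f, Dn (FEnum f (difN A (UN η))) q := fun η =>
    max_principle em (fun f g r h e => ⟨fun n x y s hs a b => h.1 n x y s hs
        (a.congr (e.symm.mono hs) (FEq.refl _ _) (FEq.refl _ _))
        (b.congr (e.symm.mono hs) (FEq.refl _ _) (FEq.refl _ _)),
      fun z s hs hz => (h.2 z s hs hz).imp fun t ht ⟨n, a⟩ => ⟨t, le_rfl, n,
        a.congr (e.mono (ht.trans hs)) (FEq.refl _ _) (FEq.refl _ _)⟩⟩)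
      fun r hr => hc r hr η
  choose f hf using hf
  have step : ∀ (α : Λ) (g : ∀ β, β < α → Nm (Cond L)), ∃ z, α < L.w1 →
      Dn (fun r => FMem z A r ∧ ∀ β h, ∀ s, s ≤ r → ¬ FEq z (g β h) s) q := fun α g => by
    by_cases hα : α < L.w1
    swap
    · exact ⟨emp, fun h => absurd h hα⟩
    have : Nonempty Λ := ⟨α⟩
    obtain ⟨e, he⟩ := countable_iff_exists_subset_range.1 (L.ctb α hα)
    obtain ⟨z, hz⟩ := max_principle (p := q)
      (Φ := fun z r => FMem z A r ∧ ∀ β h, ∀ s, s ≤ r → ¬ FEq z (g β h) s)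
      (fun z r s h hs => ⟨h.1.mono hs, fun β hβ t ht => h.2 β hβ t (ht.trans hs)⟩)
      (fun z y r h e => ⟨h.1.left e, fun β hβ t ht e' => h.2 β hβ t ht ((e.mono ht).trans e')⟩)
      fun r hr => by
        by_contra hd
        push Not at hd
        refine h2 r (hr.trans hq) (seqN fun n => if h : e n < α then g (e n) h else emp)
          ⟨fun _ _ _ _ _ => seqN_fun, fun z s hs hz t ht => ?_⟩
        obtain ⟨β, hβ, u, hu, e'⟩ := hd t (ht.trans hs) z (hz.mono ht)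
        obtain ⟨n, rfl⟩ := he hβ
        refine ⟨u, hu, n, (seqN_app _ n u).congr (FEq.refl _ _) (FEq.refl _ _) ?_⟩
        rw [dif_pos hβ]
        exact e'.symm
    exact ⟨z, fun _ => hz⟩
  choose Z hZ using step
  let z : Λ → Nm (Cond L) := wellFounded_lt.fix Z
  have hz : ∀ α, α < L.w1 → Dn (fun r => FMem (z α) A r ∧
      ∀ β, β < α → ∀ s, s ≤ r → ¬ FEq (z α) (z β) s) q := fun α hα => by
    have := hZ α (fun β _ => z β) hα
    rwa [← show z α = Z α fun β _ => z β from WellFounded.fix_eq _ _ _] at this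
  have hne : ∀ α β, α < L.w1 → β < α → ∀ s, s ≤ q → ¬ FEq (z α) (z β) s := fun α β a b s hs e => by
    obtain ⟨t, ht, h3⟩ := hz α a s hs
    exact h3.2 β b t le_rfl (e.mono ht)
  obtain ⟨p1, a1, α, a2, a3⟩ := exists_split
    (fun η n s α => α < L.w1 ∧ FApp (f η) (nn n) (z α) s) q
  obtain ⟨r0, hr0, b0, _⟩ := hz α a2 p1 a1
  obtain ⟨r, hr, x, y, hx, hy, b1, b2⟩ := (h1 _ r0 (hr0.trans (a1.trans hq)) b0).ex
  obtain ⟨s0, hs0, ζ, b3⟩ := exists_sp hx hy (b1 r le_rfl)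
  have inF : ∀ x : Nm (Cond L), InX x s0 → FMem (lb ζ) x s0 → ∃ s, s ≤ s0 ∧ ζ ∈ s.F :=
    fun x hx h => by
      obtain ⟨s, hs, μ, _, h3⟩ := (hx.2 {ζ} (finite_singleton _)).ex
      exact ⟨s, hs, (s.dom ((h3 ζ rfl).resolve_right fun h' => h'.1 s le_rfl (h.mono hs)).2).2⟩
  obtain ⟨s, hs, b4⟩ := b3.elim (fun h => inF x (hx.mono hs0) h.1) fun h => inF y (hy.mono hs0) h.1
  have hsr : s ≤ r := hs.trans hs0
  obtain ⟨s', hs', η₁, η₂, c1, c2⟩ := a3 s (hsr.trans (hr.trans hr0)) ζ b4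
  have hsr' : s' ≤ r := hs'.trans hsr
  obtain ⟨t, ht, η, c3, c4⟩ : ∃ t, t ≤ s' ∧ ∃ η, (η = η₁ ∨ η = η₂) ∧
      (Sp η x y t ∨ Sp η y x t) := by
    rcases b3 with h | h
    · obtain ⟨t, ht, η, d1, d2⟩ := split_step (hx.mono hsr') (hy.mono hsr')
        ⟨h.1.mono (hs'.trans hs), h.2.mono (hs'.trans hs)⟩ c1
      exact ⟨t, ht, η, d1, Or.inl d2⟩
    · obtain ⟨t, ht, η, d1, d2⟩ := split_step (hy.mono hsr') (hx.mono hsr')
        ⟨h.1.mono (hs'.trans hs), h.2.mono (hs'.trans hs)⟩ c1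
      exact ⟨t, ht, η, d1, Or.inr d2⟩
  have htr : t ≤ r := ht.trans hsr'
  have htq : t ≤ q := htr.trans (hr.trans (hr0.trans a1))
  obtain ⟨t1, ht1, d1⟩ := hf η t htq
  obtain ⟨t2, ht2, n, d2⟩ := (d1.2 (z α) t1 le_rfl (fmem_difN.2
    ⟨b0.mono (ht1.trans (htr.trans hr)), fun u hu h => UN_sp c4 u (hu.trans ht1)
      (h.left (b2.mono (hu.trans (ht1.trans htr))))⟩)).ex
  obtain ⟨q', α', u, ⟨e1, e2⟩, e3, e4, e5⟩ := c2 η c3 t2 (ht2.trans (ht1.trans ht)) n ⟨a2, d2⟩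
  have e6 := d1.1 _ _ _ u (e4.trans ht2) (d2.mono e4) (e2.mono e5)
  have huq : u ≤ q := e4.trans (ht2.trans (ht1.trans htq))
  rcases e3.lt_or_gt with h | h
  exacts [hne α α' a2 h u huq e6, hne α' α e1 h u huq e6.symm]

end Pool.Agent.MP_5aa9a8_gt.H44
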