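import Pool.Agent.MP_5aa9a8_gt.H44.Lab

/-! Side conditions: adequate pairs of countable sets. -/

namespace Pool.Agent.MP_5aa9a8_gt.H44

open Set

variable {Λ : Type} [LinearOrder Λ] (L : Lab Λ)

/-- `A` is a coded member of `Q` -/
def In (A Q : Set Λ) : Prop := A ⊆ Q ∧ L.c A ∈ Q

/-- closure under initial segments of coded members -/
def CL (K : Set Λ) : Prop := ∀ A ξ, In L A K → ξ ∈ K → In L (A ∩ Iio ξ) K

/-- `K` cuts `Q` in an initial segment -/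
def Cu (Q K : Set Λ) : Prop :=
  (∀ ξ ∈ Q, ∀ η ∈ Q, η ∈ K → ξ ≤ η → ξ ∈ K) ∧ ∀ A, In L A Q → In L (A ∩ K) K

/-- the trace of `K` on `Q` is a member of `Q` -/
def El (Q K : Set Λ) : Prop := In L (K ∩ Q) Q

/-- adequate pairs -/
def Ad (K Q : Set Λ) : Prop :=
  (Cu L K Q ∧ El L Q K) ∨ (Cu L Q K ∧ El L K Q) ∨ (Cu L K Q ∧ Cu L Q K)

variable {L} {A K K' K0 Q M : Set Λ}

lemma In.mono (h : In L A K) (hs : K ⊆ Q) : In L A Q := ⟨h.1.trans hs, hs h.2⟩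

lemma In.inter (h : In L A K) (h' : In L A Q) : In L A (K ∩ Q) :=
  ⟨subset_inter h.1 h'.1, h.2, h'.2⟩

lemma Ad.symm (h : Ad L K Q) : Ad L Q K := by
  unfold Ad at *; tauto

lemma Cu.refl (K : Set Λ) : Cu L K K :=
  ⟨fun _ h _ _ _ _ => h, fun A h => by rwa [inter_eq_left.2 h.1]⟩

lemma Ad.refl (K : Set Λ) : Ad L K K := Or.inr (Or.inr ⟨Cu.refl K, Cu.refl K⟩)

lemma ad_new_cut (h : Cu L Q K) (h' : In L K' Q) : Ad L K' K :=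
  Or.inl ⟨⟨fun ξ h1 η h2 h3 h4 => h.1 ξ (h'.1 h1) η (h'.1 h2) h3 h4,
    fun A hA => h.2 A (hA.mono h'.1)⟩, h.2 K' h'⟩

lemma ad_top (h : In L K M) : Ad L K M := ad_new_cut (Cu.refl M) h

variable [WellFoundedLT Λ]

lemma cut_cases (h : Cu L K Q) (hA : A ⊆ K) :
    A ∩ Q = A ∨ ∃ ξ ∈ K, A ∩ Q = A ∩ Iio ξ ∧ ∃ a ∈ A, ξ ≤ a := by
  by_cases h1 : A ⊆ Q
  · exact Or.inl (inter_eq_left.2 h1)
  obtain ⟨a, ha, haQ⟩ := not_subset.1 h1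
  obtain ⟨ξ, ⟨x1, x2⟩, hm⟩ := wellFounded_lt.has_min (K \ Q) ⟨a, hA ha, haQ⟩
  refine Or.inr ⟨ξ, x1, ext fun b => and_congr_right fun hb => ⟨fun hq => ?_, fun hl => ?_⟩,
    a, ha, not_lt.1 (hm a ⟨hA ha, haQ⟩)⟩
  · exact not_le.1 fun hl => x2 (h.1 ξ x1 b (hA hb) hq hl)
  · by_contra hq
    exact hm b ⟨hA hb, hq⟩ hl

lemma In.cut (hK : CL L K) (h : Cu L K Q) (hA : In L A K) : In L (A ∩ Q) (K ∩ Q) := by
  refine In.inter ?_ (h.2 A hA)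
  rcases cut_cases h hA.1 with e | ⟨ξ, h1, e, _⟩
  · rwa [e]
  · rw [e]; exact hK A ξ hA h1

lemma ad_new_el (hK : CL L K) (h : Cu L K Q) (hs : K' ⊆ Q) (h' : Ad L K' (K ∩ Q)) :
    Ad L K' K := by
  have e1 : ∀ A : Set Λ, A ⊆ K' → A ∩ (K ∩ Q) = A ∩ K := fun A hA =>
    ext fun x => ⟨fun h => ⟨h.1, h.2.1⟩, fun h => ⟨h.1, h.2, hs (hA h.1)⟩⟩
  have c1 : Cu L K' (K ∩ Q) → Cu L K' K := fun c =>
    ⟨fun ξ h1 η h2 h3 h4 => (c.1 ξ h1 η h2 ⟨h3, hs h2⟩ h4).1,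
      fun A hA => e1 A hA.1 ▸ (c.2 A hA).mono inter_subset_left⟩
  have c2 : Cu L (K ∩ Q) K' → Cu L K K' := fun c =>
    ⟨fun ξ h1 η h2 h3 h4 => c.1 ξ ⟨h1, h.1 ξ h1 η h2 (hs h3) h4⟩ η ⟨h2, hs h3⟩ h3 h4,
      fun A hA => by
        have := c.2 _ (hA.cut hK h)
        rwa [inter_assoc, inter_eq_right.2 hs] at this⟩
  have e2 : K' ∩ (K ∩ Q) = K' ∩ K := e1 K' Subset.rfl
  rcases h' with ⟨a, b⟩ | ⟨a, b⟩ | ⟨a, b⟩
  · exact Or.inl ⟨c1 a, (e2 ▸ b : In L (K' ∩ K) (K ∩ Q)).mono inter_subset_left⟩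
  · refine Or.inr (Or.inl ⟨c2 a, ?_⟩)
    unfold El at *
    rwa [inter_comm, e2, inter_comm] at b
  · exact Or.inr (Or.inr ⟨c1 a, c2 b⟩)

lemma ad_trace (hK : CL L K) (hK0 : CL L K0) (h : Cu L K Q) (h' : Ad L K0 K) :
    Ad L K0 (K ∩ Q) := by
  have c1 : Cu L K0 K → Cu L K0 (K ∩ Q) := fun c =>
    ⟨fun ξ h1 η h2 h3 h4 => ⟨c.1 ξ h1 η h2 h3.1 h4, h.1 ξ (c.1 ξ h1 η h2 h3.1 h4) η h3.1 h3.2 h4⟩,
      fun A hA => by rw [← inter_assoc]; exact (c.2 A hA).cut hK h⟩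
  have c2 : Cu L K K0 → Cu L (K ∩ Q) K0 := fun c =>
    ⟨fun ξ h1 η h2 h3 h4 => c.1 ξ h1.1 η h2.1 h3 h4,
      fun A hA => c.2 A (hA.mono inter_subset_left)⟩
  rcases h' with ⟨a, b⟩ | ⟨a, b⟩ | ⟨a, b⟩
  · refine Or.inl ⟨c1 a, ?_⟩
    unfold El at *
    rw [← inter_assoc]
    exact b.cut hK h
  · refine Or.inr (Or.inl ⟨c2 a, ?_⟩)
    unfold El at *
    rw [inter_right_comm]
    rcases cut_cases h (inter_subset_left : K ∩ K0 ⊆ K) with e | ⟨ξ, h1, e, x, h2, h3⟩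
    · rwa [e]
    · rw [e]
      exact hK0 _ ξ b (a.1 ξ h1 x h2.1 h2.2 h3)
  · exact Or.inr (Or.inr ⟨c1 a, c2 b⟩)

/-- `N` is closed under the coding -/
def Cp (L : Lab Λ) (N : Λ) : Prop := ∀ A : Set Λ, A.Countable → (∀ a ∈ A, a < N) → L.c A < N

omit [WellFoundedLT Λ] in
lemma In.trace {N : Λ} (hN : Cp L N) (hc : M.Countable) (hM : CL L M) (hNM : N ∈ M)
    (hA : In L A M) : In L (A ∩ Iio N) (M ∩ Iio N) :=
  (hM A N hA hNM).inter ⟨inter_subset_right,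
    hN _ (hc.mono (inter_subset_left.trans hA.1)) fun _ h => h.2⟩

omit [WellFoundedLT Λ] in
lemma CL.trace {N : Λ} (hN : Cp L N) (hc : M.Countable) (hM : CL L M) : CL L (M ∩ Iio N) :=
  fun A ξ hA hξ => (hM A ξ (hA.mono inter_subset_left) hξ.1).inter
    ⟨fun _ h => (hA.1 h.1).2, hN _ (hc.mono fun _ h => (hA.1 h.1).1) fun _ h => (hA.1 h.1).2⟩

omit [WellFoundedLT Λ] in
lemma ad_ext {N : Λ} (hN : Cp L N) (hc : M.Countable) (hM : CL L M) (hNM : N ∈ M)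
    (hK : K ⊆ Iio N) (h : Ad L (M ∩ Iio N) K) : Ad L M K := by
  have e1 : ∀ A : Set Λ, A ⊆ K → A ∩ (M ∩ Iio N) = A ∩ M := fun A hA =>
    ext fun x => ⟨fun h => ⟨h.1, h.2.1⟩, fun h => ⟨h.1, h.2, hK (hA h.1)⟩⟩
  have e2 : ∀ A : Set Λ, A ∩ Iio N ∩ K = A ∩ K := fun A => by
    rw [inter_assoc, inter_eq_right.2 hK]
  have c1 : Cu L K (M ∩ Iio N) → Cu L K M := fun c =>
    ⟨fun ξ h1 η h2 h3 h4 => (c.1 ξ h1 η h2 ⟨h3, hK h2⟩ h4).1,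
      fun A hA => e1 A hA.1 ▸ (c.2 A hA).mono inter_subset_left⟩
  have c2 : Cu L (M ∩ Iio N) K → Cu L M K := fun c =>
    ⟨fun ξ h1 η h2 h3 h4 => c.1 ξ ⟨h1, h4.trans_lt (hK h3)⟩ η ⟨h2, hK h3⟩ h3 h4,
      fun A hA => e2 A ▸ c.2 _ (hA.trace hN hc hM hNM)⟩
  rcases h with ⟨a, b⟩ | ⟨a, b⟩ | ⟨a, b⟩
  · exact Or.inl ⟨c2 a, (e2 M ▸ b : In L (M ∩ K) K)⟩
  · exact Or.inr (Or.inl ⟨c1 a,
      (e1 K Subset.rfl ▸ b : In L (K ∩ M) (M ∩ Iio N)).mono inter_subset_left⟩)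
  · exact Or.inr (Or.inr ⟨c2 a, c1 b⟩)

omit [LinearOrder Λ] [WellFoundedLT Λ] in
/-- countable sets closed under a finitary operation with countable values -/
lemma exists_closed (G : Set Λ → Set Λ) (hG : ∀ t, t.Finite → (G t).Countable) {S : Set Λ}
    (hS : S.Countable) :
    ∃ Q : Set Λ, Q.Countable ∧ S ⊆ Q ∧ ∀ t : Set Λ, t.Finite → t ⊆ Q → G t ⊆ Q := by
  let f : ℕ → Set Λ := fun n =>
    Nat.rec S (fun _ T => T ∪ ⋃ t ∈ {t : Set Λ | t.Finite ∧ t ⊆ T}, G t) n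
  have hf : ∀ n, (f n).Countable := fun n => by
    induction n with
    | zero => exact hS
    | succ n ih =>
      exact ih.union ((countable_ofPred_finite_subset ih).biUnion fun t ht => hG t ht.1)
  have hm : Monotone f := monotone_nat_of_le_succ fun n => subset_union_left
  refine ⟨⋃ n, f n, countable_iUnion hf, subset_iUnion f 0, fun t ht hs => ?_⟩
  obtain ⟨n, hn⟩ : ∃ n, t ⊆ f n := by
    induction t, ht using Finite.induction_on with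
    | empty => exact ⟨0, empty_subset _⟩
    | insert _ _ ih =>
      rw [insert_subset_iff] at hs
      obtain ⟨n, hn⟩ := ih hs.2
      obtain ⟨m, hm'⟩ := mem_iUnion.1 hs.1
      exact ⟨max n m, insert_subset_iff.2
        ⟨hm (le_max_right _ _) hm', hn.trans (hm (le_max_left _ _))⟩⟩
  exact fun x hx => mem_iUnion.2 ⟨n + 1, Or.inr (mem_biUnion (s := {t | t.Finite ∧ t ⊆ f n})
    ⟨ht, hn⟩ hx)⟩

end Pool.Agent.MP_5aa9a8_gt.H44
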