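import Pool.Agent.MP_5aa9a8_gt.H44.Pairs
import Pool.Agent.MP_5aa9a8_gt.H44.Copy

/-! The generic space: names for its points and open sets; compactness. -/

namespace Pool.Agent.MP_5aa9a8_gt.H44

open Set

set_option linter.unusedSectionVars false
set_option linter.unusedVariables false

variable {Λ : Type} [LinearOrder Λ] [WellFoundedLT Λ] {L : Lab Λ}

/-- the name of a label -/
noncomputable def lb (η : Λ) : Nm (Cond L) := oc ((· < ·) : Λ → Λ → Prop) η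

lemma lb_inj {η ξ : Λ} {p : Cond L} (h : FEq (lb η) (lb ξ) p) : η = ξ :=
  oc_inj (r := ((· < ·) : Λ → Λ → Prop)) h

/-- at `η`, the point `x` looks like the set of elements above `μ` -/
def Pat (x : Nm (Cond L)) (μ η : Λ) (r : Cond L) : Prop :=
  (FMem (lb η) x r ∧ r.le μ η) ∨ (NMem (lb η) x r ∧ ∀ s, s ≤ r → ¬ s.le μ η)

/-- forced: `x` is a point of the space -/
def InX (x : Nm (Cond L)) (q : Cond L) : Prop :=
  (∀ z r, r ≤ q → FMem z x r → Dn (fun s => ∃ η, FEq z (lb η) s) r) ∧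
    ∀ a : Set Λ, a.Finite → Dn (fun r => ∃ μ ∈ r.F, ∀ η ∈ a, Pat x μ η r) q

/-- a property of names that forcing respects -/
structure Reg (Ψ : Nm (Cond L) → Cond L → Prop) : Prop where
  mono : ∀ {x q r}, Ψ x q → r ≤ q → Ψ x r
  dn : ∀ {x q}, Dn (Ψ x) q → Ψ x q
  congr : ∀ {x y q}, Ψ x q → FEq x y q → Ψ y q

lemma NMem.right {P : Type} [Preorder P] {x y y' : Nm P} {p : P} (h : NMem x y p)
    (e : FEq y y' p) : NMem x y' p :=
  fun r hr h' => h r hr (h'.right (e.symm.mono hr))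

lemma NMem.of_dn {P : Type} [Preorder P] {x y : Nm P} {p : P} (h : Dn (NMem x y) p) :
    NMem x y p := fun r hr h' => by
  obtain ⟨s, hs, h1⟩ := h r hr
  exact h1 s le_rfl (h'.mono hs)

lemma reg_inX : Reg (InX (L := L)) where
  mono h hr := ⟨fun z s hs => h.1 z s (hs.trans hr), fun a ha => (h.2 a ha).mono hr⟩
  dn h := ⟨fun z r hr hz => Dn.dn ((h.mono hr).imp fun s hs h1 =>
      ⟨s, le_rfl, h1.1 z s le_rfl (hz.mono hs)⟩),
    fun a ha => Dn.dn (h.imp fun s _ h1 => ⟨s, le_rfl, h1.2 a ha⟩)⟩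
  congr h e := ⟨fun z r hr hz => h.1 z r hr (hz.right (e.symm.mono hr)),
    fun a ha => (h.2 a ha).imp fun r hr ⟨μ, h1, h2⟩ => ⟨r, le_rfl, μ, h1, fun η hη =>
      (h2 η hη).imp (fun h => ⟨h.1.right (e.mono hr), h.2⟩)
        fun h => ⟨h.1.right (e.mono hr), h.2⟩⟩⟩

lemma InX.mono {x : Nm (Cond L)} {q r : Cond L} (h : InX x q) (hr : r ≤ q) : InX x r :=
  reg_inX.mono h hr

/-- the name of a set of labels -/
noncomputable def pt (S : Λ → Cond L → Prop) : Nm (Cond L) := cname lb S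

lemma pt_sub {S : Λ → Cond L → Prop} {z : Nm (Cond L)} {r : Cond L} (h : FMem z (pt S) r) :
    Dn (fun s => ∃ η, FEq z (lb η) s) r :=
  ((fmem_cname _ _ _ _).1 h).imp fun s _ ⟨η, _, _, _, e⟩ => ⟨s, le_rfl, η, e⟩

lemma fmem_pt {S : Λ → Cond L → Prop} (hS : ∀ η q r, S η q → r ≤ q → S η r) {η : Λ} {r : Cond L} :
    FMem (lb η) (pt S) r ↔ Dn (S η) r :=
  (fmem_cname _ _ _ _).trans ⟨fun h => h.imp fun s _ ⟨_, q, h1, h2, e⟩ =>
    ⟨s, le_rfl, lb_inj e ▸ hS _ _ _ h1 h2⟩,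
    fun h => h.imp fun s _ h1 => ⟨s, le_rfl, η, s, h1, le_rfl, FEq.refl _ _⟩⟩

lemma feq_of_lb {x y : Nm (Cond L)} {q : Cond L}
    (hx : ∀ z r, r ≤ q → FMem z x r → Dn (fun s => ∃ η, FEq z (lb η) s) r)
    (hy : ∀ z r, r ≤ q → FMem z y r → Dn (fun s => ∃ η, FEq z (lb η) s) r)
    (h : ∀ η r, r ≤ q → (FMem (lb η) x r ↔ FMem (lb η) y r)) : FEq x y q :=
  feq_ext fun z r hr => ⟨fun h1 => FMem.of_dn ((hx z r hr h1).imp fun s hs ⟨η, e⟩ =>
      ⟨s, le_rfl, ((h η s (hs.trans hr)).1 ((h1.mono hs).left e)).left e.symm⟩),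
    fun h1 => FMem.of_dn ((hy z r hr h1).imp fun s hs ⟨η, e⟩ =>
      ⟨s, le_rfl, ((h η s (hs.trans hr)).2 ((h1.mono hs).left e)).left e.symm⟩)⟩

lemma InX.rep {x : Nm (Cond L)} {q : Cond L} (h : InX x q) :
    FEq x (pt fun η r => FMem (lb η) x r) q :=
  feq_of_lb h.1 (fun _ _ _ => pt_sub) fun _ _ _ =>
    ((fmem_pt (S := fun η r => FMem (lb η) x r) fun _ _ _ => FMem.mono).trans
      ⟨FMem.of_dn, fun h1 => Dn.of_all fun _ hs => h1.mono hs⟩).symm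

/-- the name of a set of points -/
noncomputable def sub (T : (Λ → Cond L → Prop) → Cond L → Prop) : Nm (Cond L) := cname pt T

lemma fmem_sub {Ψ : Nm (Cond L) → Cond L → Prop} (h : Reg Ψ) (hX : ∀ y q, Ψ y q → InX y q)
    {y : Nm (Cond L)} {q : Cond L} : FMem y (sub fun S r => Ψ (pt S) r) q ↔ Ψ y q :=
  (fmem_cname _ _ _ _).trans ⟨fun h1 => h.dn (h1.imp fun s _ ⟨_, _, h2, h3, e⟩ =>
    ⟨s, le_rfl, h.congr (h.mono h2 h3) e.symm⟩),
    fun h1 => Dn.of_all fun s hs => ⟨_, q, h.congr h1 (hX y q h1).rep, hs, (hX y q h1).rep.mono hs⟩⟩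

/-- the name of the space -/
noncomputable def XN (L : Lab Λ) : Nm (Cond L) := sub fun S r => InX (pt S) r

lemma fmem_XN {y : Nm (Cond L)} {q : Cond L} : FMem y (XN L) q ↔ InX y q :=
  fmem_sub reg_inX fun _ _ h => h

/-- forced: `x` and `y` agree on `a` -/
def Agr (a : Set Λ) (x y : Nm (Cond L)) (r : Cond L) : Prop :=
  ∀ η ∈ a, ∀ s, s ≤ r → (FMem (lb η) x s ↔ FMem (lb η) y s)

/-- forced: `U` is open -/
def InT (U : Nm (Cond L)) (q : Cond L) : Prop :=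
  ∀ z r, r ≤ q → FMem z U r → InX z r ∧ Dn (fun s => ∃ a : Set Λ, a.Finite ∧
    ∀ y t, t ≤ s → InX y t → Agr a z y t → FMem y U t) r

lemma reg_inT : Reg (InT (L := L)) where
  mono h hr z s hs := h z s (hs.trans hr)
  dn h z r hr hz := ⟨reg_inX.dn ((h.mono hr).imp fun s hs h1 =>
      ⟨s, le_rfl, (h1 z s le_rfl (hz.mono hs)).1⟩),
    Dn.dn ((h.mono hr).imp fun s hs h1 => ⟨s, le_rfl, (h1 z s le_rfl (hz.mono hs)).2⟩)⟩
  congr h e z r hr hz := ⟨(h z r hr (hz.right (e.symm.mono hr))).1,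
    (h z r hr (hz.right (e.symm.mono hr))).2.imp fun s hs ⟨a, ha, h1⟩ => ⟨s, le_rfl, a, ha,
      fun y t ht h2 h3 => (h1 y t ht h2 h3).right (e.mono (ht.trans (hs.trans hr)))⟩⟩

/-- the name of the topology -/
noncomputable def TN (L : Lab Λ) : Nm (Cond L) := cname sub fun T r => InT (sub T) r

lemma fmem_TN {U : Nm (Cond L)} {q : Cond L} : FMem U (TN L) q ↔ InT U q := by
  refine (fmem_cname _ _ _ _).trans ⟨fun h1 => reg_inT.dn (h1.imp fun s _ ⟨_, _, h2, h3, e⟩ =>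
    ⟨s, le_rfl, reg_inT.congr (reg_inT.mono h2 h3) e.symm⟩), fun h1 => ?_⟩
  have e : FEq U (sub fun S r => FMem (pt S) U r ∧ InX (pt S) r) q := feq_ext fun z r hr => by
    rw [fmem_sub (Ψ := fun y r => FMem y U r ∧ InX y r) ⟨fun h hr => ⟨h.1.mono hr, h.2.mono hr⟩,
      fun h => ⟨FMem.of_dn (h.imp fun s _ h => ⟨s, le_rfl, h.1⟩),
        reg_inX.dn (h.imp fun s _ h => ⟨s, le_rfl, h.2⟩)⟩,
      fun h e => ⟨h.1.left e, reg_inX.congr h.2 e⟩⟩ fun _ _ h => h.2]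
    exact ⟨fun h => ⟨h, (h1 z r hr h).1⟩, fun h => h.1⟩
  exact Dn.of_all fun s hs => ⟨_, q, reg_inT.congr h1 e, hs, e.mono hs⟩

/-- forced: `x` follows the pattern `t` at `η` -/
def Dec (x : Nm (Cond L)) (t : Λ → Prop) (η : Λ) (r : Cond L) : Prop :=
  (t η ∧ FMem (lb η) x r) ∨ (¬ t η ∧ NMem (lb η) x r)

lemma Dec.mono {x : Nm (Cond L)} {t : Λ → Prop} {η : Λ} {q r : Cond L} (h : Dec x t η q)
    (hr : r ≤ q) : Dec x t η r :=
  h.imp (fun h => ⟨h.1, h.2.mono hr⟩) fun h => ⟨h.1, h.2.mono hr⟩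

lemma Dec.iff {x : Nm (Cond L)} {t : Λ → Prop} {η : Λ} {q r : Cond L} (h : Dec x t η q)
    (hr : r ≤ q) : FMem (lb η) x r ↔ t η :=
  h.elim (fun h => iff_of_true (h.2.mono hr) h.1) fun h => iff_of_false (h.2 r hr) h.1

lemma dec_of_iff {x : Nm (Cond L)} {t : Λ → Prop} {η : Λ} {q : Cond L}
    (h : ∀ r, r ≤ q → (FMem (lb η) x r ↔ t η)) : Dec x t η q := by
  by_cases ht : t η
  exacts [Or.inl ⟨ht, (h q le_rfl).2 ht⟩, Or.inr ⟨ht, fun r hr h' => ht ((h r hr).1 h')⟩]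

lemma exists_dec (x : Nm (Cond L)) {a : Set Λ} (ha : a.Finite) (q : Cond L) :
    ∃ r, r ≤ q ∧ ∀ η ∈ a, Dec x (fun η => FMem (lb η) x r) η r := by
  have : ∃ r, r ≤ q ∧ ∀ η ∈ a, FMem (lb η) x r ∨ NMem (lb η) x r := by
    induction a, ha using Finite.induction_on with
    | empty => exact ⟨q, le_rfl, fun _ h => h.elim⟩
    | @insert ξ a _ _ ih =>
      obtain ⟨r, h1, h2⟩ := ih
      obtain ⟨s, h3, h4⟩ := dec_mem (lb ξ) x r
      refine ⟨s, h3.trans h1, ?_⟩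
      rintro η (rfl | hη)
      exacts [h4, (h2 η hη).imp (fun h => h.mono h3) fun h => h.mono h3]
  obtain ⟨r, h1, h2⟩ := this
  exact ⟨r, h1, fun η hη => (h2 η hη).imp (fun h => ⟨h, h⟩) fun h => ⟨h r le_rfl, h⟩⟩

/-- the basic set with pattern `t` on `a` is covered by finitely many good patterns -/
def Cov (G : Set Λ → (Λ → Prop) → Cond L → Prop) (a : Set Λ) (t : Λ → Prop) (r : Cond L) : Prop :=
  ∃ F : Set (Set Λ × (Λ → Prop)), F.Finite ∧ (∀ b ∈ F, b.1.Finite ∧ G b.1 b.2 r) ∧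
    ∀ x s, s ≤ r → InX x s → (∀ η ∈ a, Dec x t η s) →
      Dn (fun u => ∃ b ∈ F, ∀ η ∈ b.1, Dec x b.2 η u) s

theorem cover {G : Set Λ → (Λ → Prop) → Cond L → Prop}
    (hG : ∀ a t q r, G a t q → r ≤ q → G a t r) {p : Cond L}
    (h : ∀ x q, q ≤ p → InX x q → Dn (fun r => ∃ a : Set Λ, a.Finite ∧ ∃ t,
      (∀ η ∈ a, Dec x t η r) ∧ G a t r) q) : Dn (Cov G ∅ fun _ => True) p := by
  intro q hq
  by_contra hc
  push Not at hc
  have cm : ∀ {a t r s}, Cov G a t r → s ≤ r → Cov G a t s := fun ⟨F, h1, h2, h3⟩ hs =>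
    ⟨F, h1, fun b hb => ⟨(h2 b hb).1, hG _ _ _ _ (h2 b hb).2 hs⟩,
      fun x u hu => h3 x u (hu.trans hs)⟩
  let T : Λ → Cond L → Prop := wellFounded_lt.fix fun ξ ih r => ∀ s, s ≤ r → ∀ a : Set Λ, a.Finite →
    ∀ t : Λ → Prop, t ξ → (∀ η ∈ a, ∃ h : η < ξ, ∀ u, u ≤ s → (ih η h u ↔ t η)) →
      ¬ Cov G (insert ξ a) t s
  have hT : ∀ ξ r, T ξ r ↔ ∀ s, s ≤ r → ∀ a : Set Λ, a.Finite →
      ∀ t : Λ → Prop, t ξ → (∀ η ∈ a, ∃ _ : η < ξ, ∀ u, u ≤ s → (T η u ↔ t η)) →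
        ¬ Cov G (insert ξ a) t s := fun ξ r => by
    rw [show T ξ = _ from WellFounded.fix_eq _ _ _]
  have tm : ∀ η q r, T η q → r ≤ q → T η r := fun η q r h1 hr =>
    (hT _ _).2 fun s hs => (hT _ _).1 h1 s (hs.trans hr)
  have hu : ∀ η r, FMem (lb η) (pt T) r ↔ T η r := fun η r =>
    (fmem_pt tm).trans ⟨fun h1 => (hT _ _).2 fun s hs a ha t ht h2 h3 => by
      obtain ⟨u, hu, h4⟩ := h1 s hs
      exact (hT _ _).1 h4 u le_rfl a ha t ht (fun η hη => ⟨(h2 η hη).1,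
        fun w hw => (h2 η hη).2 w (hw.trans hu)⟩) (cm h3 hu),
      fun h1 => Dn.of_all fun s hs => tm _ _ _ h1 hs⟩
  have key : ∀ ξ, ∀ a : Set Λ, a.Finite → (∀ η ∈ a, η < ξ) → ∀ t s, s ≤ q →
      (∀ η ∈ a, Dec (pt T) t η s) → ¬ Cov G a t s := by
    intro ξ
    induction ξ using (wellFounded_lt (α := Λ)).induction with
    | _ ξ ih =>
      intro a ha hlt t s hs hd hcov
      rcases a.eq_empty_or_nonempty with rfl | hne
      · obtain ⟨F, h1, h2, h3⟩ := hcov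
        exact hc s hs ⟨F, h1, h2, fun x u hu hx _ => h3 x u hu hx fun _ h => h.elim⟩
      obtain ⟨m, hm, hmax⟩ := ha.exists_maximal hne
      have lt : ∀ η ∈ a \ {m}, η < m := fun η hη =>
        lt_of_le_of_ne (not_lt.1 fun h => absurd (hmax hη.1 h.le) (not_le.2 h)) hη.2
      have ea : insert m (a \ {m}) = a := insert_sdiff_self_of_mem hm
      rcases hd m hm with ⟨h1, h2⟩ | ⟨h1, h2⟩
      · exact (hT _ _).1 ((hu _ _).1 h2) s le_rfl _ (ha.subset sdiff_subset) t h1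
          (fun η hη => ⟨lt η hη, fun u hu' => (hu _ _).symm.trans ((hd η hη.1).iff hu')⟩)
          (ea.symm ▸ hcov)
      · have h3 : ¬ T m s := fun h => h2 s le_rfl ((hu _ _).2 h)
        rw [hT] at h3
        push Not at h3
        obtain ⟨s', hs', b, hb, t', ht', h4, F', f1, f2, f3⟩ := h3
        obtain ⟨F, g1, g2, g3⟩ := cm hcov hs'
        have d1 : ∀ η ∈ b, T η s' ↔ t' η := fun η hη => (h4 η hη).2 s' le_rfl
        have d2 : ∀ η ∈ a, T η s' ↔ t η := fun η hη => (hu _ _).symm.trans ((hd η hη).iff hs')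
        refine ih m (hlt m hm) (b ∪ a \ {m}) (hb.union (ha.subset sdiff_subset))
          (fun η hη => hη.elim (fun h => (h4 η h).1) (lt η)) (fun η => T η s') s' (hs'.trans hs)
          (fun η hη => dec_of_iff fun u hu' => (hu _ _).trans ?_)
          ⟨F' ∪ F, f1.union g1, fun c hc => hc.elim (f2 c) (g2 c), fun x u hu' hx h5 w hw => ?_⟩
        · rcases hη with hη | hη
          · exact ((h4 η hη).2 u hu').trans (d1 η hη).symm
          · exact ((hu _ _).symm.trans ((hd η hη.1).iff (hu'.trans hs'))).trans (d2 η hη.1).symm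
        · obtain ⟨w', hw', h6 | h6⟩ := dec_mem (lb m) x w
          · obtain ⟨y, hy, c, hc, h7⟩ := (f3 x w' (hw'.trans (hw.trans hu'))
              (hx.mono (hw'.trans hw)) (by
                rintro η (rfl | hη)
                · exact Or.inl ⟨ht', h6⟩
                · exact dec_of_iff fun y hy => ((h5 η (Or.inl hη)).iff
                    (hy.trans (hw'.trans hw))).trans (d1 η hη))).ex
            exact ⟨y, hy.trans hw', c, Or.inl hc, h7⟩
          · obtain ⟨y, hy, c, hc, h7⟩ := (g3 x w' (hw'.trans (hw.trans hu'))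
              (hx.mono (hw'.trans hw)) (fun η hη => by
                by_cases e : η = m
                · exact Or.inr ⟨e ▸ h1, e ▸ h6⟩
                · exact dec_of_iff fun y hy => ((h5 η (Or.inr ⟨hη, e⟩)).iff
                    (hy.trans (hw'.trans hw))).trans (d2 η hη))).ex
            exact ⟨y, hy.trans hw', c, Or.inr hc, h7⟩
  have key' : ∀ a : Set Λ, a.Finite → ∀ t s, s ≤ q →
      (∀ η ∈ a, Dec (pt T) t η s) → ¬ Cov G a t s := fun a ha => by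
    obtain ⟨ξ, hξ⟩ := L.bd a ha.countable
    exact key ξ a ha hξ
  have hX : InX (pt T) q := by
    refine ⟨fun _ _ _ => pt_sub, fun a ha s hs => ?_⟩
    obtain ⟨r, hr, h1⟩ := exists_dec (pt T) ha s
    have h2 := key' a ha _ r (hr.trans hs) h1
    by_contra h3
    refine h2 ⟨∅, finite_empty, fun _ h => h.elim, fun x u hu' hx h4 => (h3 ?_).elim⟩
    obtain ⟨w, hw, μ, h5, h6⟩ := (hx.2 a ha).ex
    have e : ∀ η ∈ a, ∀ y, y ≤ w → (FMem (lb η) x y ↔ FMem (lb η) (pt T) y) := fun η hη y hy =>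
      ((h4 η hη).iff (hy.trans hw)).trans ((h1 η hη).iff (hy.trans (hw.trans hu'))).symm
    exact ⟨w, hw.trans (hu'.trans hr), μ, h5, fun η hη => (h6 η hη).imp
      (fun h => ⟨(e η hη w le_rfl).1 h.1, h.2⟩)
      fun h => ⟨fun y hy h' => h.1 y hy ((e η hη y hy).2 h'), h.2⟩⟩
  obtain ⟨r, hr, a, ha, t, h1, h2⟩ := (h _ q hq hX).ex
  exact key' a ha t r hr h1 ⟨{(a, t)}, finite_singleton _, fun b hb => hb ▸ ⟨ha, h2⟩,
    fun x s _ _ h3 => Dn.of_all fun u hu => ⟨_, rfl, fun η hη => (h3 η hη).mono hu⟩⟩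

end Pool.Agent.MP_5aa9a8_gt.H44
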