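import Pool.Agent.MP_5aa9a8_gt.H44.Force

/-! Comprehension for names; the ZFC axioms hold in every sound model. -/

namespace Pool.Agent.MP_5aa9a8_gt.H44

open FirstOrder

set_option linter.unusedSectionVars false

variable {P : Type} [Preorder P] [OrderTop P]

/-- the names forced to satisfy `φ` are covered by a set-sized family -/
def Covered (φ : Fml) (v : ℕ → Nm P) {ι : Type} (A : ι → Nm P) : Prop :=
  ∀ w p, Frc φ (cons w v) p → ∃ q, q ≤ p ∧ ∃ i, FEq w (A i) q

lemma compr_mem {φ : Fml} {v : ℕ → Nm P} {ι : Type} {A : ι → Nm P} (h : Covered φ v A) (w : Nm P)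
    (p : P) :
    FMem w (cname A fun i q => Frc φ (cons (A i) v) q) p ↔ Frc φ (cons w v) p := by
  rw [fmem_cname]
  constructor
  · intro h1
    exact Frc.of_dn (h1.imp fun r _ ⟨i, q, h2, h3, h4⟩ =>
      ⟨r, le_rfl, (h2.mono h3).congr0 h4.symm⟩)
  · intro h1 q hq
    obtain ⟨r, hr, i, h2⟩ := h w q (h1.mono hq)
    exact ⟨r, hr, i, r, (h1.mono (hr.trans hq)).congr0 h2, le_rfl, h2⟩

/-- every formula forced by the trivial condition holds in `(M, E)` -/
def Sound (P : Type) [Preorder P] [OrderTop P] {M : Type 1} (E : M → M → Prop) : Prop :=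
  ∀ φ : Fml, (∀ v : ℕ → Nm P, Frc φ v ⊤) → ∀ w, Sat E φ w

lemma Sound.compr {M : Type 1} {E : M → M → Prop} (hE : Sound P E) (φ : Fml)
    (h : ∀ v : ℕ → Nm P, ∃ (ι : Type) (A : ι → Nm P), Covered φ v A) (w : ℕ → M) :
    ∃ b, ∀ x, E x b ↔ Sat E φ (cons x w) := by
  have e : ∀ {α : Type 1} (x b : α) (v : ℕ → α),
      cons x (cons b v) ∘ cons 0 (fun n => n + 2) = cons x v := by
    intro α x b v; funext n; cases n <;> rfl
  have := hE (.ex (.all (.iff (.mem 0 1) (φ.ren (cons 0 fun n => n + 2))))) ?_ w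
  · simpa [sat_ren, e] using this
  · intro v
    obtain ⟨ι, A, hA⟩ := h v
    rw [frc_ex]
    refine Dn.of_all fun q _ => ⟨cname A fun i q => Frc φ (cons (A i) v) q, fun x => ?_⟩
    rw [frc_iff]
    intro r _
    rw [frc_ren, e]
    exact compr_mem hA x r

lemma covered_of_mem {φ : Fml} {v : ℕ → Nm P} (a : Nm P)
    (h : ∀ w p, Frc φ (cons w v) p → FMem w a p) : Covered φ v a.A := by
  intro w p h1
  obtain ⟨q, hq, i, _, h2⟩ := (h w p h1).ex
  exact ⟨q, hq, i, h2⟩

section ord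

variable {T : Type} (r : T → T → Prop) [IsWellOrder T r]

/-- the name of the ordinal collapsing an element of a well-order -/
noncomputable def oc : T → Nm P :=
  (IsWellFounded.wf (r := r)).fix fun t ih => .mk {s // r s t} (fun s => ih s.1 s.2) fun _ => ⊤

lemma oc_eq (t : T) : (oc r t : Nm P) = .mk {s // r s t} (fun s => oc r s.1) fun _ => ⊤ :=
  WellFounded.fix_eq _ _ _

/-- the name of the order type of the well-order -/
noncomputable def ocAll : Nm P := .mk T (oc r) fun _ => ⊤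

variable {r}

lemma fmem_oc {w : Nm P} {t : T} {p : P} :
    FMem w (oc r t) p ↔ Dn (fun q => ∃ s, r s t ∧ FEq w (oc r s) q) p := by
  rw [oc_eq]
  exact ⟨fun h => h.imp fun q _ ⟨s, _, h1⟩ => ⟨q, le_rfl, s.1, s.2, h1⟩,
    fun h => h.imp fun q _ ⟨s, h0, h1⟩ => ⟨q, le_rfl, ⟨s, h0⟩, le_top, h1⟩⟩

lemma fmem_ocAll {w : Nm P} {p : P} :
    FMem w (ocAll r) p ↔ Dn (fun q => ∃ s, FEq w (oc r s) q) p :=
  ⟨fun h => h.imp fun q _ ⟨s, _, h1⟩ => ⟨q, le_rfl, s, h1⟩,
    fun h => h.imp fun q _ ⟨s, h1⟩ => ⟨q, le_rfl, s, le_top, h1⟩⟩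

lemma oc_mem_oc {s t : T} (h : r s t) (p : P) : FMem (oc r s) (oc r t) p :=
  fmem_oc.2 (Dn.of_all fun _ _ => ⟨s, h, FEq.refl _ _⟩)

lemma oc_mem_all (s : T) (p : P) : FMem (oc r s) (ocAll r) p :=
  fmem_ocAll.2 (Dn.of_all fun _ _ => ⟨s, FEq.refl _ _⟩)

lemma oc_inj {s t : T} {p : P} (h : FEq (oc r s : Nm P) (oc r t) p) : s = t := by
  induction s using (IsWellFounded.wf (r := r)).induction generalizing t p with
  | _ s ih =>
    rcases trichotomous_of r s t with h1 | h1 | h1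
    · obtain ⟨q, _, u, hu, h2⟩ := (fmem_oc.1 ((oc_mem_oc h1 p).right h.symm)).ex
      have := ih u hu h2.symm
      rw [this] at hu
      exact absurd hu (irrefl_of r s)
    · exact h1
    · obtain ⟨q, _, u, hu, h2⟩ := (fmem_oc.1 ((oc_mem_oc h1 p).right h)).ex
      have h3 := ih t h1 h2
      rw [← h3] at hu
      exact absurd hu (irrefl_of r t)

lemma oc_mem_iff {s t : T} {p : P} : FMem (oc r s) (oc r t) p ↔ r s t := by
  refine ⟨fun h => ?_, fun h => oc_mem_oc h p⟩
  obtain ⟨q, _, u, hu, h2⟩ := (fmem_oc.1 h).ex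
  rwa [oc_inj h2]

end ord

/-- the order of the natural numbers -/
abbrev nlt : ℕ → ℕ → Prop := (· < ·)

/-- the empty name -/
def emp : Nm P := .mk PEmpty (fun i => i.elim) (fun i => i.elim)

variable {M : Type 1} {E : M → M → Prop}

lemma Sound.ext (hE : Sound P E) (a b : M) (h : ∀ x, E x a ↔ E x b) : a = b := by
  have := hE (.imp (.all (.iff (.mem 0 1) (.mem 0 2))) (.eq 0 1)) ?_ (cons a fun _ => b)
  · exact this (by simpa using h)
  · intro v q _ h
    simp only [frc_all, frc_iff, frc_mem, cons_zero, cons_one, cons_two] at h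
    exact feq_ext h

lemma Sound.found (hE : Sound P E) (a : M) (h : ∃ x, E x a) :
    ∃ x, E x a ∧ ∀ y, E y x → ¬ E y a := by
  have := hE (.imp (.ex (.mem 0 1))
    (.ex (.and (.mem 0 1) (.all (.imp (.mem 0 1) (.not (.mem 0 2))))))) ?_ (fun _ => a)
  · simpa using this (by simpa using h)
  · intro v q _ h
    apply Frc.by_contra
    intro q' hq' hn
    have key : ∀ y : Nm P, ∀ r, r ≤ q' → ¬ FMem y (v 0) r := by
      intro y
      induction y using Nm.ind with
      | h y ih =>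
        intro r hr hy
        refine hn r hr ?_
        rw [frc_ex]
        refine Dn.of_all fun r' hr' => ⟨y, ?_⟩
        simp only [frc_and, frc_mem, cons_zero, cons_one, frc_all, frc_imp, frc_not, cons_two]
        refine ⟨hy.mono hr', fun z s hs hz t ht hza => ?_⟩
        obtain ⟨u, hu, i, _, h2⟩ := (hz.mono ht).ex
        exact ih i u (hu.trans (ht.trans (hs.trans (hr'.trans hr)))) ((hza.mono hu).left h2)
    obtain ⟨r, hr, y, hy⟩ := (frc_ex.1 h) q' hq'
    exact key y r hr hy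

lemma Sound.pair (hE : Sound P E) (a b : M) : ∃ c, ∀ x, E x c ↔ x = a ∨ x = b := by
  have := hE.compr (.or (.eq 0 1) (.eq 0 2)) ?_ (cons a fun _ => b)
  · simpa using this
  · intro v
    refine ⟨Bool, fun i => if i then v 0 else v 1, fun w p h => ?_⟩
    obtain ⟨q, hq, h | h⟩ := (frc_or.1 h).ex
    · exact ⟨q, hq, true, h⟩
    · exact ⟨q, hq, false, h⟩

lemma Sound.union (hE : Sound P E) (a : M) : ∃ u, ∀ x, E x u ↔ ∃ y, E y a ∧ E x y := by
  have := hE.compr (.ex (.and (.mem 0 2) (.mem 1 0))) ?_ (fun _ => a)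
  · simpa using this
  · intro v
    refine ⟨Σ i : (v 0).I, ((v 0).A i).I, fun i => ((v 0).A i.1).A i.2, fun w p h => ?_⟩
    obtain ⟨q, hq, y, h⟩ := (frc_ex.1 h).ex
    simp only [frc_and, frc_mem, cons_zero, cons_one, cons_two] at h
    obtain ⟨r, hr, i, _, h1⟩ := h.1.ex
    obtain ⟨s, hs, j, _, h2⟩ := ((h.2.mono hr).right h1).ex
    exact ⟨s, hs.trans (hr.trans hq), ⟨i, j⟩, h2⟩

lemma Sound.power (hE : Sound P E) (a : M) : ∃ u, ∀ x, E x u ↔ ∀ y, E y x → E y a := by
  have := hE.compr (.all (.imp (.mem 0 1) (.mem 0 2))) ?_ (fun _ => a)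
  · simpa using this
  · intro v
    refine ⟨(v 0).I → P → Prop, fun S => cname (v 0).A S, fun w p h => ?_⟩
    simp only [frc_all, frc_imp, frc_mem, cons_zero, cons_one, cons_two] at h
    have hc : Covered (.and (.mem 0 1) (.mem 0 2)) (cons w v) (v 0).A :=
      covered_of_mem (v 0) fun z q hz => (frc_and.1 hz).2
    refine ⟨p, le_rfl, fun i q => Frc (.and (.mem 0 1) (.mem 0 2)) (cons ((v 0).A i) (cons w v)) q,
      feq_ext fun z q hq => ?_⟩
    refine Iff.trans ?_ (compr_mem hc z q).symm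
    simp only [frc_and, frc_mem, cons_zero, cons_one, cons_two]
    exact ⟨fun h1 => ⟨h1, h z q hq h1⟩, fun h1 => h1.1⟩

lemma Sound.sepF (hE : Sound P E) (φ : Fml) (w : ℕ → M) (a : M) :
    ∃ b, ∀ x, E x b ↔ E x a ∧ Sat E φ (cons x w) := by
  have e' : ∀ (x b : M) (v : ℕ → M),
      cons x (cons b v) ∘ cons 0 (fun n => n + 2) = cons x v := by
    intro x b v; funext n; cases n <;> rfl
  have := hE.compr (.and (.mem 0 1) (φ.ren (cons 0 fun n => n + 2))) ?_ (cons a w)
  · simpa [sat_ren, e'] using this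
  · intro v
    exact ⟨_, _, covered_of_mem (v 0) fun z q hz => (frc_and.1 hz).1⟩

lemma Sound.replF (hE : Sound P E) (φ : Fml) (w : ℕ → M) (a : M)
    (h : ∀ x, E x a → ∀ y y', Sat E φ (cons y (cons x w)) → Sat E φ (cons y' (cons x w)) → y = y') :
    ∃ b, ∀ y, E y b ↔ ∃ x, E x a ∧ Sat E φ (cons y (cons x w)) := by
  have e1 : ∀ {α : Type 1} (x y b : α) (v : ℕ → α),
      cons x (cons y (cons b v)) ∘ cons 1 (cons 0 fun n => n + 3) = cons y (cons x v) := by
    intro α x y b v; funext n; rcases n with _ | _ | n <;> rfl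
  have e2 : ∀ {α : Type 1} (z x y b : α) (v : ℕ → α),
      cons z (cons x (cons y (cons b v))) ∘ cons 0 (cons 1 fun n => n + 4) = cons z (cons x v) := by
    intro α z x y b v; funext n; rcases n with _ | _ | n <;> rfl
  have e1' : ∀ {α : Type 1} (x y : α) (v : ℕ → α),
      cons x (cons y v) ∘ cons 1 (cons 0 fun n => n + 3) = cons y (cons x fun n => v (n + 1)) := by
    intro α x y v; funext n; rcases n with _ | _ | n <;> rfl
  have e2' : ∀ {α : Type 1} (z x y : α) (v : ℕ → α),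
      cons z (cons x (cons y v)) ∘ cons 0 (cons 1 fun n => n + 4) =
        cons z (cons x fun n => v (n + 1)) := by
    intro α z x y v; funext n; rcases n with _ | _ | n <;> rfl
  have := hE.compr (.ex (.and (.mem 0 2) (.and (φ.ren (cons 1 (cons 0 fun n => n + 3)))
    (.all (.imp (φ.ren (cons 0 (cons 1 fun n => n + 4))) (.eq 0 2)))))) ?_ (cons a w)
  · obtain ⟨b, hb⟩ := this
    refine ⟨b, fun y => (hb y).trans ?_⟩
    simp only [sat_ex, sat_and, sat_mem, sat_ren, e1, e2, sat_all, sat_imp, sat_eq, cons_zero,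
      cons_two, cons_one]
    exact ⟨fun ⟨x, h1, h2, _⟩ => ⟨x, h1, h2⟩,
      fun ⟨x, h1, h2⟩ => ⟨x, h1, h2, fun z hz => h x h1 _ _ hz h2⟩⟩
  · intro v
    have hw : ∀ iq : (v 0).I × P, ∃ y : Nm P,
        (∃ z, Frc φ (cons z (cons ((v 0).A iq.1) fun n => v (n + 1))) iq.2) →
          Frc φ (cons y (cons ((v 0).A iq.1) fun n => v (n + 1))) iq.2 := by
      intro iq
      by_cases h : ∃ z, Frc φ (cons z (cons ((v 0).A iq.1) fun n => v (n + 1))) iq.2
      · obtain ⟨z, hz⟩ := h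
        exact ⟨z, fun _ => hz⟩
      · exact ⟨emp, fun h' => absurd h' h⟩
    choose A hA using hw
    refine ⟨_, A, fun y p h => ?_⟩
    obtain ⟨q, hq, x, h⟩ := (frc_ex.1 h).ex
    simp only [frc_and, frc_mem, frc_ren, e1', e2', frc_all, frc_imp, frc_eq, cons_zero,
      cons_two, cons_one] at h
    obtain ⟨r, hr, i, _, h1⟩ := h.1.ex
    have hx : ∀ z : Nm P, Frc φ (cons z (cons x fun n => v (n + 1))) r ↔
        Frc φ (cons z (cons ((v 0).A i) fun n => v (n + 1))) r := by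
      intro z
      refine frc_congr fun k _ => ?_
      rcases k with _ | _ | k
      · exact FEq.refl _ _
      · exact h1
      · exact FEq.refl _ _
    have h2 := hA (i, r) ⟨y, (hx y).1 (h.2.1.mono hr)⟩
    exact ⟨r, hr.trans hq, (i, r), (h.2.2 _ r hr ((hx _).2 h2)).symm⟩

lemma Sound.inf (hE : Sound P E) (a : M) : ∃ w, (∃ e, E e w ∧ ∀ x, ¬ E x e) ∧
    ∀ x, E x w → ∃ s, E s w ∧ ∀ y, E y s ↔ E y x ∨ y = x := by
  have := hE (.ex (.and (.ex (.and (.mem 0 1) (.all (.not (.mem 0 1)))))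
    (.all (.imp (.mem 0 1) (.ex (.and (.mem 0 2)
      (.all (.iff (.mem 0 1) (.or (.mem 0 2) (.eq 0 2)))))))))) ?_ (fun _ => a)
  · simpa using this
  · intro v
    simp only [frc_ex, frc_and, frc_mem, frc_all, frc_imp, frc_not, frc_iff, frc_or, frc_eq,
      cons_zero, cons_one, cons_two]
    refine Dn.of_all fun q _ => ⟨ocAll nlt, Dn.of_all fun r _ => ⟨oc nlt 0, oc_mem_all _ _, ?_⟩,
      fun x r _ hx => ?_⟩
    · intro x s _ hx
      obtain ⟨_, _, u, hu, _⟩ := (fmem_oc.1 hx).ex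
      exact Nat.not_lt_zero _ hu
    · refine (fmem_ocAll.1 hx).imp fun s _ ⟨n, hn⟩ =>
        ⟨s, le_rfl, oc nlt (n + 1), oc_mem_all _ _, fun y t ht => ?_⟩
      rw [fmem_oc]
      constructor
      · intro h
        refine h.imp fun u hu ⟨m, hm, h1⟩ => ⟨u, le_rfl, ?_⟩
        rcases Nat.lt_succ_iff_lt_or_eq.1 hm with h2 | h2
        · exact Or.inl (((oc_mem_oc (r := nlt) h2 u).left h1.symm).right
            (hn.symm.mono (hu.trans ht)))
        · have : m = n := h2
          exact Or.inr (h1.trans (this ▸ hn.symm.mono (hu.trans ht)))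
      · intro h
        refine h.imp fun u hu h1 => ?_
        rcases h1 with h1 | h1
        · obtain ⟨u', hu', m, hm, h2⟩ := (fmem_oc.1 (h1.right (hn.mono (hu.trans ht)))).ex
          exact ⟨u', hu', m, Nat.lt_succ_of_lt hm, h2⟩
        · exact ⟨u, le_rfl, n, Nat.lt_succ_self _, h1.trans (hn.mono (hu.trans ht))⟩

/-- translation of Mathlib formulas -/
lemma exists_fml {β : Type 1} {n : ℕ} (φ : setLang.BoundedFormula β n) (ρ : β ⊕ Fin n → ℕ) :
    ∃ ψ : Fml, ∀ w : ℕ → M, Sat E ψ w ↔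
      @Language.BoundedFormula.Realize setLang M (memStr E) β n φ (fun b => w (ρ (.inl b)))
        (fun i => w (ρ (.inr i))) := by
  let := memStr E
  have ht : ∀ {γ : Type 1} (t : setLang.Term γ), ∃ x : γ, ∀ u : γ → M, t.realize u = u x := by
    intro γ t
    cases t with
    | var x => exact ⟨x, fun _ => rfl⟩
    | func f _ => exact Empty.elim f
  have hs : ∀ {n : ℕ} (ρ : β ⊕ Fin n → ℕ) (w : ℕ → M) (x : β ⊕ Fin n),
      Sum.elim (fun b => w (ρ (.inl b))) (fun i => w (ρ (.inr i))) x = w (ρ x) := by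
    intro n ρ w x; cases x <;> rfl
  induction φ with
  | falsum => exact ⟨.bot, fun _ => Iff.rfl⟩
  | equal t₁ t₂ =>
    obtain ⟨x, hx⟩ := ht t₁
    obtain ⟨y, hy⟩ := ht t₂
    refine ⟨.eq (ρ x) (ρ y), fun w => ?_⟩
    simp only [Language.BoundedFormula.Realize, hx, hy, hs, sat_eq]
  | rel R ts =>
    cases R
    obtain ⟨x, hx⟩ := ht (ts 0)
    obtain ⟨y, hy⟩ := ht (ts 1)
    refine ⟨.mem (ρ x) (ρ y), fun w => ?_⟩
    simp only [Language.BoundedFormula.Realize, sat_mem]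
    change _ ↔ E ((ts 0).realize _) ((ts 1).realize _)
    rw [hx, hy, hs, hs]
  | imp a b iha ihb =>
    obtain ⟨x, hx⟩ := iha ρ
    obtain ⟨y, hy⟩ := ihb ρ
    exact ⟨.imp x y, fun w => imp_congr (hx w) (hy w)⟩
  | @all n a iha =>
    obtain ⟨x, hx⟩ := iha (Sum.elim (fun b => ρ (.inl b) + 1)
      (Fin.snoc (α := fun _ => ℕ) (fun i => ρ (.inr i) + 1) 0))
    refine ⟨.all x, fun w => forall_congr' fun y => (hx _).trans ?_⟩
    have : (fun i : Fin (n + 1) => cons y w
        (Fin.snoc (α := fun _ => ℕ) (fun i => ρ (.inr i) + 1) 0 i)) =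
        Fin.snoc (fun i => w (ρ (.inr i))) y := by
      funext i
      refine Fin.lastCases ?_ (fun j => ?_) i <;> simp
    simp only [Sum.elim_inl, Sum.elim_inr, cons_succ, this]

lemma Sound.choice (hE : Sound P E) (a : M) (h1 : ∀ x, E x a → ∃ y, E y x)
    (h2 : ∀ x x' y, E x a → E x' a → E y x → E y x' → x = x') :
    ∃ c, ∀ x, E x a → ∃! y, E y x ∧ E y c := by
  have := hE (.imp (.all (.imp (.mem 0 1) (.ex (.mem 0 1))))
    (.imp (.all (.all (.all (.imp (.mem 2 3) (.imp (.mem 1 3) (.imp (.mem 0 2)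
      (.imp (.mem 0 1) (.eq 2 1))))))))
    (.ex (.all (.imp (.mem 0 2) (.ex (.and (.and (.mem 0 1) (.mem 0 2))
      (.all (.imp (.and (.mem 0 2) (.mem 0 3)) (.eq 0 1)))))))))) ?_ (fun _ => a)
  · simp only [sat_imp, sat_all, sat_ex, sat_mem, sat_eq, sat_and, cons_zero, cons_one, cons_two,
      cons_three] at this
    exact this h1 h2
  · intro v p _ g1 q hq g2
    simp only [frc_imp, frc_all, frc_ex, frc_mem, frc_eq, frc_and, cons_zero, cons_one, cons_two,
      cons_three] at g1 g2 ⊢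
    let J := Σ i : (v 0).I, ((v 0).A i).I
    let u : J → Nm P := fun j => ((v 0).A j.1).A j.2
    let lt : J → J → Prop := WellOrderingRel
    let S : J → P → Prop := fun j r => ∃ x, FMem x (v 0) r ∧ FMem (u j) x r ∧
      ∀ j', lt j' j → ∀ s, s ≤ r → ¬ FMem (u j') x s
    refine Dn.of_all fun q1 hq1 => ⟨cname u S, fun x r hr hx s hs => ?_⟩
    have hsq : s ≤ q := hs.trans (hr.trans hq1)
    have hne : ∃ j, ∃ t, t ≤ s ∧ FMem (u j) x t := by
      obtain ⟨t, ht, y, hy⟩ := (g1 x s (hsq.trans hq) (hx.mono hs)).ex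
      obtain ⟨t1, ht1, i, _, e1⟩ := ((hx.mono hs).mono ht).ex
      obtain ⟨t2, ht2, k, _, e2⟩ := ((hy.mono ht1).right e1).ex
      exact ⟨⟨i, k⟩, t2, ht2.trans (ht1.trans ht), (hy.mono (ht2.trans ht1)).left e2⟩
    obtain ⟨j, ⟨t, ht, hj⟩, hmin⟩ :=
      (IsWellFounded.wf (r := lt)).has_min {j | ∃ t, t ≤ s ∧ FMem (u j) x t} hne
    have hS : S j t := ⟨x, hx.mono (ht.trans hs), hj,
      fun j' h s' hs' h' => hmin j' ⟨s', hs'.trans ht, h'⟩ h⟩
    refine ⟨t, ht, u j, ⟨hj, (fmem_cname _ _ _ _).2 (Dn.of_all fun t' ht' =>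
      ⟨j, t, hS, ht', FEq.refl _ _⟩)⟩, fun y t1 ht1 ⟨hy1, hy2⟩ => ?_⟩
    refine FEq.of_dn (((fmem_cname _ _ _ _).1 hy2).imp
      fun t2 ht2 ⟨j', t3, ⟨x', b1, b2, b3⟩, h3, e⟩ => ⟨t2, le_rfl, ?_⟩)
    have hts : t2 ≤ s := ht2.trans (ht1.trans ht)
    have c1 : FMem (u j') x t2 := (hy1.mono ht2).left e
    have c2 : FEq x x' t2 := g2 x x' (u j') t2 (hts.trans hsq) (hx.mono (hts.trans hs)) t2 le_rfl
      (b1.mono h3) t2 le_rfl c1 t2 le_rfl (b2.mono h3)
    rcases trichotomous_of lt j j' with h | h | h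
    · exact absurd ((hj.mono (ht2.trans ht1)).right c2) (b3 j h t2 h3)
    · exact h ▸ e
    · exact absurd h (hmin j' ⟨t2, hts, c1⟩)

theorem Sound.isZFC (hE : Sound P E) [Countable M] [Nonempty M] : IsZFC E := by
  let := memStr E
  obtain ⟨w, hw⟩ := exists_surjective_nat M
  choose ix hix using hw
  refine ⟨hE.ext, hE.found, hE.pair, hE.union, hE.power, hE.inf (w 0), fun C hC a => ?_,
    fun C hC a h => ?_, hE.choice⟩
  · obtain ⟨φ, hφ⟩ := Set.definable_iff_exists_formula_sum.1 hC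
    obtain ⟨ψ, hψ⟩ := exists_fml (E := E) φ
      (Sum.elim (Sum.elim (fun m => ix m.1 + 1) fun _ => 0) fun i => i.elim0)
    have key : ∀ x, x ∈ C ↔ Sat E ψ (cons x w) := by
      intro x
      have := Set.ext_iff.1 hφ fun _ => x
      simp only [Set.mem_ofPred_eq] at this
      rw [this, hψ, Language.Formula.Realize]
      refine iff_of_eq (congrArg₂ (Language.BoundedFormula.Realize φ) ?_ (Subsingleton.elim _ _))
      funext b
      cases b <;> simp [hix]
    simp only [key]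
    exact hE.sepF ψ w a
  · obtain ⟨φ, hφ⟩ := Set.definable_iff_exists_formula_sum.1 hC
    obtain ⟨ψ, hψ⟩ := exists_fml (E := E) φ
      (Sum.elim (Sum.elim (fun m => ix m.1 + 2) ![1, 0]) fun i => i.elim0)
    have key : ∀ x y, (x, y) ∈ C ↔ Sat E ψ (cons y (cons x w)) := by
      intro x y
      have := Set.ext_iff.1 hφ ![x, y]
      simp only [Set.mem_ofPred_eq, Matrix.cons_val_zero, Matrix.cons_val_one] at this
      rw [this, hψ, Language.Formula.Realize]
      refine iff_of_eq (congrArg₂ (Language.BoundedFormula.Realize φ) ?_ (Subsingleton.elim _ _))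
      funext b
      rcases b with b | b
      · simp [hix]
      · fin_cases b <;> simp
    simp only [key] at h ⊢
    exact hE.replF ψ w a h

end Pool.Agent.MP_5aa9a8_gt.H44
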